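import Pool.Agent.ZGap.GapMeasure
import Pool.Agent.ZetaGaps.Void

/-!
# E2 in the form `VoidBound`
-/

namespace Pool.Agent.ZGap

open MeasureTheory Pool.Agent.Hadamard Pool.Agent.ZetaGaps

/-- Under RH, `VoidBound ε C k0 T0` holds for suitable constants. -/
theorem exists_voidBound (hRH : RiemannHypothesis) {ε : ℝ} (hε : 0 < ε) :
    ∃ C : ℝ, 0 < C ∧ ∃ (k0 : ℕ) (T0 : ℝ), VoidBound ε C k0 T0 := by
  obtain ⟨C, k0, T0, hC, hT0, hk0, h⟩ := exists_gap_measure hRH hε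
  refine ⟨C, hC, k0, T0, fun T hT k hk h2k => ?_⟩
  have h1 := h T hT k hk h2k
  have hsub : {t | t ∈ Set.Icc T (2 * T) ∧ Void (Real.pi * (1 + ε) * k / Real.log T) t} ⊆
      {t : ℝ | t ∈ Set.Icc T (3 * T) ∧
        ∀ ρ : ntz, Real.pi * (1 + ε) * k / Real.log T ≤ |(ρ : ℂ).im - t|} := by
    rintro t ⟨⟨ht1, ht2⟩, hv⟩
    exact ⟨⟨ht1, by linarith⟩, fun ρ => hv ρ ρ.2⟩
  have hfin : volume {t : ℝ | t ∈ Set.Icc T (3 * T) ∧
        ∀ ρ : ntz, Real.pi * (1 + ε) * k / Real.log T ≤ |(ρ : ℂ).im - t|} ≠ ⊤ := by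
    refine ne_top_of_le_ne_top ?_ (measure_mono (t := Set.Icc T (3 * T)) fun t ht => ht.1)
    rw [Real.volume_Icc]
    exact ENNReal.ofReal_ne_top
  refine (measure_mono hsub).trans ?_
  rw [← ENNReal.ofReal_toReal hfin]
  exact ENNReal.ofReal_le_ofReal h1

end Pool.Agent.ZGap
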