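import Pool.Agent.ZGap.ZetaSide
import Pool.Agent.Lib.DirPoly.VM

/-!
# The explicit formula for the band-limited test function, under RH
-/

namespace Pool.Agent.ZGap

open MeasureTheory Real Set ArithmeticFunction Pool.Agent.Hadamard Pool.Agent.DirPoly

lemma re_half (hRH : RiemannHypothesis) (ρ : ntz) : (ρ : ℂ).re = 1 / 2 := by
  obtain ⟨h1, h2, h3⟩ := ρ.2
  refine hRH ρ h1 ?_ ?_
  · rintro ⟨n, hn⟩
    rw [hn] at h2
    simp at h2
    have : (0 : ℝ) ≤ n := Nat.cast_nonneg n
    linarith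
  · intro h
    rw [h] at h3
    simp at h3

/-- The contribution of the poles. -/
noncomputable def QQ (v : ℝ) : ℝ := (1 / (sv v - 1)).re + (1 / sv v).re

lemma QQ_eq (v : ℝ) : QQ v = (1 / 2) / (1 / 4 + v ^ 2) + (3 / 2) / (9 / 4 + v ^ 2) := by
  unfold QQ
  have e1 : (1 / (sv v - 1)).re = (1 / 2) / (1 / 4 + v ^ 2) := by
    rw [one_div, Complex.inv_re, Complex.normSq_apply, Complex.sub_re, Complex.sub_im, sv_re, sv_im]
    simp only [Complex.one_re, Complex.one_im]
    congr 1 <;> ring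
  have e2 : (1 / sv v).re = (3 / 2) / (9 / 4 + v ^ 2) := by
    rw [one_div, Complex.inv_re, Complex.normSq_apply, sv_re, sv_im]
    congr 1; ring
  rw [e1, e2]

@[fun_prop]
lemma QQ_continuous : Continuous QQ := by
  have : QQ = fun v => (1 / 2) / (1 / 4 + v ^ 2) + (3 / 2) / (9 / 4 + v ^ 2) := funext QQ_eq
  rw [this]
  refine Continuous.add ?_ ?_
  · refine Continuous.div continuous_const (by fun_prop) fun v => ?_
    positivity
  · refine Continuous.div continuous_const (by fun_prop) fun v => ?_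
    positivity

lemma abs_QQ_le (v : ℝ) : |QQ v| ≤ 4 * (1 / (1 + v ^ 2)) := by
  rw [QQ_eq, abs_of_nonneg (by positivity)]
  have e1 : (1 / 2) / (1 / 4 + v ^ 2) ≤ 2 * (1 / (1 + v ^ 2)) := by
    rw [mul_one_div, div_le_div_iff₀ (by positivity) (by positivity)]
    nlinarith [sq_nonneg v]
  have e2 : (3 / 2) / (9 / 4 + v ^ 2) ≤ 2 * (1 / (1 + v ^ 2)) := by
    rw [mul_one_div, div_le_div_iff₀ (by positivity) (by positivity)]
    nlinarith [sq_nonneg v]
  linarith

/-- The value of the Poisson sum over zeros. -/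
noncomputable def Zr (v : ℝ) : ℝ :=
  (logDeriv riemannZeta (sv v)).re + QQ v - Real.log π / 2 + Dg v / 2

theorem hasSum_poisson (hRH : RiemannHypothesis) (v : ℝ) :
    HasSum (fun ρ : ntz => (mult ρ : ℝ) * (1 / (1 + (v - (ρ : ℂ).im) ^ 2))) (Zr v) := by
  have hs : 1 ≤ (sv v).re := by rw [sv_re]; norm_num
  have hs1 : sv v ≠ 1 := by
    intro h
    have := congrArg Complex.re h
    rw [sv_re] at this
    norm_num at this
  have h := hasSum_re_zeros hs hs1
  have e1 : (logDeriv riemannZeta (sv v)).re + (1 / (sv v - 1)).re + (1 / (sv v)).re -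
      Real.log Real.pi / 2 + (logDeriv Complex.Gamma ((sv v) / 2)).re / 2 = Zr v := by
    unfold Zr QQ Dg; ring
  rw [e1] at h
  convert h using 2 with ρ
  congr 1
  rw [one_div, one_div, Complex.inv_re, Complex.normSq_apply, Complex.sub_re, Complex.sub_im, sv_re,
    sv_im, re_half hRH]
  norm_num
  ring

instance ntz_countable : Countable ntz := by
  have h := summable_mult
  have h2 := h.countable_support
  have h3 : Function.support (fun ρ : ntz => (mult ρ : ℝ) / (1 + ‖(ρ : ℂ)‖ ^ 2)) = Set.univ := by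
    ext ρ
    simp only [Function.mem_support, Set.mem_univ, iff_true]
    have := mult_pos ρ.2
    positivity
  rw [h3] at h2
  exact Set.countable_univ_iff.mp h2

lemma Dg_continuous : Continuous Dg := by
  have hU : IsOpen {z : ℂ | 0 < z.re} := isOpen_lt continuous_const Complex.continuous_re
  have h1 : DifferentiableOn ℂ Complex.Gamma {z : ℂ | 0 < z.re} := by
    intro z hz
    refine (Complex.differentiableAt_Gamma z fun m h => ?_).differentiableWithinAt
    rw [h] at hz
    simp at hz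
    have : (0 : ℝ) ≤ m := Nat.cast_nonneg m
    linarith
  have h2 : ContinuousOn (logDeriv Complex.Gamma) {z : ℂ | 0 < z.re} := by
    have h3 := (h1.deriv hU).continuousOn
    refine (h3.div h1.continuousOn fun z hz => Complex.Gamma_ne_zero_of_re_pos hz).congr ?_
    intro z _
    rw [logDeriv_apply]; rfl
  have h4 : Continuous (fun v : ℝ => logDeriv Complex.Gamma (sv v / 2)) := by
    refine h2.comp_continuous (by have := sv_continuous; fun_prop) fun v => ?_
    have : (sv v / 2).re = 3 / 4 := by simp [sv]; norm_num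
    simp only [Set.mem_ofPred_eq, this]
    norm_num
  unfold Dg
  exact Complex.continuous_re.comp h4

/-- The prime side as a real function. -/
noncomputable def Zs (v : ℝ) : ℝ := -(logDeriv riemannZeta (sv v)).re

lemma summable_vM : Summable (fun n : ℕ => vonMangoldt n * (n : ℝ) ^ (-(3 / 2) : ℝ)) := by
  have h := (hasSum_zeta_re 0).summable
  refine h.congr fun n => ?_
  simp

lemma vM_term_nonneg (n : ℕ) : 0 ≤ vonMangoldt n * (n : ℝ) ^ (-(3 / 2) : ℝ) :=
  mul_nonneg vonMangoldt_nonneg (Real.rpow_nonneg (Nat.cast_nonneg n) _)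

lemma Zs_continuous : Continuous Zs := by
  have h : Zs = fun v => ∑' n : ℕ,
      vonMangoldt n * (n : ℝ) ^ (-(3 / 2) : ℝ) * Real.cos (v * Real.log n) :=
    funext fun v => ((hasSum_zeta_re v).tsum_eq).symm
  rw [h]
  refine continuous_tsum (fun n => by fun_prop) summable_vM fun n v => ?_
  rw [norm_mul, Real.norm_of_nonneg (vM_term_nonneg n), Real.norm_eq_abs]
  exact mul_le_of_le_one_right (vM_term_nonneg n) (Real.abs_cos_le_one _)

lemma abs_Zs_le (v : ℝ) : |Zs v| ≤ ∑' n : ℕ, vonMangoldt n * (n : ℝ) ^ (-(3 / 2) : ℝ) := by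
  unfold Zs
  rw [← (hasSum_zeta_re v).tsum_eq, ← Real.norm_eq_abs]
  refine tsum_of_norm_bounded summable_vM.hasSum fun n => ?_
  rw [norm_mul, Real.norm_of_nonneg (vM_term_nonneg n), Real.norm_eq_abs]
  exact mul_le_of_le_one_right (vM_term_nonneg n) (Real.abs_cos_le_one _)

variable {lam : ℝ}

/-- The convolution bound. -/
lemma poisson_mul_le (x u : ℝ) :
    (1 / (1 + u ^ 2)) * (1 / (1 + (x - u) ^ 2)) ≤
      4 / (4 + x ^ 2) * (1 / (1 + u ^ 2) + 1 / (1 + (x - u) ^ 2)) := by
  have ha : 0 < 1 + u ^ 2 := by positivity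
  have hb : 0 < 1 + (x - u) ^ 2 := by positivity
  have hc : 0 < 4 + x ^ 2 := by positivity
  have e1 : 4 / (4 + x ^ 2) * (1 / (1 + u ^ 2) + 1 / (1 + (x - u) ^ 2)) -
      (1 / (1 + u ^ 2)) * (1 / (1 + (x - u) ^ 2)) =
      (4 * ((1 + u ^ 2) + (1 + (x - u) ^ 2)) - (4 + x ^ 2)) /
        ((4 + x ^ 2) * (1 + u ^ 2) * (1 + (x - u) ^ 2)) := by
    field_simp
    ring
  have e2 : 0 ≤ (4 * ((1 + u ^ 2) + (1 + (x - u) ^ 2)) - (4 + x ^ 2)) /
        ((4 + x ^ 2) * (1 + u ^ 2) * (1 + (x - u) ^ 2)) := by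
    apply div_nonneg _ (by positivity)
    nlinarith [sq_nonneg (x - 2 * u)]
  linarith

lemma integrable_poisson_shift (x : ℝ) : Integrable (fun u : ℝ => 1 / (1 + (x - u) ^ 2)) := by
  have h := (integrable_inv_one_add_sq).comp_sub_left x
  refine h.congr (Filter.Eventually.of_forall fun u => ?_)
  simp

lemma integral_poisson_shift (x : ℝ) : ∫ u : ℝ, 1 / (1 + (x - u) ^ 2) = π := by
  have h := integral_sub_left_eq_self (fun u : ℝ => (1 + u ^ 2)⁻¹) volume x
  rw [integral_univ_inv_one_add_sq] at h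
  rw [← h]
  refine integral_congr_ae (Filter.Eventually.of_forall fun u => ?_)
  simp

lemma AA_poisson_integrable {D : ℝ} (h0 : 0 ≤ lam) (h1 : lam ≤ 1) (hD : 1 / 2 ≤ D) (x : ℝ) :
    Integrable (fun u : ℝ => AA lam D u * (1 / (1 + (x - u) ^ 2))) := by
  refine (AA_integrable h0 h1 hD).norm.mono' ?_ (Filter.Eventually.of_forall fun u => ?_)
  · refine Continuous.aestronglyMeasurable ((AA_continuous lam D).mul ?_)
    refine Continuous.div continuous_const (by fun_prop) fun v => ?_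
    positivity
  · rw [norm_mul, Real.norm_of_nonneg (by positivity : 0 ≤ 1 / (1 + (x - u) ^ 2))]
    refine mul_le_of_le_one_right (norm_nonneg _) ?_
    rw [div_le_one (by positivity)]
    nlinarith [sq_nonneg (x - u)]

lemma integral_abs_AA_poisson_le {D : ℝ} (h0 : 0 ≤ lam) (h1 : lam ≤ 1) (hD : 1 / 2 ≤ D) (x : ℝ) :
    ∫ u : ℝ, ‖AA lam D u * (1 / (1 + (x - u) ^ 2))‖ ≤
      284 * Real.exp D * (8 * π) / (4 + x ^ 2) := by
  have hg : Integrable (fun u : ℝ => 284 * Real.exp D * (4 / (4 + x ^ 2)) *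
      ((1 + u ^ 2)⁻¹ + 1 / (1 + (x - u) ^ 2))) :=
    (integrable_inv_one_add_sq.add (integrable_poisson_shift x)).const_mul _
  calc ∫ u : ℝ, ‖AA lam D u * (1 / (1 + (x - u) ^ 2))‖
      ≤ ∫ u : ℝ, 284 * Real.exp D * (4 / (4 + x ^ 2)) *
      ((1 + u ^ 2)⁻¹ + 1 / (1 + (x - u) ^ 2)) := by
        refine integral_mono (AA_poisson_integrable h0 h1 hD x).norm hg fun u => ?_
        simp only
        rw [norm_mul, Real.norm_of_nonneg (by positivity : 0 ≤ 1 / (1 + (x - u) ^ 2)),
          Real.norm_eq_abs]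
        calc _ ≤ 284 * Real.exp D / (1 + u ^ 2) * (1 / (1 + (x - u) ^ 2)) := by
              gcongr
              exact abs_AA_le h0 h1 hD
          _ = 284 * Real.exp D * ((1 / (1 + u ^ 2)) * (1 / (1 + (x - u) ^ 2))) := by ring
          _ ≤ 284 * Real.exp D * (4 / (4 + x ^ 2) * (1 / (1 + u ^ 2) + 1 / (1 + (x - u) ^ 2))) :=
              mul_le_mul_of_nonneg_left (poisson_mul_le x u) (by positivity)
          _ = _ := by rw [one_div (1 + u ^ 2)]; ring
    _ = 284 * Real.exp D * (4 / (4 + x ^ 2)) * (π + π) := by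
        rw [MeasureTheory.integral_const_mul, integral_add integrable_inv_one_add_sq
          (integrable_poisson_shift x), integral_poisson_shift, integral_univ_inv_one_add_sq]
    _ = _ := by ring

/-- The sum over zeros as an integral. -/
theorem hasSum_FF (hRH : RiemannHypothesis) {D : ℝ} (h0 : 0 ≤ lam) (h1 : lam ≤ 1)
    (hD : 1 / 2 ≤ D) (t : ℝ) :
    HasSum (fun ρ : ntz => (mult ρ : ℝ) * (π * FF lam D (t - (ρ : ℂ).im)))
      (∫ u : ℝ, AA lam D u * Zr (t - u)) := by
  have h2 := hasSum_integral_of_summable_integral_norm (μ := volume)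
    (F := fun (ρ : ntz) (u : ℝ) =>
      (mult ρ : ℝ) * (AA lam D u * (1 / (1 + ((t - (ρ : ℂ).im) - u) ^ 2)))) ?_ ?_
  · have e1 : ∀ ρ : ntz, ∫ u : ℝ, (mult ρ : ℝ) *
        (AA lam D u * (1 / (1 + ((t - (ρ : ℂ).im) - u) ^ 2))) =
        (mult ρ : ℝ) * (π * FF lam D (t - (ρ : ℂ).im)) := by
      intro ρ
      rw [MeasureTheory.integral_const_mul, integral_AA_poisson h0 h1 hD]
    have e2 : ∀ u : ℝ, ∑' ρ : ntz, (mult ρ : ℝ) *
        (AA lam D u * (1 / (1 + ((t - (ρ : ℂ).im) - u) ^ 2))) = AA lam D u * Zr (t - u) := by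
      intro u
      rw [← (hasSum_poisson hRH (t - u)).tsum_eq, ← tsum_mul_left]
      refine tsum_congr fun ρ => ?_
      have : t - (ρ : ℂ).im - u = t - u - (ρ : ℂ).im := by ring
      rw [this]
      ring
    simp_rw [e1, e2] at h2
    exact h2
  · intro ρ
    exact (AA_poisson_integrable h0 h1 hD _).const_mul _
  · have h3 := (hasSum_poisson hRH t).summable.mul_left (284 * Real.exp D * (8 * π))
    refine Summable.of_nonneg_of_le (fun ρ => ?_) (fun ρ => ?_) h3
    · exact integral_nonneg fun u => norm_nonneg _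
    · have e3 : ∀ u : ℝ, ‖(mult ρ : ℝ) * (AA lam D u * (1 / (1 + ((t - (ρ : ℂ).im) - u) ^ 2)))‖ =
          (mult ρ : ℝ) * ‖AA lam D u * (1 / (1 + ((t - (ρ : ℂ).im) - u) ^ 2))‖ := by
        intro u
        rw [norm_mul, Real.norm_natCast]
      simp_rw [e3]
      rw [MeasureTheory.integral_const_mul]
      calc _ ≤ (mult ρ : ℝ) * (284 * Real.exp D * (8 * π) / (4 + (t - (ρ : ℂ).im) ^ 2)) := by
            gcongr
            exact integral_abs_AA_poisson_le h0 h1 hD _
        _ ≤ (mult ρ : ℝ) * (284 * Real.exp D * (8 * π) / (1 + (t - (ρ : ℂ).im) ^ 2)) := by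
            gcongr
            norm_num
        _ = _ := by ring

end Pool.Agent.ZGap
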