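import Pool.Agent.ZGap.ClusterMeasure
import Pool.Agent.ZetaGaps.Combine

/-!
# From the measure of clusters to the number of clusters
-/

namespace Pool.Agent.ZGap

open MeasureTheory Pool.Agent.Hadamard Pool.Agent.ZetaGaps Finset

/-- The window `[t - w, t + w]` contains at least `x` nontrivial zeros, with multiplicity. -/
def Clu (w x t : ℝ) : Prop :=
  ∃ F : Finset ntz, (∀ ρ ∈ F, |(ρ : ℂ).im - t| ≤ w) ∧ x ≤ ∑ ρ ∈ F, (mult ρ : ℝ)

lemma Clu.mono {w w' x x' t : ℝ} (hw : w ≤ w') (hx : x' ≤ x) (h : Clu w x t) : Clu w' x' t := by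
  obtain ⟨F, h1, h2⟩ := h
  exact ⟨F, fun ρ hρ => (h1 ρ hρ).trans hw, hx.trans h2⟩

/-- The measure estimate for clusters. -/
def CluBound (ε C : ℝ) (k0 : ℕ) (T0 : ℝ) : Prop :=
  ∀ T : ℝ, T0 ≤ T → ∀ k : ℕ, k0 ≤ k → (2 : ℝ) ^ k ≤ T →
    volume {t | t ∈ Set.Icc T (3 * T) ∧ Clu (Real.sqrt (ε / 2) * k / Real.log T) ((1 + ε) * k) t} ≤
      ENNReal.ofReal (T * (C / k) ^ k)

theorem exists_cluBound (hRH : RiemannHypothesis) {ε : ℝ} (hε : 0 < ε) (hε1 : ε ≤ 1) :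
    ∃ C : ℝ, 0 < C ∧ ∃ (k0 : ℕ) (T0 : ℝ), CluBound ε C k0 T0 := by
  obtain ⟨C, k0, T0, hC, hT0, hk0, h⟩ := exists_cluster_measure hRH hε hε1
  refine ⟨C, hC, k0, T0, fun T hT k hk h2k => ?_⟩
  have h1 := h T hT k hk h2k
  have hfin : volume {t : ℝ | t ∈ Set.Icc T (3 * T) ∧ ∃ A : Finset ntz,
        (∀ ρ ∈ A, |(ρ : ℂ).im - t| ≤ Real.sqrt (ε / 2) * k / Real.log T) ∧
          (1 + ε) * k ≤ ∑ ρ ∈ A, (mult ρ : ℝ)} ≠ ⊤ := by
    refine ne_top_of_le_ne_top ?_ (measure_mono (t := Set.Icc T (3 * T)) fun t ht => ht.1)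
    rw [Real.volume_Icc]
    exact ENNReal.ofReal_ne_top
  change volume {t : ℝ | t ∈ Set.Icc T (3 * T) ∧ ∃ A : Finset ntz,
        (∀ ρ ∈ A, |(ρ : ℂ).im - t| ≤ Real.sqrt (ε / 2) * k / Real.log T) ∧
          (1 + ε) * k ≤ ∑ ρ ∈ A, (mult ρ : ℝ)} ≤ _
  rw [← ENNReal.ofReal_toReal hfin]
  exact ENNReal.ofReal_le_ofReal h1

/-- A block of consecutive ordinates inside a window. -/
lemma clu_of_ordinates {a b : ℕ} (ha : 1 ≤ a) (hab : a ≤ b) {t w δ : ℝ} (hδ : 0 < δ)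
    (h1 : t - w + δ ≤ ordinate a) (h2 : ordinate b ≤ t + w) :
    Clu w (((b : ℝ) - a) + 1) t := by
  classical
  set S := ordinate a - δ with hS
  have hexa := zeroCount_unbounded a
  have hexb := zeroCount_unbounded b
  have hSa : zeroCount S < a := by
    by_contra hcon
    push Not at hcon
    have := (le_zeroCount_iff hexa ha).mp hcon
    linarith
  have hSb : S ≤ ordinate b := by
    have := ordinate_mono hexb ha hab
    linarith
  have hb : b ≤ zeroCount (ordinate b) := le_zeroCount_ordinate hexb (ha.trans hab)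
  have h3 := zeroCount_sub hSb
  set F0 := (finite_zerosUpTo (ordinate b)).toFinset.filter (fun ρ => S < ρ.im) with hF0
  have hmem : ∀ ρ ∈ F0, ρ ∈ ntz ∧ S < ρ.im ∧ ρ.im ≤ ordinate b := by
    intro ρ hρ
    rw [hF0, Finset.mem_filter, Set.Finite.mem_toFinset, mem_zerosUpTo] at hρ
    exact ⟨hρ.1.1, hρ.2, hρ.1.2.2⟩
  refine ⟨F0.subtype (fun ρ => ρ ∈ ntz), fun ρ hρ => ?_, ?_⟩
  · rw [Finset.mem_subtype] at hρ
    obtain ⟨_, h5, h6⟩ := hmem _ hρ
    rw [abs_le]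
    constructor <;> linarith
  · have h4 : ∑ ρ ∈ F0.subtype (fun ρ => ρ ∈ ntz), (mult (ρ : ℂ) : ℝ) = ∑ ρ ∈ F0, (mult ρ : ℝ) :=
      Finset.sum_subtype_of_mem (fun ρ : ℂ => (mult ρ : ℝ)) fun ρ hρ => (hmem ρ hρ).1
    rw [h4, ← Nat.cast_sum]
    have h5 : b - a + 1 ≤ ∑ ρ ∈ F0, mult ρ := by omega
    have h6 : ((b - a + 1 : ℕ) : ℝ) ≤ ((∑ ρ ∈ F0, mult ρ : ℕ) : ℝ) := by exact_mod_cast h5
    push_cast [Nat.cast_sub hab] at h6
    push_cast
    exact h6

/-- Layer-cake counting. -/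
lemma layer_count (A : Finset ℕ) (g : ℕ → ℝ) {r : ℝ} (E : ℕ → Set ℝ)
    (hE : ∀ t u, 1 ≤ u → u ≤ (A.filter (fun n => g n ≤ t ∧ t ≤ g n + r)).card → t ∈ E u) :
    ENNReal.ofReal (A.card * r) ≤ ∑ u ∈ Finset.Icc 1 A.card, volume (E u) := by
  classical
  set f : ℝ → ℕ := fun t => (A.filter (fun n => g n ≤ t ∧ t ≤ g n + r)).card with hf
  have hfsum : ∀ t, (f t : ENNReal) = ∑ n ∈ A, (Set.Icc (g n) (g n + r)).indicator 1 t := by
    intro t
    rw [hf]
    simp only [Finset.card_filter, Set.indicator_apply, Set.mem_Icc, Pi.one_apply]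
    push_cast
    rfl
  have hfmeas : Measurable (fun t => (f t : ENNReal)) := by
    simp_rw [hfsum]
    exact Finset.measurable_sum _ fun n _ => measurable_one.indicator measurableSet_Icc
  have h1 : ∫⁻ t, (f t : ENNReal) = ENNReal.ofReal (A.card * r) := by
    simp_rw [hfsum]
    rw [lintegral_finsetSum _ fun n _ => measurable_one.indicator measurableSet_Icc]
    have h2 : ∀ n ∈ A, ∫⁻ t, (Set.Icc (g n) (g n + r)).indicator (1 : ℝ → ENNReal) t =
        ENNReal.ofReal r := by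
      intro n _
      rw [lintegral_indicator_one measurableSet_Icc, Real.volume_Icc]
      congr 1; ring
    rw [Finset.sum_congr rfl h2, Finset.sum_const, nsmul_eq_mul,
      ENNReal.ofReal_mul (Nat.cast_nonneg _), ENNReal.ofReal_natCast]
  have h3 : ∀ t, (f t : ENNReal) ≤
      ∑ u ∈ Finset.Icc 1 A.card, ({t | u ≤ f t} : Set ℝ).indicator 1 t := by
    intro t
    have h4 : f t ≤ A.card := Finset.card_filter_le _ _
    have h5 : (f t : ENNReal) = ∑ u ∈ Finset.Icc 1 (f t), (1 : ENNReal) := by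
      rw [Finset.sum_const, Nat.card_Icc]
      simp
    rw [h5]
    calc ∑ u ∈ Finset.Icc 1 (f t), (1 : ENNReal)
        = ∑ u ∈ Finset.Icc 1 (f t), ({t | u ≤ f t} : Set ℝ).indicator 1 t := by
          refine Finset.sum_congr rfl fun u hu => ?_
          rw [Set.indicator_of_mem (show t ∈ {t | u ≤ f t} from (Finset.mem_Icc.mp hu).2)]
          rfl
      _ ≤ _ := Finset.sum_le_sum_of_subset (Finset.Icc_subset_Icc_right h4)
  have hms : ∀ u : ℕ, MeasurableSet {t | u ≤ f t} := by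
    intro u
    have h6 : {t | u ≤ f t} = {t | (u : ENNReal) ≤ (f t : ENNReal)} := by
      ext t; simp
    rw [h6]
    exact measurableSet_le measurable_const hfmeas
  rw [← h1]
  calc ∫⁻ t, (f t : ENNReal) ≤
        ∫⁻ t, ∑ u ∈ Finset.Icc 1 A.card, ({t | u ≤ f t} : Set ℝ).indicator 1 t := lintegral_mono h3
    _ = ∑ u ∈ Finset.Icc 1 A.card, volume {t | u ≤ f t} := by
        rw [lintegral_finsetSum _ fun u _ => measurable_one.indicator (hms u)]
        refine Finset.sum_congr rfl fun u _ => ?_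
        rw [lintegral_indicator_one (hms u)]
    _ ≤ _ := by
        refine Finset.sum_le_sum fun u hu => measure_mono fun t ht => ?_
        exact hE t u (Finset.mem_Icc.mp hu).1 ht

/-- `∑_{u=1}^{n} 2^{-⌊(u-1)/2⌋} ≤ 4`. -/
lemma sum_half_pow_le (n : ℕ) : ∑ u ∈ Finset.Icc 1 n, (1 / 2 : ℝ) ^ ((u - 1) / 2) ≤ 4 := by
  have key : ∀ j : ℕ, ∑ u ∈ Finset.Icc 1 (2 * j), (1 / 2 : ℝ) ^ ((u - 1) / 2) ≤
      4 - 4 * (1 / 2) ^ j := by
    intro j
    induction j with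
    | zero => simp
    | succ j ih =>
      have h1 : 2 * (j + 1) = 2 * j + 1 + 1 := by ring
      rw [h1, Finset.sum_Icc_succ_top (by omega), Finset.sum_Icc_succ_top (by omega)]
      have h2 : (2 * j + 1 - 1) / 2 = j := by omega
      have h3 : (2 * j + 1 + 1 - 1) / 2 = j := by omega
      rw [h2, h3, pow_succ]
      linarith
  have h1 := key n
  have h2 : Finset.Icc 1 n ⊆ Finset.Icc 1 (2 * n) := Finset.Icc_subset_Icc_right (by omega)
  have h3 := Finset.sum_le_sum_of_subset_of_nonneg h2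
    (f := fun u => (1 / 2 : ℝ) ^ ((u - 1) / 2)) fun _ _ _ => by positivity
  have h4 : (0 : ℝ) < (1 / 2) ^ n := by positivity
  linarith

lemma pow_shift_le {C : ℝ} (hC : 0 < C) {k : ℕ} (hk1 : 1 ≤ k) (hk : 2 * C ≤ k) (j : ℕ) :
    (C / ((k + j : ℕ) : ℝ)) ^ (k + j) ≤ (C / k) ^ k * (1 / 2) ^ j := by
  have hk0 : (0 : ℝ) < k := by exact_mod_cast hk1
  have h1 : C / ((k + j : ℕ) : ℝ) ≤ C / k := by
    apply div_le_div_of_nonneg_left hC.le hk0
    push_cast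
    linarith [(Nat.cast_nonneg j : (0 : ℝ) ≤ j)]
  have h2 : C / k ≤ 1 / 2 := by
    rw [div_le_div_iff₀ hk0 (by norm_num)]; linarith
  have h3 : 0 ≤ C / ((k + j : ℕ) : ℝ) := by positivity
  calc (C / ((k + j : ℕ) : ℝ)) ^ (k + j) ≤ (C / k) ^ (k + j) := pow_le_pow_left₀ h3 h1 _
    _ = (C / k) ^ k * (C / k) ^ j := pow_add _ _ _
    _ ≤ (C / k) ^ k * (1 / 2) ^ j := by
        gcongr

end Pool.Agent.ZGap
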