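import Pool.Agent.ZGap.Cluster

/-!
# Clusters in a dyadic block
-/

namespace Pool.Agent.ZGap

open MeasureTheory Pool.Agent.Hadamard Pool.Agent.ZetaGaps Finset

/-- `2^K ≤ T < 2^(K+1)` for `K = log_2 ⌊T⌋`. -/
lemma log_floor_bounds {T : ℝ} (hT : 1 ≤ T) :
    (2 : ℝ) ^ (Nat.log 2 ⌊T⌋₊) ≤ T ∧ T < (2 : ℝ) ^ (Nat.log 2 ⌊T⌋₊ + 1) := by
  have hfl : ⌊T⌋₊ ≠ 0 := by
    have : 1 ≤ ⌊T⌋₊ := Nat.le_floor (by push_cast; linarith)
    omega
  constructor
  · have := Nat.pow_log_le_self 2 hfl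
    calc (2:ℝ) ^ (Nat.log 2 ⌊T⌋₊) ≤ (⌊T⌋₊ : ℝ) := by exact_mod_cast this
      _ ≤ T := Nat.floor_le (by linarith)
  · have h3 := Nat.lt_pow_succ_log_self (b := 2) (by norm_num) ⌊T⌋₊
    have h4 := Nat.lt_floor_add_one T
    calc T < (⌊T⌋₊ : ℝ) + 1 := h4
      _ ≤ (2:ℝ) ^ (Nat.log 2 ⌊T⌋₊ + 1) := by exact_mod_cast h3

lemma log_le_of_lt_two_pow {T : ℝ} (hT : 0 < T) {k : ℕ} (h : T < (2 : ℝ) ^ (k + 1)) :
    Real.log T ≤ k + 1 := by
  have h9 := Real.log_le_log hT h.le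
  rw [Real.log_pow] at h9
  have h10 : Real.log 2 ≤ 1 := by
    have := Real.log_two_lt_d9; linarith
  push_cast at h9
  nlinarith [(Nat.cast_nonneg k : (0:ℝ) ≤ k)]

/-- The number of clusters in a dyadic block. -/
theorem cluster_block {ε C : ℝ} {k0 : ℕ} {T0 : ℝ} (hε : 0 < ε) (hε1 : ε ≤ 1) (hC : 0 < C)
    (h : CluBound ε C k0 T0) :
    ∃ k1 : ℕ, 1 ≤ k1 ∧ ∃ T1 : ℝ, 3 ≤ T1 ∧ ∀ T : ℝ, T1 ≤ T → ∀ k : ℕ, k1 ≤ k → (2:ℝ) ^ k ≤ T →
      ∀ m : ℕ, (1 + ε) * k ≤ m + 1 →
      ∀ A : Finset ℕ, (∀ n ∈ A, 1 ≤ n ∧ T ≤ ordinate n ∧ ordinate n ≤ 5 / 2 * T ∧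
        ordinate (n + m) - ordinate n ≤ Real.sqrt (ε / 2) / 4 * k / Real.log T) →
      (A.card : ℝ) ≤ 8 / (Real.sqrt (ε / 2) / 4) * (T * Real.log T) * (C / k) ^ k := by
  set κ := Real.sqrt (ε / 2) / 4 with hκ
  have hsq0 : 0 < Real.sqrt (ε / 2) := Real.sqrt_pos.mpr (by positivity)
  have hκ0 : 0 < κ := by positivity
  have hκ1 : κ ≤ 1 / 4 := by
    have : Real.sqrt (ε / 2) ≤ 1 := by
      rw [Real.sqrt_le_left (by norm_num)]
      linarith
    rw [hκ]; linarith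
  obtain ⟨K1, hK1, hsmall⟩ := exists_small (ε := κ / 2) (C := C) (by positivity) hC.le
  refine ⟨max k0 (⌈2 * C⌉₊ + 1), le_trans (by omega) (le_max_right _ _),
    max T0 (max 3 (2 ^ K1)), (le_max_left _ _).trans (le_max_right _ _),
    fun T hT k hk h2k m hm A hA => ?_⟩
  have hTT0 : T0 ≤ T := (le_max_left _ _).trans hT
  have hT3 : 3 ≤ T := ((le_max_left _ _).trans (le_max_right _ _)).trans hT
  have hTK1 : (2 : ℝ) ^ K1 ≤ T := ((le_max_right _ _).trans (le_max_right _ _)).trans hT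
  have hT0 : 0 < T := by linarith
  have hk0 : k0 ≤ k := (le_max_left _ _).trans hk
  have hk2 : ⌈2 * C⌉₊ + 1 ≤ k := (le_max_right _ _).trans hk
  have hk1 : 1 ≤ k := by omega
  have hk2C : 2 * C ≤ k := (Nat.le_ceil _).trans (by exact_mod_cast (by omega : ⌈2 * C⌉₊ ≤ k))
  have hkr : (1 : ℝ) ≤ k := by exact_mod_cast hk1
  have hkpos : (0 : ℝ) < k := by linarith
  set L := Real.log T with hL
  have hL0 : 0 < L := Real.log_pos (by linarith)
  obtain ⟨hK2, hK3⟩ := log_floor_bounds (T := T) (by linarith)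
  set K := Nat.log 2 ⌊T⌋₊ with hK
  have hkK : k ≤ K := by
    have : (2:ℝ) ^ k < 2 ^ (K + 1) := h2k.trans_lt hK3
    have := (pow_lt_pow_iff_right₀ (by norm_num)).mp this
    omega
  have hK1K : K1 ≤ K := by
    have : (2:ℝ) ^ K1 < 2 ^ (K + 1) := hTK1.trans_lt hK3
    have := (pow_lt_pow_iff_right₀ (by norm_num)).mp this
    omega
  have hLK : L ≤ K + 1 := log_le_of_lt_two_pow hT0 hK3
  set r := κ * k / L with hr
  have hr0 : 0 < r := by positivity
  have hrT : r ≤ T / 2 := by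
    have h1 : k * Real.log 2 ≤ L := by
      have h2 := Real.log_le_log (by positivity) h2k
      rwa [Real.log_pow] at h2
    have h3 := Real.log_two_gt_d9
    rw [hr, div_le_iff₀ hL0]
    have h4 : (k : ℝ) ≤ 2 * L := by nlinarith
    calc κ * k ≤ 1 / 4 * (2 * L) := by gcongr
      _ ≤ T / 2 * L := by nlinarith
  set ku : ℕ → ℕ := fun u => min (k + (u - 1) / 2) K with hku
  set E : ℕ → Set ℝ := fun u => {t | t ∈ Set.Icc T (3 * T) ∧
    Clu (Real.sqrt (ε / 2) * (ku u : ℕ) / L) ((1 + ε) * (ku u : ℕ)) t} with hE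
  have hku1 : ∀ u, k ≤ ku u := fun u => le_min (by omega) hkK
  have hku2 : ∀ u, ku u ≤ K := fun u => min_le_right _ _
  have hku3 : ∀ u, ku u ≤ k + (u - 1) / 2 := fun u => min_le_left _ _
  -- the sets E u
  have hmemE : ∀ t u, 1 ≤ u →
      u ≤ (A.filter (fun n => ordinate n ≤ t ∧ t ≤ ordinate n + r)).card → t ∈ E u := by
    intro t u hu1 hu
    set S := A.filter (fun n => ordinate n ≤ t ∧ t ≤ ordinate n + r) with hS
    have hSne : S.Nonempty := Finset.card_pos.mp (by omega)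
    have hmin := S.min'_mem hSne
    have hmax := S.max'_mem hSne
    set a := S.min' hSne with ha
    set b := S.max' hSne with hb
    have hab : a ≤ b := S.min'_le _ hmax
    have hcard : S.card ≤ b - a + 1 := by
      have hsub : S ⊆ Finset.Icc a b := fun n hn =>
        Finset.mem_Icc.mpr ⟨S.min'_le _ hn, S.le_max' _ hn⟩
      have := Finset.card_le_card hsub
      rw [Nat.card_Icc] at this
      omega
    have haS := Finset.mem_filter.mp hmin
    have hbS := Finset.mem_filter.mp hmax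
    have haA := hA a haS.1
    have hbA := hA b hbS.1
    have h1 : Clu (2 * r) ((((b + m : ℕ) : ℝ) - a) + 1) t := by
      apply clu_of_ordinates haA.1 (by omega) hr0
      · linarith [haS.2.2]
      · have : r = κ * k / L := rfl
        linarith [hbS.2.1, hbA.2.2.2]
    refine ⟨⟨?_, ?_⟩, h1.mono ?_ ?_⟩
    · linarith [haS.2.1, haA.2.1]
    · linarith [haS.2.2, haA.2.2.1]
    · have h2 : 2 * r = Real.sqrt (ε / 2) * (k / 2) / L := by
        rw [hr, hκ]; ring
      rw [h2]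
      have h3 : (k : ℝ) ≤ (ku u : ℕ) := by exact_mod_cast hku1 u
      gcongr
      linarith
    · have h3 : ((ku u : ℕ) : ℝ) ≤ k + ((u : ℝ) - 1) / 2 := by
        have h4 : ((ku u : ℕ) : ℝ) ≤ ((k + (u - 1) / 2 : ℕ) : ℝ) := by exact_mod_cast hku3 u
        have h5 : (((u - 1) / 2 : ℕ) : ℝ) ≤ ((u : ℝ) - 1) / 2 := by
          refine Nat.cast_div_le.trans ?_
          push_cast [Nat.cast_sub hu1]
          exact le_rfl
        push_cast at h4
        linarith
      have h6 : (1 + ε) * ((ku u : ℕ) : ℝ) ≤ (1 + ε) * k + ((u : ℝ) - 1) := by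
        have hu0 : (0 : ℝ) ≤ (u : ℝ) - 1 := by
          have : (1 : ℝ) ≤ u := by exact_mod_cast hu1
          linarith
        calc (1 + ε) * ((ku u : ℕ) : ℝ) ≤ (1 + ε) * (k + ((u : ℝ) - 1) / 2) := by gcongr
          _ = (1 + ε) * k + (1 + ε) / 2 * ((u : ℝ) - 1) := by ring
          _ ≤ (1 + ε) * k + 1 * ((u : ℝ) - 1) := by gcongr; linarith
          _ = _ := by ring
      have h7 : (u : ℝ) ≤ ((b : ℝ) - a) + 1 := by
        have h8 : u ≤ b - a + 1 := hu.trans hcard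
        have h9 : (u : ℝ) ≤ ((b - a + 1 : ℕ) : ℝ) := by exact_mod_cast h8
        push_cast [Nat.cast_sub hab] at h9
        exact h9
      push_cast
      linarith
  have hlayer := layer_count A ordinate (r := r) E hmemE
  have hEvol : ∀ u, volume (E u) ≤
      ENNReal.ofReal (T * ((C / k) ^ k * (1 / 2) ^ ((u - 1) / 2) + (C / K) ^ K)) := by
    intro u
    have h1 := h T hTT0 (ku u) (hk0.trans (hku1 u))
      (le_trans (pow_le_pow_right₀ (by norm_num) (hku2 u)) hK2)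
    refine h1.trans (ENNReal.ofReal_le_ofReal ?_)
    apply mul_le_mul_of_nonneg_left _ hT0.le
    rcases le_or_gt (k + (u - 1) / 2) K with h2 | h2
    · have h3 : ku u = k + (u - 1) / 2 := min_eq_left h2
      rw [h3]
      have h4 := pow_shift_le hC hk1 hk2C ((u - 1) / 2)
      have h5 : (0 : ℝ) ≤ (C / K) ^ K := by positivity
      linarith
    · have h3 : ku u = K := min_eq_right h2.le
      rw [h3]
      have h5 : (0 : ℝ) ≤ (C / k) ^ k * (1 / 2) ^ ((u - 1) / 2) := by positivity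
      linarith
  have hsum : ENNReal.ofReal (A.card * r) ≤
      ENNReal.ofReal (∑ u ∈ Finset.Icc 1 A.card,
        T * ((C / k) ^ k * (1 / 2) ^ ((u - 1) / 2) + (C / K) ^ K)) := by
    rw [ENNReal.ofReal_sum_of_nonneg fun u _ => by positivity]
    exact hlayer.trans (Finset.sum_le_sum fun u _ => hEvol u)
  rw [ENNReal.ofReal_le_ofReal_iff (Finset.sum_nonneg fun u _ => by positivity)] at hsum
  have hsum2 : ∑ u ∈ Finset.Icc 1 A.card,
        T * ((C / k) ^ k * (1 / 2) ^ ((u - 1) / 2) + (C / K) ^ K) ≤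
      T * (C / k) ^ k * 4 + A.card * (T * (C / K) ^ K) := by
    have e1 : ∑ u ∈ Finset.Icc 1 A.card,
        T * ((C / k) ^ k * (1 / 2) ^ ((u - 1) / 2) + (C / K) ^ K) =
        T * (C / k) ^ k * ∑ u ∈ Finset.Icc 1 A.card, (1 / 2 : ℝ) ^ ((u - 1) / 2) +
          A.card * (T * (C / K) ^ K) := by
      rw [Finset.mul_sum]
      have : (A.card : ℝ) * (T * (C / K) ^ K) =
          ∑ u ∈ Finset.Icc 1 A.card, T * (C / K) ^ K := by
        rw [Finset.sum_const, Nat.card_Icc, nsmul_eq_mul]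
        simp
      rw [this, ← Finset.sum_add_distrib]
      exact Finset.sum_congr rfl fun u _ => by ring
    rw [e1]
    have := sum_half_pow_le A.card
    gcongr
  have hTsmall : T * (C / K) ^ K ≤ r / 2 := by
    have h1 := hsmall K hK1K
    have h2 : 1 / (κ / 2) * (T * L) * (C / K) ^ K ≤
        1 / (κ / 2) * (2 ^ (K + 1) * (K + 1)) * (C / K) ^ K := by
      gcongr
    have h3 : 1 / (κ / 2) * (T * L) * (C / K) ^ K < 1 := h2.trans_lt h1
    have h4 : T * (C / K) ^ K * L ≤ κ / 2 := by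
      have h5 : 1 / (κ / 2) * (T * L) * (C / K) ^ K =
          (T * (C / K) ^ K * L) / (κ / 2) := by ring
      rw [h5, div_lt_one (by positivity)] at h3
      exact h3.le
    rw [hr, div_div, le_div_iff₀ (by positivity)]
    nlinarith
  have hfin : (A.card : ℝ) * (r / 2) ≤ 4 * (T * (C / k) ^ k) := by
    have h1 := hsum.trans hsum2
    have h2 : (A.card : ℝ) * (T * (C / K) ^ K) ≤ A.card * (r / 2) := by gcongr
    linarith
  have h3 : (A.card : ℝ) ≤ 8 * (T * (C / k) ^ k) / r := by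
    rw [le_div_iff₀ hr0]; linarith
  refine h3.trans ?_
  rw [hr, div_div_eq_mul_div, div_le_iff₀ (by positivity)]
  have h4 : 8 / κ * (T * L) * (C / k) ^ k * (κ * k) = 8 * (T * (C / k) ^ k) * L * k := by
    field_simp
  rw [h4]
  exact le_mul_of_one_le_right (by positivity) hkr

end Pool.Agent.ZGap
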