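import Pool.Agent.ZGap.ClusterBlock

/-!
# The tail bound for clusters of ordinates
-/

namespace Pool.Agent.ZGap

open MeasureTheory Pool.Agent.Hadamard Pool.Agent.ZetaGaps Finset

/-- No long clusters at all in a dyadic block. -/
theorem cluster_empty {ε C : ℝ} {k0 : ℕ} {T0 : ℝ} (hε : 0 < ε) (hε1 : ε ≤ 1) (hC : 0 < C)
    (h : CluBound ε C k0 T0) :
    ∃ T2 : ℝ, 3 ≤ T2 ∧ ∀ T : ℝ, T2 ≤ T → ∀ m n : ℕ,
      (1 + ε) * (Nat.log 2 ⌊T⌋₊ : ℕ) ≤ m → 1 ≤ n → T ≤ ordinate n →
      ordinate (n + m) ≤ 5 / 2 * T →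
      Real.sqrt (ε / 2) / 16 * m / Real.log T < ordinate (n + m) - ordinate n := by
  obtain ⟨k1, hk1, T1, hT1, hblock⟩ := cluster_block hε hε1 hC h
  have hsq0 : 0 < Real.sqrt (ε / 2) := Real.sqrt_pos.mpr (by positivity)
  obtain ⟨K1, hK1, hsmall⟩ := exists_small (ε := Real.sqrt (ε / 2) / 4 / 8) (C := C)
    (by positivity) hC.le
  refine ⟨max T1 (2 ^ (max k1 K1)), hT1.trans (le_max_left _ _), fun T hT m n hm hn hn1 hn2 => ?_⟩
  by_contra hcon
  push Not at hcon
  have hT1' : T1 ≤ T := (le_max_left _ _).trans hT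
  have hT3 : 3 ≤ T := hT1.trans hT1'
  have hT0 : 0 < T := by linarith
  have hTK1 : (2 : ℝ) ^ (max k1 K1) ≤ T := (le_max_right _ _).trans hT
  obtain ⟨hK2, hK3⟩ := log_floor_bounds (T := T) (by linarith)
  set K := Nat.log 2 ⌊T⌋₊ with hK
  have hkK : max k1 K1 ≤ K := by
    have : (2:ℝ) ^ (max k1 K1) < 2 ^ (K + 1) := hTK1.trans_lt hK3
    have := (pow_lt_pow_iff_right₀ (by norm_num)).mp this
    omega
  have hk1K : k1 ≤ K := (le_max_left _ _).trans hkK
  have hK1K : K1 ≤ K := (le_max_right _ _).trans hkK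
  have hKpos : (0 : ℝ) < K := by exact_mod_cast (by omega : 0 < K)
  set L := Real.log T with hL
  have hL0 : 0 < L := Real.log_pos (by linarith)
  have hLK : L ≤ K + 1 := log_le_of_lt_two_pow hT0 hK3
  set m' := ⌈(1 + ε) * (K : ℝ)⌉₊ with hm'
  have hm'ge : (1 + ε) * (K : ℝ) ≤ m' := Nat.le_ceil _
  have hm'2K : m' ≤ 2 * K := by
    apply Nat.ceil_le.mpr
    push_cast
    nlinarith
  have hm'm : m' ≤ m := Nat.ceil_le.mpr hm
  have hm'pos : 0 < m' := by
    have : (0 : ℝ) < m' := lt_of_lt_of_le (by positivity) hm'ge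
    exact_mod_cast this
  set q := m / m' with hq
  have hq1 : 1 ≤ q := (Nat.one_le_div_iff hm'pos).mpr hm'm
  have hqm : q * m' ≤ m := Nat.div_mul_le_self m m'
  have hmq : m < (q + 1) * m' := by
    have := Nat.lt_mul_of_div_lt (Nat.lt_succ_self (m / m')) hm'pos
    simpa [hq] using this
  have htel : ∑ i ∈ range q, (ordinate (n + (i + 1) * m') - ordinate (n + i * m')) =
      ordinate (n + q * m') - ordinate n := by
    have := Finset.sum_range_sub (fun i => ordinate (n + i * m')) q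
    simpa using this
  have hmono : ordinate (n + q * m') ≤ ordinate (n + m) :=
    ordinate_mono (zeroCount_unbounded _) (by omega) (by omega)
  -- a short sub-cluster
  obtain ⟨i, hi, hi2⟩ : ∃ i ∈ range q, ordinate (n + (i + 1) * m') - ordinate (n + i * m') ≤
      Real.sqrt (ε / 2) / 4 * K / L := by
    by_contra hno
    push Not at hno
    have h1 : ∑ _i ∈ range q, Real.sqrt (ε / 2) / 4 * K / L <
        ∑ i ∈ range q, (ordinate (n + (i + 1) * m') - ordinate (n + i * m')) :=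
      Finset.sum_lt_sum_of_nonempty (Finset.nonempty_range_iff.mpr (by omega)) hno
    rw [htel, Finset.sum_const, Finset.card_range, nsmul_eq_mul] at h1
    have h2 : (q : ℝ) * (Real.sqrt (ε / 2) / 4 * K / L) < Real.sqrt (ε / 2) / 16 * m / L := by
      linarith
    have h3 : (m : ℝ) ≤ 4 * q * K := by
      have h4 : m ≤ 4 * q * K := by
        calc m ≤ (q + 1) * m' := hmq.le
          _ ≤ (q + q) * (2 * K) := by gcongr
          _ = 4 * q * K := by ring
      exact_mod_cast h4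
    have h5 : Real.sqrt (ε / 2) / 16 * m / L ≤ (q : ℝ) * (Real.sqrt (ε / 2) / 4 * K / L) := by
      calc Real.sqrt (ε / 2) / 16 * m / L ≤ Real.sqrt (ε / 2) / 16 * (4 * q * K) / L := by gcongr
        _ = _ := by ring
    linarith
  rw [Finset.mem_range] at hi
  set n' := n + i * m' with hn'
  have hn'm : n + (i + 1) * m' = n' + m' := by rw [hn']; ring
  rw [hn'm] at hi2
  have hle : n' + m' ≤ n + m := by
    rw [hn']
    have : (i + 1) * m' ≤ q * m' := Nat.mul_le_mul_right _ hi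
    nlinarith
  have h1 := hblock T hT1' K hk1K hK2 m' (by linarith) {n'} (by
    intro x hx
    rw [Finset.mem_singleton] at hx
    subst hx
    refine ⟨by omega, ?_, ?_, hi2⟩
    · exact hn1.trans (ordinate_mono (zeroCount_unbounded _) hn (by omega))
    · exact (ordinate_mono (zeroCount_unbounded _) (by omega) (by omega)).trans hn2)
  rw [Finset.card_singleton, Nat.cast_one] at h1
  have h2 := hsmall K hK1K
  have h3 : 8 / (Real.sqrt (ε / 2) / 4) * (T * L) * (C / K) ^ K ≤
      1 / (Real.sqrt (ε / 2) / 4 / 8) * (2 ^ (K + 1) * (K + 1)) * (C / K) ^ K := by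
    have e : 1 / (Real.sqrt (ε / 2) / 4 / 8) = 8 / (Real.sqrt (ε / 2) / 4) := by
      rw [one_div_div]
    rw [e]
    gcongr
  linarith

/-- Linear lower bound for the normalised ordinates. -/
theorem exists_normOrdinate_ge : ∃ c1 : ℝ, 0 < c1 ∧ ∃ C1 : ℝ, 0 < C1 ∧ ∀ n : ℕ, 1 ≤ n →
    c1 * n - C1 ≤ normOrdinate n := by
  obtain ⟨C, hC, h⟩ := zeroCount_add_le
  have hstep : ∀ j : ℕ, (zeroCount (1 + j) : ℝ) ≤
      zeroCount 1 + j * (5 * (Real.log (1 + j) / 2 + C)) := by
    intro j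
    induction j with
    | zero => simp
    | succ j ih =>
      have hj0 : (0 : ℝ) ≤ j := Nat.cast_nonneg j
      have h1 := h (1 + j) 1 (by linarith) zero_le_one
      have h2 : (1 : ℝ) + ((j + 1 : ℕ) : ℝ) = 1 + j + 1 := by push_cast; ring
      rw [h2]
      have h3 : Real.log (1 + j) ≤ Real.log (1 + j + 1) :=
        Real.log_le_log (by linarith) (by linarith)
      have h4 : (j : ℝ) * (5 * (Real.log (1 + j) / 2 + C)) ≤
          j * (5 * (Real.log (1 + j + 1) / 2 + C)) := by gcongr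
      push_cast
      nlinarith
  set M0 : ℝ := zeroCount 1 + 5 * (1 + C) + 1 with hM0
  have hz1 : (0 : ℝ) ≤ zeroCount 1 := Nat.cast_nonneg _
  have hM0pos : 0 < M0 := by positivity
  have hpi := Real.pi_pos
  set c1 : ℝ := 1 / (2 * Real.pi * M0) with hc1
  have hc1pos : 0 < c1 := by positivity
  have hz3 : (0 : ℝ) ≤ zeroCount 3 := Nat.cast_nonneg _
  refine ⟨c1, hc1pos, c1 * zeroCount 3 + 1, by positivity, fun n hn => ?_⟩
  have hex := zeroCount_unbounded n
  have hnle := le_zeroCount_ordinate hex hn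
  have hpos := ordinate_pos hex hn
  set g := ordinate n with hg
  have hnorm : normOrdinate n = g * Real.log g / (2 * Real.pi) := rfl
  rcases le_or_gt 3 g with h3 | h3
  · have hlog : 1 ≤ Real.log g := by
      rw [Real.le_log_iff_exp_le hpos]
      have := Real.exp_one_lt_d9
      linarith
    have hj := hstep ⌈g - 1⌉₊
    have hj1 : g - 1 ≤ (⌈g - 1⌉₊ : ℕ) := Nat.le_ceil _
    have hj2 : ((⌈g - 1⌉₊ : ℕ) : ℝ) < g - 1 + 1 := Nat.ceil_lt_add_one (by linarith)
    have h4 : (zeroCount g : ℝ) ≤ zeroCount (1 + (⌈g - 1⌉₊ : ℕ)) := by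
      exact_mod_cast zeroCount_mono (by linarith : g ≤ 1 + ((⌈g - 1⌉₊ : ℕ) : ℝ))
    have h5 : Real.log (1 + (⌈g - 1⌉₊ : ℕ)) ≤ 2 * Real.log g := by
      have e1 : Real.log (g ^ 2) = 2 * Real.log g := by rw [Real.log_pow]; norm_num
      rw [← e1]
      apply Real.log_le_log (by positivity)
      nlinarith
    have h6 : (zeroCount g : ℝ) ≤ M0 * (g * Real.log g) := by
      have hgl : g ≤ g * Real.log g := le_mul_of_one_le_right hpos.le hlog
      have h7 : (⌈g - 1⌉₊ : ℕ) * (5 * (Real.log (1 + (⌈g - 1⌉₊ : ℕ)) / 2 + C)) ≤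
          g * (5 * ((1 + C) * Real.log g)) := by
        have h8 : Real.log (1 + (⌈g - 1⌉₊ : ℕ)) / 2 + C ≤ (1 + C) * Real.log g := by nlinarith
        have h9 : 0 ≤ Real.log (1 + ((⌈g - 1⌉₊ : ℕ) : ℝ)) := Real.log_nonneg (by linarith)
        have h10 : ((⌈g - 1⌉₊ : ℕ) : ℝ) ≤ g := by linarith
        gcongr
      have h11 : (zeroCount 1 : ℝ) ≤ zeroCount 1 * (g * Real.log g) :=
        le_mul_of_one_le_right hz1 (by nlinarith)
      rw [hM0]
      nlinarith
    have h7 : (n : ℝ) ≤ zeroCount g := by exact_mod_cast hnle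
    rw [hnorm]
    have h8 : c1 * n ≤ g * Real.log g / (2 * Real.pi) := by
      rw [hc1, div_mul_eq_mul_div, one_mul, div_le_div_iff₀ (by positivity) (by positivity)]
      calc (n : ℝ) * (2 * Real.pi) ≤ (M0 * (g * Real.log g)) * (2 * Real.pi) := by
            gcongr
            exact h7.trans h6
        _ = _ := by ring
    have : 0 ≤ c1 * zeroCount 3 := by positivity
    linarith
  · have h4 : (n : ℝ) ≤ zeroCount 3 := by
      exact_mod_cast hnle.trans (zeroCount_mono h3.le)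
    have h5 : -1 ≤ g * Real.log g := by
      have h6 := Real.one_sub_inv_le_log_of_pos hpos
      have h7 : g * (1 - g⁻¹) ≤ g * Real.log g := by gcongr
      have h8 : g * (1 - g⁻¹) = g - 1 := by field_simp
      linarith
    have h6 : -1 ≤ g * Real.log g / (2 * Real.pi) := by
      rw [le_div_iff₀ (by positivity)]
      nlinarith [Real.pi_gt_three]
    rw [hnorm]
    have : c1 * n ≤ c1 * zeroCount 3 := by gcongr
    linarith

/-- Generic dyadic summation. -/
theorem dyadic_sum {c T0' : ℝ} (hc : 0 < c) (hL : CountLower c T0') {T3 M q : ℝ} (hT43 : 4 ≤ T3)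
    (hT03 : 2 * T0' ≤ T3) (hM : 0 ≤ M) (hq : 0 ≤ q) (N : ℕ) (B : Finset ℕ)
    (hB : ∀ n ∈ B, 1 ≤ n ∧ n ≤ N ∧ T3 ≤ ordinate n)
    (hblock : ∀ T : ℝ, T3 ≤ T →
      ((B.filter (fun n => T ≤ ordinate n ∧ ordinate n < 2 * T)).card : ℝ) ≤
        M * (T * Real.log T) * q) :
    (B.card : ℝ) ≤ 8 * M / c * N * q := by
  classical
  have hT3pos : 0 < T3 := by linarith
  rcases B.eq_empty_or_nonempty with hemp | ⟨n0, hn0⟩
  · rw [hemp, Finset.card_empty, Nat.cast_zero]; positivity
  have hn0' := hB n0 hn0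
  have hN1 : 1 ≤ N := by omega
  set g := ordinate N with hg
  have hgmono : ∀ n ∈ B, ordinate n ≤ g := by
    intro n hn
    have := hB n hn
    exact ordinate_mono (zeroCount_unbounded N) this.1 this.2.1
  have hgT3 : T3 ≤ g := hn0'.2.2.trans (hgmono n0 hn0)
  have hgpos : 0 < g := by linarith
  have hexJ : ∃ J : ℕ, g < T3 * 2 ^ J := by
    obtain ⟨J, hJ⟩ := pow_unbounded_of_one_lt (g / T3) (show (1:ℝ) < 2 by norm_num)
    refine ⟨J, ?_⟩
    rw [div_lt_iff₀ hT3pos] at hJ
    linarith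
  set J := Nat.find hexJ with hJ
  have hJspec : g < T3 * 2 ^ J := Nat.find_spec hexJ
  have hJmin : ∀ j < J, T3 * 2 ^ j ≤ g := fun j hj => not_lt.mp (Nat.find_min hexJ hj)
  set Bj : ℕ → Finset ℕ := fun j =>
    B.filter (fun n => T3 * 2 ^ j ≤ ordinate n ∧ ordinate n < 2 * (T3 * 2 ^ j)) with hBj
  have hcover : B ⊆ (Finset.range J).biUnion Bj := by
    intro n hn
    have h1 := (hB n hn).2.2
    have h2 := hgmono n hn
    have hex : ∃ j : ℕ, ordinate n < T3 * 2 ^ j := ⟨J, lt_of_le_of_lt h2 hJspec⟩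
    set i := Nat.find hex with hi
    have hi1 : ordinate n < T3 * 2 ^ i := Nat.find_spec hex
    have hi0 : i ≠ 0 := by
      intro h0
      rw [h0] at hi1
      simp at hi1
      linarith
    obtain ⟨j, hj⟩ := Nat.exists_eq_succ_of_ne_zero hi0
    have hj1 : T3 * 2 ^ j ≤ ordinate n := not_lt.mp (Nat.find_min hex (by omega))
    have hiJ : i ≤ J := Nat.find_min' hex (lt_of_le_of_lt h2 hJspec)
    rw [Finset.mem_biUnion]
    refine ⟨j, Finset.mem_range.mpr (by omega), ?_⟩
    rw [hBj, Finset.mem_filter]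
    refine ⟨hn, hj1, ?_⟩
    rw [hj, Nat.succ_eq_add_one, pow_succ] at hi1
    linarith
  have hlogg : 0 ≤ Real.log g := Real.log_nonneg (by linarith)
  have hBjcard : ∀ j ∈ Finset.range J, ((Bj j).card : ℝ) ≤
      M * (T3 * 2 ^ j * Real.log g) * q := by
    intro j hj
    rw [Finset.mem_range] at hj
    have hTj := hJmin j hj
    have hTge : T3 ≤ T3 * 2 ^ j := by
      have : (1:ℝ) ≤ 2 ^ j := one_le_pow₀ (by norm_num)
      nlinarith
    refine (hblock (T3 * 2 ^ j) hTge).trans ?_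
    apply mul_le_mul_of_nonneg_right _ hq
    apply mul_le_mul_of_nonneg_left _ hM
    apply mul_le_mul_of_nonneg_left _ (by positivity)
    exact Real.log_le_log (by positivity) hTj
  have hcard : (B.card : ℝ) ≤ ∑ j ∈ Finset.range J, ((Bj j).card : ℝ) := by
    calc (B.card : ℝ) ≤ (((Finset.range J).biUnion Bj).card : ℝ) := by
          exact_mod_cast Finset.card_le_card hcover
      _ ≤ ((∑ j ∈ Finset.range J, (Bj j).card : ℕ) : ℝ) := by
          exact_mod_cast Finset.card_biUnion_le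
      _ = _ := by push_cast; rfl
  have hgeom : ∑ j ∈ Finset.range J, (T3 * 2 ^ j) ≤ 2 * g := by
    rw [← Finset.mul_sum, geom_sum_eq (by norm_num)]
    rcases Nat.eq_zero_or_pos J with h0 | h0
    · rw [h0]; simp; linarith
    · have h1 := hJmin (J - 1) (by omega)
      have h2 : (2:ℝ) ^ J = 2 * 2 ^ (J - 1) := by
        rw [← pow_succ']; congr 1; omega
      rw [h2]
      nlinarith
  have hsum : (B.card : ℝ) ≤ M * (2 * g * Real.log g) * q := by
    refine hcard.trans ((Finset.sum_le_sum hBjcard).trans ?_)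
    have : ∑ j ∈ Finset.range J, M * (T3 * 2 ^ j * Real.log g) * q =
        (M * Real.log g * q) * ∑ j ∈ Finset.range J, (T3 * 2 ^ j) := by
      rw [Finset.mul_sum]
      exact Finset.sum_congr rfl fun j _ => by ring
    rw [this]
    calc (M * Real.log g * q) * ∑ j ∈ Finset.range J, (T3 * 2 ^ j)
        ≤ (M * Real.log g * q) * (2 * g) :=
          mul_le_mul_of_nonneg_left hgeom (by positivity)
      _ = _ := by ring
  have hNg := ordinate_mul_log_le hc hL hN1 (by linarith : 4 ≤ ordinate N) (by linarith)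
  rw [← hg] at hNg
  calc (B.card : ℝ) ≤ M * (2 * g * Real.log g) * q := hsum
    _ = 2 * M * (g * Real.log g) * q := by ring
    _ ≤ 2 * M * (4 / c * N) * q := by
        apply mul_le_mul_of_nonneg_right _ hq
        exact mul_le_mul_of_nonneg_left hNg (by positivity)
    _ = _ := by ring

end Pool.Agent.ZGap
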