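import Pool.Agent.ZGap.Gen.Eval

/-!
# Measure of the set of heights with a large cluster of zeros (under RH)
-/

namespace Pool.Agent.ZGap

open MeasureTheory Real Set ArithmeticFunction Pool.Agent.Hadamard Pool.Agent.DirPoly

open Gen in
/-- Fejer kernel data. -/
def fejerData : PhiData where
  f0 := fun v => 1 - v
  f1 := fun _ => -1
  f2 := fun _ => 0
  c0 := by fun_prop
  c1 := by fun_prop
  c2 := by fun_prop
  d0 := fun v => by simpa using (hasDerivAt_id v).const_sub 1
  d1 := fun v => hasDerivAt_const v (-1)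
  one := by norm_num
  b0 := fun v h0 h1 => by rw [abs_of_nonneg (by linarith)]; linarith
  b1 := fun v _ _ => by norm_num
  b2 := fun v _ _ => by norm_num

lemma fejer_closed {D x : ℝ} (hD : 0 < D) (hx : x ≠ 0) :
    Gen.FF fejerData D x = (1 - Real.cos (D * x)) / (D * x ^ 2) := by
  have hder : ∀ η ∈ Set.uIcc (0:ℝ) D, HasDerivAt
      (fun η : ℝ => (1 - η / D) * Real.sin (x * η) / x - Real.cos (x * η) / (D * x ^ 2))
      ((1 - η / D) * Real.cos (x * η)) η := by
    intro η _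
    have h1 : HasDerivAt (fun η : ℝ => x * η) x η := by
      simpa using (hasDerivAt_id η).const_mul x
    have h2 : HasDerivAt (fun η : ℝ => 1 - η / D) (-(1 / D)) η := by
      simpa using ((hasDerivAt_id η).div_const D).const_sub 1
    refine (((h2.mul h1.sin).div_const x).sub (h1.cos.div_const (D * x ^ 2))).congr_deriv ?_
    field_simp
    ring
  have h := intervalIntegral.integral_eq_sub_of_hasDerivAt hder
    (Continuous.intervalIntegrable (by fun_prop) _ _)
  have e1 : Gen.FF fejerData D x = ∫ η in (0:ℝ)..D, (1 - η / D) * Real.cos (x * η) := rfl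
  rw [e1, h]
  have h3 : D / D = 1 := div_self hD.ne'
  simp only [h3, sub_self, zero_mul, zero_div, mul_zero, Real.sin_zero, Real.cos_zero]
  field_simp
  ring_nf

lemma fejer_nonneg {D : ℝ} (hD : 0 < D) (x : ℝ) : 0 ≤ Gen.FF fejerData D x := by
  by_cases hx : x = 0
  · have e1 : Gen.FF fejerData D x = ∫ η in (0:ℝ)..D, (1 - η / D) * Real.cos (x * η) := rfl
    rw [e1, hx]
    apply intervalIntegral.integral_nonneg hD.le
    intro η hη
    have : η / D ≤ 1 := (div_le_one hD).mpr hη.2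
    simp only [zero_mul, Real.cos_zero, mul_one]
    linarith
  · rw [fejer_closed hD hx]
    apply div_nonneg _ (by positivity)
    linarith [Real.cos_le_one (D * x)]

lemma fejer_lower {D x c : ℝ} (hD : 0 < D) (hc : |D * x| ≤ c) (hc2 : c ^ 2 ≤ 2) :
    (1 - c ^ 2 / 2) * (D / 2) ≤ Gen.FF fejerData D x := by
  have e1 : Gen.FF fejerData D x = ∫ η in (0:ℝ)..D, (1 - η / D) * Real.cos (x * η) := rfl
  rw [e1]
  have e2 : (1 - c ^ 2 / 2) * (D / 2) = ∫ η in (0:ℝ)..D, (1 - η / D) * (1 - c ^ 2 / 2) := by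
    rw [intervalIntegral.integral_mul_const]
    have e3 : ∫ η in (0:ℝ)..D, (1 - η / D) = D / 2 := by
      rw [intervalIntegral.integral_sub (by simp) (by
        exact Continuous.intervalIntegrable (by fun_prop) _ _)]
      rw [intervalIntegral.integral_div, integral_id]
      simp
      field_simp
      ring
    rw [e3]; ring
  rw [e2]
  apply intervalIntegral.integral_mono_on hD.le
    (Continuous.intervalIntegrable (by fun_prop) _ _)
    (Continuous.intervalIntegrable (by fun_prop) _ _)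
  intro η hη
  have h1 : η / D ≤ 1 := (div_le_one hD).mpr hη.2
  have h2 : |x * η| ≤ c := by
    refine le_trans ?_ hc
    rw [abs_mul, abs_mul, abs_of_nonneg hη.1, abs_of_pos hD, mul_comm]
    exact mul_le_mul_of_nonneg_right hη.2 (abs_nonneg _)
  have h3 : (x * η) ^ 2 ≤ c ^ 2 := by
    rw [← sq_abs]; gcongr
  have h4 := Real.one_sub_sq_div_two_le_cos (x := x * η)
  exact mul_le_mul_of_nonneg_left (by linarith) (by linarith)

/-- In a window with many zeros the Dirichlet polynomial is large. -/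
theorem exists_vmPoly_large_cluster (hRH : RiemannHypothesis) : ∃ C : ℝ, 0 < C ∧
    ∀ (c D : ℝ) (x : ℕ) (t : ℝ) (A : Finset ntz), 0 ≤ c → c ^ 2 ≤ 2 → 1 / 2 ≤ D →
    Real.exp D ≤ x + 1 → 1 ≤ t → (∀ ρ ∈ A, |D * (t - (ρ : ℂ).im)| ≤ c) →
      (1 - c ^ 2 / 2) * (D / 2) * (∑ ρ ∈ A, (mult ρ : ℝ)) - 1 / 2 * Real.log (t / (2 * π)) -
        C * Real.exp D * (1 + Real.log t) / Real.sqrt t ≤ ‖vmPoly (Gen.bb fejerData D) x t‖ := by
  obtain ⟨C, hC, h⟩ := Gen.exists_explicit hRH
  refine ⟨C, hC, fun c D x t A hc0 hc2 hD hDx ht hz => ?_⟩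
  have hD0 : 0 < D := by linarith
  obtain ⟨S, hS, hSb⟩ := h fejerData D x t hD hDx ht
  have hS0 : (1 - c ^ 2 / 2) * (D / 2) * (∑ ρ ∈ A, (mult ρ : ℝ)) ≤ S := by
    have h1 : ∑ ρ ∈ A, (mult ρ : ℝ) * Gen.FF fejerData D (t - (ρ : ℂ).im) ≤ S := by
      refine sum_le_hasSum A (fun ρ _ => ?_) hS
      exact mul_nonneg (Nat.cast_nonneg _) (fejer_nonneg hD0 _)
    refine le_trans ?_ h1
    rw [Finset.mul_sum]
    refine Finset.sum_le_sum fun ρ hρ => ?_
    rw [mul_comm]
    exact mul_le_mul_of_nonneg_left (fejer_lower hD0 (hz ρ hρ) hc2) (Nat.cast_nonneg _)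
  have h2 := (abs_le.mp hSb).2
  have h3 := Complex.re_le_norm (-(vmPoly (Gen.bb fejerData D) x t))
  rw [norm_neg, Complex.neg_re] at h3
  have h4 : fejerData.f0 0 = 1 := by
    show (1 : ℝ) - 0 = 1
    norm_num
  rw [h4] at h2
  linarith

/-- Under RH, the set of `t ∈ [T, 3T]` whose window of normalised length `≍ √ε k`
contains at least `(1+ε) k` zeros has measure at most `T (C/k)^k`. -/
theorem exists_cluster_measure (hRH : RiemannHypothesis) {ε : ℝ} (hε : 0 < ε) (hε1 : ε ≤ 1) :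
    ∃ (C : ℝ) (k0 : ℕ) (T0 : ℝ), 0 < C ∧ 1 ≤ T0 ∧ 1 ≤ k0 ∧ ∀ T : ℝ, T0 ≤ T → ∀ k : ℕ, k0 ≤ k →
      (2 : ℝ) ^ k ≤ T →
      volume.real {t : ℝ | t ∈ Icc T (3 * T) ∧ ∃ A : Finset ntz,
        (∀ ρ ∈ A, |(ρ : ℂ).im - t| ≤ Real.sqrt (ε / 2) * k / Real.log T) ∧
          (1 + ε) * k ≤ ∑ ρ ∈ A, (mult ρ : ℝ)} ≤ T * (C / k) ^ k := by
  obtain ⟨C1, hC1, hlarge⟩ := exists_vmPoly_large_cluster hRH
  obtain ⟨C2, hC2, hpp⟩ := exists_vmPoly_sub_primePoly_le
  obtain ⟨k1, hk1⟩ := exists_nat_ge (64 * C2 / ε)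
  refine ⟨24 * 1536 / ε ^ 2, max 4 k1, max (Real.exp 8) ((256 * C1 / ε) ^ 4), by positivity,
    ?_, ?_, fun T hT k hk h2k => ?_⟩
  · exact le_max_of_le_left (Real.one_le_exp (by norm_num))
  · omega
  have hT8 : Real.exp 8 ≤ T := (le_max_left _ _).trans hT
  have hTC : (256 * C1 / ε) ^ 4 ≤ T := (le_max_right _ _).trans hT
  have hT1 : 1 ≤ T := (Real.one_le_exp (by norm_num)).trans hT8
  have hT0 : 0 < T := by linarith
  set L := Real.log T with hL
  have hL8 : 8 ≤ L := by rw [hL, Real.le_log_iff_exp_le hT0]; exact hT8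
  have hk4 : 4 ≤ k := (le_max_left _ _).trans hk
  have hkr : (4 : ℝ) ≤ k := by exact_mod_cast hk4
  have hk0 : (0 : ℝ) < k := by linarith
  have hkC : 64 * C2 / ε ≤ k := hk1.trans (by exact_mod_cast (le_max_right _ _).trans hk)
  set D := L / k with hD
  have hD2 : Real.log 2 ≤ D := by
    rw [hD, le_div_iff₀ hk0, mul_comm, ← Real.log_pow]
    exact Real.log_le_log (by positivity) h2k
  have hl2 := Real.log_two_gt_d9
  have hD12 : 1 / 2 ≤ D := by linarith
  have hD0 : 0 < D := by linarith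
  have hexpD : 2 ≤ Real.exp D := by
    rw [← Real.log_le_iff_le_exp (by norm_num)]; exact hD2
  set x := ⌊Real.exp D⌋₊ with hx
  have hx2 : 2 ≤ x := by
    rw [hx]; exact Nat.le_floor (by exact_mod_cast hexpD)
  have hxle : (x : ℝ) ≤ Real.exp D := Nat.floor_le (Real.exp_pos D).le
  have hxlt : Real.exp D ≤ x + 1 := (Nat.lt_floor_add_one _).le
  have hxk : (x : ℝ) ^ k ≤ 3 * T := by
    calc (x : ℝ) ^ k ≤ (Real.exp D) ^ k := by gcongr
      _ = T := by
        rw [← Real.exp_nat_mul, hD, mul_div_cancel₀ _ hk0.ne', hL, Real.exp_log hT0]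
      _ ≤ 3 * T := by linarith
  have hlogx : Real.log x ≤ D := by
    rw [Real.log_le_iff_le_exp (by exact_mod_cast (by omega : 0 < x))]
    exact hxle
  have hlogx0 : 0 ≤ Real.log x := Real.log_natCast_nonneg x
  set V := ε / 8 * L with hV
  have hV0 : 0 < V := by positivity
  have hsq : Real.sqrt (ε / 2) ^ 2 = ε / 2 := Real.sq_sqrt (by positivity)
  have hbb : ∀ n, ‖Gen.bb fejerData D n‖ ≤ 2 := fun n => Gen.norm_bb_le hD0 n
  have hsub : {t : ℝ | t ∈ Icc T (3 * T) ∧ ∃ A : Finset ntz,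
        (∀ ρ ∈ A, |(ρ : ℂ).im - t| ≤ Real.sqrt (ε / 2) * k / L) ∧
          (1 + ε) * k ≤ ∑ ρ ∈ A, (mult ρ : ℝ)} ⊆
      {t : ℝ | |t| ≤ 3 * T ∧ V ≤ ‖primePoly (Gen.bb fejerData D) x t‖} := by
    rintro t ⟨⟨ht1, ht3⟩, A, hA, hcount⟩
    have ht0 : 0 < t := by linarith
    refine ⟨by rw [abs_of_pos ht0]; exact ht3, ?_⟩
    have hz' : ∀ ρ ∈ A, |D * (t - (ρ : ℂ).im)| ≤ Real.sqrt (ε / 2) := by
      intro ρ hρ
      have h2 := hA ρ hρ
      rw [abs_sub_comm] at h2
      rw [abs_mul, abs_of_pos hD0]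
      calc D * |t - (ρ : ℂ).im| ≤ D * (Real.sqrt (ε / 2) * k / L) := by gcongr
        _ = Real.sqrt (ε / 2) := by
            rw [hD]
            field_simp
    have h4 := hlarge (Real.sqrt (ε / 2)) D x t A (Real.sqrt_nonneg _) (by rw [hsq]; linarith)
      hD12 hxlt (by linarith) hz'
    rw [hsq] at h4
    have h5 := hpp x 2 (Gen.bb fejerData D) t hx2 hbb
    have h6 : ‖vmPoly (Gen.bb fejerData D) x t‖ ≤
        ‖primePoly (Gen.bb fejerData D) x t‖ + C2 * 2 * Real.log x := by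
      have := norm_sub_norm_le (vmPoly (Gen.bb fejerData D) x t)
        (primePoly (Gen.bb fejerData D) x t)
      linarith
    have h7 : C2 * 2 * Real.log x ≤ ε / 32 * L := by
      have : C2 * 2 * Real.log x ≤ C2 * 2 * (L / k) := by gcongr
      refine this.trans ?_
      rw [div_le_iff₀ hε] at hkC
      rw [← mul_div_assoc, div_le_iff₀ hk0]
      linarith only [mul_le_mul_of_nonneg_right hkC (by linarith only [hL8] : 0 ≤ L)]
    have h1t : 0 ≤ Real.log t := Real.log_nonneg (by linarith)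
    have e1 : Real.log t ≤ 2 + L := by
      have : Real.log t ≤ Real.log (3 * T) := Real.log_le_log ht0 ht3
      rw [Real.log_mul (by norm_num) hT0.ne'] at this
      have h3 : Real.log 3 ≤ 2 := by
        have := Real.log_le_sub_one_of_pos (x := 3) (by norm_num); linarith
      linarith
    have h8 : 1 / 2 * Real.log (t / (2 * π)) ≤ 1 / 2 * L := by
      have h9 : Real.log (t / (2 * π)) ≤ L := by
        rw [hL]
        apply Real.log_le_log (by positivity)
        rw [div_le_iff₀ (by positivity)]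
        have := Real.pi_gt_three
        linarith only [ht3, mul_lt_mul_of_pos_right this hT0, hT0]
      linarith
    have h9 : C1 * Real.exp D * (1 + Real.log t) / Real.sqrt t ≤ ε / 64 * L := by
      have e2 : 1 + Real.log t ≤ 4 * L := by linarith
      have e3 : Real.exp D ≤ Real.exp (L / 4) := by
        apply Real.exp_le_exp.mpr
        rw [hD]
        gcongr
      have e4 : Real.sqrt T = Real.exp (L / 2) := by
        rw [Real.sqrt_eq_iff_mul_self_eq hT0.le (Real.exp_pos _).le, ← Real.exp_add]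
        rw [add_halves, hL, Real.exp_log hT0]
      have e5 : Real.sqrt T ≤ Real.sqrt t := Real.sqrt_le_sqrt ht1
      have e6 : 0 < Real.sqrt T := Real.sqrt_pos.mpr hT0
      have e7 : 256 * C1 / ε ≤ Real.exp (L / 4) := by
        have e8 : Real.exp (L / 4) ^ 4 = T := by
          rw [← Real.exp_nat_mul]
          push_cast
          rw [mul_div_cancel₀ _ (by norm_num : (4:ℝ) ≠ 0), hL, Real.exp_log hT0]
        rw [← e8] at hTC
        exact le_of_pow_le_pow_left₀ (by norm_num) (Real.exp_pos _).le hTC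
      calc C1 * Real.exp D * (1 + Real.log t) / Real.sqrt t
          ≤ C1 * Real.exp (L / 4) * (4 * L) / Real.exp (L / 2) := by
            rw [← e4]
            gcongr
        _ = 4 * C1 * L / Real.exp (L / 4) := by
            have : Real.exp (L / 2) = Real.exp (L / 4) * Real.exp (L / 4) := by
              rw [← Real.exp_add]; congr 1; ring
            rw [this]
            have hne := (Real.exp_pos (L / 4)).ne'
            field_simp
        _ ≤ ε / 64 * L := by
            rw [div_le_iff₀ (Real.exp_pos _)]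
            rw [div_le_iff₀ hε] at e7
            linarith only [mul_le_mul_of_nonneg_right e7 (by linarith only [hL8] : 0 ≤ L)]
    have h10 : (1 - ε / 2 / 2) * (D / 2) * ((1 + ε) * k) ≤
        (1 - ε / 2 / 2) * (D / 2) * ∑ ρ ∈ A, (mult ρ : ℝ) := by
      apply mul_le_mul_of_nonneg_left hcount
      apply mul_nonneg (by linarith) (by linarith)
    have h11 : (1 - ε / 2 / 2) * (D / 2) * ((1 + ε) * k) = (1 - ε / 4) * (1 + ε) * (L / 2) := by
      rw [hD]
      field_simp
      ring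
    have h12 : 1 + ε / 2 ≤ (1 - ε / 4) * (1 + ε) := by nlinarith only [hε, hε1]
    have h13 : (1 + ε / 2) * (L / 2) ≤ (1 - ε / 4) * (1 + ε) * (L / 2) := by gcongr
    rw [hV]
    linarith only [h4, h6, h7, h8, h9, h10, h11, h13, mul_pos hε (by linarith only [hL8] : 0 < L)]
  have hfin : volume {t : ℝ | |t| ≤ 3 * T ∧ V ≤ ‖primePoly (Gen.bb fejerData D) x t‖} ≠ ⊤ := by
    refine ne_top_of_le_ne_top ?_ (measure_mono (t := Set.Icc (-(3 * T)) (3 * T)) ?_)
    · rw [Real.volume_Icc]; exact ENNReal.ofReal_ne_top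
    · intro t ht
      exact abs_le.mp ht.1
  have h3 := primePoly_large (k := k) (x := x) (T := 3 * T) (B := 2) (V := V) (by positivity) hV0
    hx2 hxk (Gen.bb fejerData D) hbb
  refine ((measureReal_mono hsub hfin).trans h3).trans ?_
  have hfact : (k.factorial : ℝ) ≤ (k : ℝ) ^ k := by
    exact_mod_cast Nat.factorial_le_pow k
  have hq : 6 * 2 ^ 2 * Real.log x ^ 2 / V ^ 2 ≤ 1536 / (ε ^ 2 * k ^ 2) := by
    rw [hV, div_le_div_iff₀ (by positivity) (by positivity)]
    have e1 : Real.log x ^ 2 ≤ (L / k) ^ 2 := by gcongr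
    calc 6 * 2 ^ 2 * Real.log x ^ 2 * (ε ^ 2 * k ^ 2) ≤
        6 * 2 ^ 2 * (L / k) ^ 2 * (ε ^ 2 * k ^ 2) := by gcongr
      _ = 1536 * (ε / 8 * L) ^ 2 := by field_simp; ring
  calc 8 * (3 * T) * (k.factorial * (6 * 2 ^ 2 * Real.log x ^ 2 / V ^ 2) ^ k)
      ≤ 8 * (3 * T) * ((k : ℝ) ^ k * (1536 / (ε ^ 2 * k ^ 2)) ^ k) := by gcongr
    _ = T * (24 * (1536 / ε ^ 2 / k) ^ k) := by
        rw [← mul_pow]
        have : (k : ℝ) * (1536 / (ε ^ 2 * k ^ 2)) = 1536 / ε ^ 2 / k := by
          field_simp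
        rw [this]; ring
    _ ≤ T * (24 ^ k * (1536 / ε ^ 2 / k) ^ k) := by
        gcongr
        exact le_self_pow₀ (by norm_num) (by omega)
    _ = T * (24 * 1536 / ε ^ 2 / k) ^ k := by
        rw [← mul_pow]
        congr 2
        ring

end Pool.Agent.ZGap
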