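import Pool.Agent.ZGap.ClusterFinal

/-!
# The uniform tail bound for clusters
-/

namespace Pool.Agent.ZGap

open MeasureTheory Pool.Agent.Hadamard Pool.Agent.ZetaGaps Finset

/-- The number of `n ≤ N` such that the sum of the `m` consecutive normalised gaps
`δ_n + ... + δ_{n+m-1} = γ~_{n+m} - γ~_n` is at most `σ`. -/
noncomputable def clusterCount (N m : ℕ) (σ : ℝ) : ℕ :=
  {n ∈ Finset.Icc 1 N | normOrdinate (n + m) - normOrdinate n ≤ σ}.card

lemma sub_mul_log_le {a b : ℝ} (ha : 0 < a) (hab : a ≤ b) :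
    (b - a) * Real.log a ≤ b * Real.log b - a * Real.log a := by
  have h1 : Real.log a ≤ Real.log b := Real.log_le_log ha hab
  nlinarith

theorem cluster_tail {ε C : ℝ} {k0 : ℕ} {T0 : ℝ} (hε : 0 < ε) (hε1 : ε < 1 / 4)
    (hC : 0 < C) (hV : CluBound ε C k0 T0) {cL T0' : ℝ} (hcL : 0 < cL) (hL : CountLower cL T0') :
    ∃ c : ℝ, 0 < c ∧ ∃ m0 : ℕ, ∀ m : ℕ, m0 ≤ m → ∀ N : ℕ,
      (clusterCount N m (c * m) : ℝ) ≤ N * Real.exp (-(1 - 4 * ε) * (m * Real.log m)) := by
  have hε1' : ε ≤ 1 := by linarith
  obtain ⟨k1, hk1, T1, hT1, hblock⟩ := cluster_block hε hε1' hC hV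
  obtain ⟨T2, hT2, hempty⟩ := cluster_empty hε hε1' hC hV
  obtain ⟨c1, hc1, C1, hC1, hlow⟩ := exists_normOrdinate_ge
  set κ := Real.sqrt (ε / 2) / 4 with hκ
  have hsq0 : 0 < Real.sqrt (ε / 2) := Real.sqrt_pos.mpr (by positivity)
  have hκ0 : 0 < κ := by positivity
  obtain ⟨s1, hs1, hfinal⟩ := final_ineq hε hε1 hC (M := 8 * (8 / κ) / cL) (by positivity)
  have hpi := Real.pi_pos
  set T3 : ℝ := max (max T1 T2) (max 4 (2 * T0')) with hT3
  have hT13 : T1 ≤ T3 := (le_max_left _ _).trans (le_max_left _ _)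
  have hT23 : T2 ≤ T3 := (le_max_right _ _).trans (le_max_left _ _)
  have hT43 : 4 ≤ T3 := (le_max_left _ _).trans (le_max_right _ _)
  have hT03 : 2 * T0' ≤ T3 := (le_max_right _ _).trans (le_max_right _ _)
  have hT3pos : 0 < T3 := by linarith
  have hlT3 : 0 ≤ Real.log T3 := Real.log_nonneg (by linarith)
  set c := min (κ / (8 * Real.pi)) (c1 / 64) with hc
  have hc0 : 0 < c := lt_min (by positivity) (by positivity)
  have hcκ : c ≤ κ / (8 * Real.pi) := min_le_left _ _
  have hcc1 : c ≤ c1 / 64 := min_le_right _ _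
  obtain ⟨m1, hm1⟩ := exists_nat_ge s1
  obtain ⟨m2, hm2⟩ := exists_nat_ge (4 * C1 / c1)
  obtain ⟨m3, hm3⟩ := exists_nat_ge (2 / c1 * (T3 * Real.log T3))
  refine ⟨c, hc0, max (4 * k1 + 4) (max m1 (max m2 m3)), fun m hm N => ?_⟩
  have hmk : 4 * k1 + 4 ≤ m := (le_max_left _ _).trans hm
  have hmm1 : m1 ≤ m := ((le_max_left _ _).trans (le_max_right _ _)).trans hm
  have hmm2 : m2 ≤ m :=
    ((le_max_left _ _).trans ((le_max_right _ _).trans (le_max_right _ _))).trans hm
  have hmm3 : m3 ≤ m :=
    ((le_max_right _ _).trans ((le_max_right _ _).trans (le_max_right _ _))).trans hm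
  have hs : s1 ≤ (m : ℝ) := hm1.trans (by exact_mod_cast hmm1)
  have hm2' : 4 * C1 / c1 ≤ (m : ℝ) := hm2.trans (by exact_mod_cast hmm2)
  have hm3' : 2 / c1 * (T3 * Real.log T3) ≤ (m : ℝ) := hm3.trans (by exact_mod_cast hmm3)
  have hm4 : (4 : ℝ) ≤ m := by exact_mod_cast (by omega : 4 ≤ m)
  have hmpos : (0 : ℝ) < m := by linarith
  set k := ⌊(m : ℝ) / (1 + 3 * ε)⌋₊ with hk
  have hkle : (1 + 3 * ε) * k ≤ m := by
    have := Nat.floor_le (show 0 ≤ (m : ℝ) / (1 + 3 * ε) by positivity)
    rw [← hk, le_div_iff₀ (by positivity)] at this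
    linarith
  have hkge : (m : ℝ) / 4 ≤ k := by
    have h1 := Nat.lt_floor_add_one ((m : ℝ) / (1 + 3 * ε))
    rw [← hk] at h1
    have h2 : (m : ℝ) / 2 ≤ m / (1 + 3 * ε) := by
      apply div_le_div_of_nonneg_left hmpos.le (by positivity)
      linarith
    linarith
  have hk1k : k1 ≤ k := by
    have h2 : (k1 : ℝ) ≤ k := by
      have h3 : ((4 * k1 + 4 : ℕ) : ℝ) ≤ m := by exact_mod_cast hmk
      push_cast at h3
      linarith
    exact_mod_cast h2
  have hkpos : (0:ℝ) < k := by linarith
  have hεk : (1 + ε) * k ≤ m := by nlinarith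
  set B := {n ∈ Finset.Icc 1 N | normOrdinate (n + m) - normOrdinate n ≤ c * m} with hB
  have hmemB : ∀ n, n ∈ B ↔ (1 ≤ n ∧ n ≤ N) ∧
      normOrdinate (n + m) - normOrdinate n ≤ c * m := by
    intro n; rw [hB, Finset.mem_filter, Finset.mem_Icc]
  -- normalised ordinates are large
  have hbig : ∀ n ∈ B, c1 / 2 * m ≤ normOrdinate n := by
    intro n hn
    rw [hmemB] at hn
    have h1 := hlow (n + m) (by omega)
    push_cast at h1
    have h2 : (0 : ℝ) ≤ c1 * n := by positivity
    have h3 : C1 ≤ c1 / 4 * m := by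
      rw [div_le_iff₀ hc1] at hm2'
      linarith
    have h4 : c * m ≤ c1 / 64 * m := by gcongr
    linarith [hn.2]
  have hBT3 : ∀ n ∈ B, T3 ≤ ordinate n := by
    intro n hn
    by_contra hcon
    push Not at hcon
    have h1 := hbig n hn
    rw [hmemB] at hn
    have hpos := ordinate_pos (zeroCount_unbounded n) hn.1.1
    have h2 : ordinate n * Real.log (ordinate n) ≤ T3 * Real.log T3 := by
      calc ordinate n * Real.log (ordinate n) ≤ ordinate n * Real.log T3 := by
            gcongr
        _ ≤ T3 * Real.log T3 := by gcongr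
    have h3 : normOrdinate n < T3 * Real.log T3 := by
      have h4 : normOrdinate n ≤ T3 * Real.log T3 / (2 * Real.pi) := by
        unfold normOrdinate
        gcongr
      have h5 : 0 < T3 * Real.log T3 := mul_pos hT3pos (Real.log_pos (by linarith))
      have h6 : T3 * Real.log T3 / (2 * Real.pi) < T3 * Real.log T3 := by
        rw [div_lt_iff₀ (by positivity)]
        nlinarith [Real.pi_gt_three]
      linarith
    have h4 : T3 * Real.log T3 ≤ c1 / 2 * m := by
      have h5 : T3 * Real.log T3 = c1 / 2 * (2 / c1 * (T3 * Real.log T3)) := by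
        field_simp
      rw [h5]
      gcongr
    linarith
  -- differences of ordinates
  have hdiff : ∀ T : ℝ, T3 ≤ T → ∀ n ∈ B, T ≤ ordinate n →
      ordinate (n + m) - ordinate n ≤ 2 * Real.pi * c * m / Real.log T := by
    intro T hT n hn hTn
    have hT0 : 0 < T := by linarith
    have hlT : 0 < Real.log T := Real.log_pos (by linarith)
    rw [hmemB] at hn
    have hmono := ordinate_mono (zeroCount_unbounded (n + m)) hn.1.1 (by omega : n ≤ n + m)
    have h1 := sub_mul_log_le (lt_of_lt_of_le hT0 hTn) hmono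
    have h2 := hn.2
    unfold normOrdinate at h2
    rw [← sub_div, div_le_iff₀ (by positivity)] at h2
    rw [le_div_iff₀ hlT]
    have h3 : Real.log T ≤ Real.log (ordinate n) := Real.log_le_log hT0 hTn
    calc (ordinate (n + m) - ordinate n) * Real.log T ≤
        (ordinate (n + m) - ordinate n) * Real.log (ordinate n) := by
          apply mul_le_mul_of_nonneg_left h3
          linarith
      _ ≤ c * m * (2 * Real.pi) := h1.trans h2
      _ = _ := by ring
  have hcκ2 : 2 * Real.pi * c ≤ κ / 4 := by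
    calc 2 * Real.pi * c ≤ 2 * Real.pi * (κ / (8 * Real.pi)) := by gcongr
      _ = κ / 4 := by field_simp; ring
  have hq0 : 0 ≤ (C / (k : ℝ)) ^ k := by positivity
  have hmain := dyadic_sum hcL hL hT43 hT03 (M := 8 / κ) (q := (C / k) ^ k) (by positivity) hq0 N B
    (fun n hn => ⟨((hmemB n).mp hn).1.1, ((hmemB n).mp hn).1.2, hBT3 n hn⟩) (by
    intro T hT
    have hT0 : 0 < T := by linarith
    have hlT : 0 < Real.log T := Real.log_pos (by linarith)
    rcases le_or_gt ((2:ℝ) ^ k) T with h2k | h2k
    · refine hblock T (hT13.trans hT) k hk1k h2k m (by linarith) _ fun n hn => ?_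
      rw [Finset.mem_filter] at hn
      refine ⟨((hmemB n).mp hn.1).1.1, hn.2.1, by linarith [hn.2.2], ?_⟩
      refine (hdiff T hT n hn.1 hn.2.1).trans ?_
      apply div_le_div_of_nonneg_right _ hlT.le
      calc 2 * Real.pi * c * m ≤ κ / 4 * m := by gcongr
        _ = κ * (m / 4) := by ring
        _ ≤ κ * k := by gcongr
    · have h1 : B.filter (fun n => T ≤ ordinate n ∧ ordinate n < 2 * T) = ∅ := by
        rw [Finset.eq_empty_iff_forall_notMem]
        intro n hn
        rw [Finset.mem_filter] at hn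
        have hd := hdiff T hT n hn.1 hn.2.1
        have hb := hbig n hn.1
        have hn1 := ((hmemB n).mp hn.1).1.1
        have hTn := hn.2.1
        have hn2T := hn.2.2
        have hKk : Nat.log 2 ⌊T⌋₊ ≤ k := by
          have h3 := (log_floor_bounds (T := T) (by linarith)).1.trans_lt h2k
          exact ((pow_lt_pow_iff_right₀ (by norm_num)).mp h3).le
        have hKm : (1 + ε) * ((Nat.log 2 ⌊T⌋₊ : ℕ) : ℝ) ≤ m := by
          refine le_trans ?_ hεk
          gcongr
        have hhalf : 2 * Real.pi * c * m / Real.log T ≤ T / 2 := by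
          have h3 : normOrdinate n ≤ 2 * T * Real.log T := by
            have hpos := ordinate_pos (zeroCount_unbounded n) hn1
            have h4 : Real.log (ordinate n) ≤ 2 * Real.log T := by
              have e1 : Real.log (T ^ 2) = 2 * Real.log T := by rw [Real.log_pow]; norm_num
              rw [← e1]
              apply Real.log_le_log hpos
              nlinarith
            have h5 : ordinate n * Real.log (ordinate n) ≤ 2 * T * (2 * Real.log T) := by
              have h6 : 0 ≤ Real.log (ordinate n) := Real.log_nonneg (by linarith)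
              calc _ ≤ 2 * T * Real.log (ordinate n) := by gcongr
                _ ≤ _ := by gcongr
            unfold normOrdinate
            rw [div_le_iff₀ (by positivity)]
            have h7 : 0 < T * Real.log T := by positivity
            nlinarith [Real.pi_gt_three]
          have h4 : (m : ℝ) ≤ 4 / c1 * (T * Real.log T) := by
            rw [div_mul_eq_mul_div, le_div_iff₀ hc1]
            linarith
          rw [div_le_iff₀ hlT]
          calc 2 * Real.pi * c * m ≤ 2 * 4 * (c1 / 64) * m := by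
                gcongr
                have := Real.pi_lt_d2
                linarith
            _ ≤ 2 * 4 * (c1 / 64) * (4 / c1 * (T * Real.log T)) := by gcongr
            _ = T / 2 * Real.log T := by field_simp; ring
        have h5 := hempty T (hT23.trans hT) m n hKm hn1 hTn (by linarith)
        have h6 : 2 * Real.pi * c * m / Real.log T ≤
            Real.sqrt (ε / 2) / 16 * m / Real.log T := by
          apply div_le_div_of_nonneg_right _ hlT.le
          calc 2 * Real.pi * c * m ≤ κ / 4 * m := by gcongr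
            _ = Real.sqrt (ε / 2) / 16 * m := by rw [hκ]; ring
        linarith
      rw [h1, Finset.card_empty, Nat.cast_zero]
      positivity)
  change (B.card : ℝ) ≤ _
  calc (B.card : ℝ) ≤ 8 * (8 / κ) / cL * N * (C / k) ^ k := hmain
    _ = N * (8 * (8 / κ) / cL * (C / k) ^ k) := by ring
    _ ≤ _ := mul_le_mul_of_nonneg_left (hfinal m hs) (Nat.cast_nonneg _)

end Pool.Agent.ZGap
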