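import Pool.Agent.ZGap.Explicit

/-!
# Evaluation of the right-hand side of the explicit formula
-/

namespace Pool.Agent.ZGap

open MeasureTheory Real Set ArithmeticFunction Pool.Agent.Hadamard Pool.Agent.DirPoly

variable {lam : ℝ}

/-- The coefficients of the prime sum. -/
noncomputable def bb (lam D : ℝ) (n : ℕ) : ℂ :=
  ((phi lam (min (Real.log n / D) 1) : ℝ) : ℂ)

lemma norm_bb_le (h0 : 0 ≤ lam) (h1 : lam ≤ 1) {D : ℝ} (hl : 0 < D) (n : ℕ) :
    ‖bb lam D n‖ ≤ 2 := by
  unfold bb
  rw [Complex.norm_real, Real.norm_eq_abs]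
  apply abs_phi_le h0 h1
  · apply le_min _ zero_le_one
    apply div_nonneg (Real.log_natCast_nonneg n) hl.le
  · exact min_le_right _ _

/-- One term of the prime side. -/
lemma term_eq (D t : ℝ) {n : ℕ} (hn : 1 ≤ n) :
    vonMangoldt n * (n : ℝ) ^ (-(3 / 2) : ℝ) *
      (gfun lam D (Real.log n) * Real.cos (t * Real.log n)) =
    ((vonMangoldt n : ℂ) * bb lam D n * (n : ℂ) ^ (-(1 / 2 + t * Complex.I) : ℂ)).re := by
  have hn0 : (0 : ℝ) < n := by exact_mod_cast hn
  have h6 : (n : ℂ) ^ (-(1 / 2 + t * Complex.I) : ℂ) = ((n : ℝ) ^ (-(1 / 2) : ℝ) : ℝ) *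
      Complex.exp ((-(t * Real.log n) : ℝ) * Complex.I) := by
    rw [Complex.cpow_def_of_ne_zero (by exact_mod_cast (by omega : n ≠ 0)), neg_add, mul_add,
      Complex.exp_add, ← Complex.natCast_log]
    congr 1
    · rw [Real.rpow_def_of_pos hn0]
      push_cast
      rfl
    · congr 1
      push_cast
      ring
  have h7 : (vonMangoldt n : ℂ) * bb lam D n * (n : ℂ) ^ (-(1 / 2 + t * Complex.I) : ℂ) =
      ((vonMangoldt n * phi lam (min (Real.log n / D) 1) * (n : ℝ) ^ (-(1 / 2) : ℝ) : ℝ) :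
        ℂ) * Complex.exp ((-(t * Real.log n) : ℝ) * Complex.I) := by
    rw [h6, bb]; push_cast; ring
  rw [h7, Complex.re_ofReal_mul, Complex.exp_ofReal_mul_I_re, Real.cos_neg]
  unfold gfun
  rw [abs_of_nonneg (Real.log_natCast_nonneg n), Real.exp_log hn0]
  have h8 : (n : ℝ) ^ (-(3 / 2) : ℝ) * n = (n : ℝ) ^ (-(1 / 2) : ℝ) := by
    nth_rewrite 2 [← Real.rpow_one (n : ℝ)]
    rw [← Real.rpow_add hn0]
    norm_num
  rw [← h8]
  ring

/-- The prime side of the explicit formula. -/
theorem integral_AA_Zs (h0 : 0 ≤ lam) (h1 : lam ≤ 1) {x : ℕ} {D : ℝ}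
    (hD : 1 / 2 ≤ D) (hDx : Real.exp D ≤ x + 1) (t : ℝ) :
    ∫ u : ℝ, AA lam D u * Zs (t - u) = π * (vmPoly (bb lam D) x t).re := by
  have h2 := hasSum_integral_of_summable_integral_norm (μ := volume)
    (F := fun (n : ℕ) (u : ℝ) => (vonMangoldt n * (n : ℝ) ^ (-(3 / 2) : ℝ)) *
      (AA lam D u * Real.cos ((t - u) * Real.log n))) ?_ ?_
  · have e1 : ∀ n : ℕ, ∫ u : ℝ, (vonMangoldt n * (n : ℝ) ^ (-(3 / 2) : ℝ)) *
        (AA lam D u * Real.cos ((t - u) * Real.log n)) =
        π * (vonMangoldt n * (n : ℝ) ^ (-(3 / 2) : ℝ) *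
          (gfun lam D (Real.log n) * Real.cos (t * Real.log n))) := by
      intro n
      rw [MeasureTheory.integral_const_mul, integral_AA_cos_shift h0 h1 hD]
      ring
    have e2 : ∀ u : ℝ, ∑' n : ℕ, (vonMangoldt n * (n : ℝ) ^ (-(3 / 2) : ℝ)) *
        (AA lam D u * Real.cos ((t - u) * Real.log n)) = AA lam D u * Zs (t - u) := by
      intro u
      rw [Zs, ← (hasSum_zeta_re (t - u)).tsum_eq, ← tsum_mul_left]
      refine tsum_congr fun n => ?_
      ring
    simp_rw [e1, e2] at h2
    have h3 : HasSum (fun n : ℕ => π * (vonMangoldt n * (n : ℝ) ^ (-(3 / 2) : ℝ) *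
          (gfun lam D (Real.log n) * Real.cos (t * Real.log n))))
        (∑ n ∈ Finset.Icc 1 x, π * (vonMangoldt n * (n : ℝ) ^ (-(3 / 2) : ℝ) *
          (gfun lam D (Real.log n) * Real.cos (t * Real.log n)))) := by
      refine hasSum_sum_of_ne_finset_zero fun n hn => ?_
      rw [Finset.mem_Icc, not_and_or] at hn
      rcases hn with hn | hn
      · have : n = 0 := by omega
        rw [this]; simp
      · have h4 : gfun lam D (Real.log n) = 0 := by
          apply gfun_of_le (by linarith)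
          rw [abs_of_nonneg (Real.log_natCast_nonneg n)]
          have h5 : (x : ℝ) + 1 ≤ n := by exact_mod_cast (by omega : x + 1 ≤ n)
          rw [Real.le_log_iff_exp_le (by linarith [(Nat.cast_nonneg x : (0:ℝ) ≤ x)])]
          linarith
        rw [h4]; ring
    rw [h2.unique h3, vmPoly, Complex.re_sum, Finset.mul_sum]
    refine Finset.sum_congr rfl fun n hn => ?_
    rw [← term_eq D t (Finset.mem_Icc.mp hn).1]
  · intro n
    refine Integrable.const_mul ?_ _
    refine (AA_integrable h0 h1 hD).norm.mono' (Continuous.aestronglyMeasurable (by fun_prop))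
      (Filter.Eventually.of_forall fun v => ?_)
    rw [norm_mul, Real.norm_eq_abs, Real.norm_eq_abs]
    exact mul_le_of_le_one_right (abs_nonneg _) (Real.abs_cos_le_one _)
  · have h3 := summable_vM.mul_right (∫ u : ℝ, ‖AA lam D u‖)
    refine Summable.of_nonneg_of_le (fun n => ?_) (fun n => ?_) h3
    · exact integral_nonneg fun u => norm_nonneg _
    · have e3 : ∀ u : ℝ, ‖(vonMangoldt n * (n : ℝ) ^ (-(3 / 2) : ℝ)) *
          (AA lam D u * Real.cos ((t - u) * Real.log n))‖ =
          (vonMangoldt n * (n : ℝ) ^ (-(3 / 2) : ℝ)) *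
            ‖AA lam D u * Real.cos ((t - u) * Real.log n)‖ := by
        intro u
        rw [norm_mul, Real.norm_of_nonneg (vM_term_nonneg n)]
      simp_rw [e3]
      rw [MeasureTheory.integral_const_mul]
      refine mul_le_mul_of_nonneg_left ?_ (vM_term_nonneg n)
      refine integral_mono ?_ (AA_integrable h0 h1 hD).norm fun u => ?_
      · refine Integrable.norm ?_
        refine (AA_integrable h0 h1 hD).norm.mono' (Continuous.aestronglyMeasurable (by fun_prop))
          (Filter.Eventually.of_forall fun v => ?_)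
        rw [norm_mul, Real.norm_eq_abs, Real.norm_eq_abs]
        exact mul_le_of_le_one_right (abs_nonneg _) (Real.abs_cos_le_one _)
      · simp only
        rw [norm_mul, Real.norm_eq_abs (Real.cos _)]
        exact mul_le_of_le_one_right (norm_nonneg _) (Real.abs_cos_le_one _)

lemma weight_integrable : Integrable (fun u : ℝ => Real.sqrt (1 + |u|) / (1 + u ^ 2)) := by
  have h := integrable_rpow_neg_one_add_norm_sq (E := ℝ) (μ := volume) (r := 3 / 2)
    (by norm_num)
  refine (h.const_mul 2).mono' ?_ (Filter.Eventually.of_forall fun u => ?_)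
  · refine Continuous.aestronglyMeasurable ?_
    refine Continuous.div (by fun_prop) (by fun_prop) fun v => ?_
    positivity
  · have ha : 0 < 1 + u ^ 2 := by positivity
    rw [Real.norm_of_nonneg (by positivity), Real.norm_eq_abs, sq_abs]
    have e1 : Real.sqrt (1 + |u|) ≤ 2 * (1 + u ^ 2) ^ (1 / 4 : ℝ) := by
      apply Real.sqrt_le_iff.mpr
      constructor
      · positivity
      · rw [mul_pow, ← Real.rpow_natCast, ← Real.rpow_natCast, ← Real.rpow_mul ha.le]
        norm_num
        have e2 : (1 + u ^ 2) ^ (1 / 2 : ℝ) = Real.sqrt (1 + u ^ 2) := by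
          rw [Real.sqrt_eq_rpow]
        rw [e2]
        have e3 : 1 ≤ Real.sqrt (1 + u ^ 2) := by
          rw [Real.one_le_sqrt]; nlinarith [sq_nonneg u]
        have e4 : |u| ≤ Real.sqrt (1 + u ^ 2) := by
          apply Real.abs_le_sqrt; linarith
        linarith
    rw [div_le_iff₀ ha]
    have e5 : (1 + u ^ 2) ^ (-(3 / 2) / 2 : ℝ) * (1 + u ^ 2) = (1 + u ^ 2) ^ (1 / 4 : ℝ) := by
      nth_rewrite 2 [← Real.rpow_one (1 + u ^ 2)]
      rw [← Real.rpow_add ha]
      norm_num
    rw [mul_assoc, e5]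
    exact e1

/-- **Explicit formula** for the integral. -/
theorem exists_integral_AA_Zr : ∃ C : ℝ, 0 < C ∧ ∀ (lam D : ℝ) (x : ℕ) (t : ℝ),
    0 ≤ lam → lam ≤ 1 → 1 / 2 ≤ D → Real.exp D ≤ x + 1 → 1 ≤ t →
    |(∫ u : ℝ, AA lam D u * Zr (t - u)) -
      (π * lam / 2 * Real.log (t / (2 * π)) - π * (vmPoly (bb lam D) x t).re)| ≤
      C * Real.exp D * (1 + Real.log t) / Real.sqrt t := by
  set C2 := ∫ u : ℝ, Real.sqrt (1 + |u|) / (1 + u ^ 2) with hC2
  have hC20 : 0 ≤ C2 := integral_nonneg fun u => by positivity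
  have hpi := Real.pi_pos
  have hpos1 : 0 < 4 * 284 * (8 * π) := by positivity
  have hpos2 : 0 ≤ 16 * 284 * C2 := mul_nonneg (by norm_num) hC20
  refine ⟨4 * 284 * (8 * π) + 16 * 284 * C2 + 1, by linarith, fun lam D x t h0 h1 hD hDx ht => ?_⟩
  set X := Real.exp D with hexp
  have hX0 : 0 < X := Real.exp_pos D
  have ht0 : 0 < t := by linarith
  have hlt : 0 ≤ Real.log t := Real.log_nonneg ht
  have hst : 0 < Real.sqrt t := Real.sqrt_pos.mpr ht0
  have hAint := AA_integrable h0 h1 hD
  have hAc := AA_continuous lam D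
  -- integrability of the pieces
  have i1 : Integrable (fun u : ℝ => AA lam D u * Zs (t - u)) := by
    refine (hAint.norm.mul_const (∑' n : ℕ, vonMangoldt n * (n : ℝ) ^ (-(3 / 2) : ℝ))).mono' ?_
      (Filter.Eventually.of_forall fun u => ?_)
    · have := Zs_continuous
      exact Continuous.aestronglyMeasurable (by fun_prop)
    · rw [norm_mul, Real.norm_eq_abs (Zs _)]
      gcongr
      exact abs_Zs_le _
  have i2 : Integrable (fun u : ℝ => AA lam D u * QQ (t - u)) := by
    refine ((AA_poisson_integrable h0 h1 hD t).norm.const_mul 4).mono' ?_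
      (Filter.Eventually.of_forall fun u => ?_)
    · exact Continuous.aestronglyMeasurable (by fun_prop)
    · rw [norm_mul, norm_mul, Real.norm_eq_abs (QQ _),
        Real.norm_of_nonneg (by positivity : 0 ≤ 1 / (1 + (t - u) ^ 2))]
      calc _ ≤ ‖AA lam D u‖ * (4 * (1 / (1 + (t - u) ^ 2))) := by
            gcongr
            exact abs_QQ_le _
        _ = _ := by ring
  have hpt : ∀ u : ℝ, |AA lam D u * (Dg (t - u) - Real.log (t / 2))| ≤
      284 * X * (32 * (1 + Real.log t)) / Real.sqrt t * (Real.sqrt (1 + |u|) / (1 + u ^ 2)) := by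
    intro u
    rw [abs_mul]
    have h4 := abs_AA_le (u := u) h0 h1 hD
    have h5 := Dg_diff ht u
    calc _ ≤ (284 * X / (1 + u ^ 2)) *
          (32 * (1 + Real.log t) * Real.sqrt ((1 + |u|) / t)) := by gcongr
      _ = _ := by
          rw [Real.sqrt_div (by positivity)]
          field_simp
  have i3 : Integrable (fun u : ℝ => AA lam D u * (Dg (t - u) - Real.log (t / 2))) := by
    refine (weight_integrable.const_mul
      (284 * X * (32 * (1 + Real.log t)) / Real.sqrt t)).mono' ?_
      (Filter.Eventually.of_forall fun u => ?_)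
    · have := Dg_continuous
      exact Continuous.aestronglyMeasurable (by fun_prop)
    · rw [Real.norm_eq_abs]; exact hpt u
  have e0 : ∀ u : ℝ, AA lam D u * Zr (t - u) =
      (-(AA lam D u * Zs (t - u)) + AA lam D u * QQ (t - u)) +
      ((1 / 2) * (AA lam D u * (Dg (t - u) - Real.log (t / 2))) +
        (Real.log (t / 2) / 2 - Real.log π / 2) * AA lam D u) := by
    intro u
    unfold Zr Zs
    ring
  have hA0 : ∫ u : ℝ, AA lam D u = π * lam := by
    have h4 := (integral_AA_cos_sin h0 h1 hD 0).1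
    simp only [mul_zero, Real.cos_zero, mul_one] at h4
    rw [h4]
    unfold gfun
    rw [abs_zero, zero_div, min_eq_left (by norm_num), phi_zero, Real.exp_zero, mul_one]
  have e1 : ∫ u : ℝ, AA lam D u * Zr (t - u) =
      (-(π * (vmPoly (bb lam D) x t).re) + ∫ u : ℝ, AA lam D u * QQ (t - u)) +
      ((1 / 2) * (∫ u : ℝ, AA lam D u * (Dg (t - u) - Real.log (t / 2))) +
        (Real.log (t / 2) / 2 - Real.log π / 2) * (π * lam)) := by
    simp_rw [e0]
    have j1 : Integrable (fun u : ℝ => -(AA lam D u * Zs (t - u))) := i1.neg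
    have j2 : Integrable (fun u : ℝ => -(AA lam D u * Zs (t - u)) + AA lam D u * QQ (t - u)) :=
      j1.add i2
    have j3 : Integrable (fun u : ℝ =>
        (1 / 2) * (AA lam D u * (Dg (t - u) - Real.log (t / 2)))) := i3.const_mul _
    have j4 : Integrable (fun u : ℝ => (Real.log (t / 2) / 2 - Real.log π / 2) * AA lam D u) :=
      hAint.const_mul _
    have j5 : Integrable (fun u : ℝ =>
        (1 / 2) * (AA lam D u * (Dg (t - u) - Real.log (t / 2))) +
          (Real.log (t / 2) / 2 - Real.log π / 2) * AA lam D u) := j3.add j4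
    rw [integral_add j2 j5, integral_add j1 i2, integral_add j3 j4,
      MeasureTheory.integral_neg, MeasureTheory.integral_const_mul,
      MeasureTheory.integral_const_mul, hA0, integral_AA_Zs h0 h1 hD hDx]
  have e2 : Real.log (t / (2 * π)) = Real.log (t / 2) - Real.log π := by
    rw [← div_div, Real.log_div (by positivity) Real.pi_pos.ne']
  have e3 : (∫ u : ℝ, AA lam D u * Zr (t - u)) -
      (π * lam / 2 * Real.log (t / (2 * π)) - π * (vmPoly (bb lam D) x t).re) =
      (∫ u : ℝ, AA lam D u * QQ (t - u)) +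
      (1 / 2) * (∫ u : ℝ, AA lam D u * (Dg (t - u) - Real.log (t / 2))) := by
    rw [e1, e2]
    ring
  rw [e3]
  have e4 : |∫ u : ℝ, AA lam D u * QQ (t - u)| ≤ 4 * (284 * X * (8 * π) / (4 + t ^ 2)) := by
    have h4 := integral_abs_AA_poisson_le h0 h1 hD t
    calc |∫ u : ℝ, AA lam D u * QQ (t - u)| ≤ ∫ u : ℝ, |AA lam D u * QQ (t - u)| :=
          abs_integral_le_integral_abs
      _ ≤ ∫ u : ℝ, 4 * ‖AA lam D u * (1 / (1 + (t - u) ^ 2))‖ := by
          refine integral_mono i2.abs ((AA_poisson_integrable h0 h1 hD t).norm.const_mul 4)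
            fun u => ?_
          simp only
          rw [abs_mul, norm_mul,
            Real.norm_of_nonneg (by positivity : 0 ≤ 1 / (1 + (t - u) ^ 2)), Real.norm_eq_abs]
          calc _ ≤ |AA lam D u| * (4 * (1 / (1 + (t - u) ^ 2))) := by
                gcongr
                exact abs_QQ_le _
            _ = _ := by ring
      _ ≤ _ := by
          rw [MeasureTheory.integral_const_mul]
          gcongr
  have e5 : |∫ u : ℝ, AA lam D u * (Dg (t - u) - Real.log (t / 2))| ≤
      284 * X * (32 * (1 + Real.log t)) / Real.sqrt t * C2 := by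
    calc _ ≤ ∫ u : ℝ, |AA lam D u * (Dg (t - u) - Real.log (t / 2))| :=
          abs_integral_le_integral_abs
      _ ≤ ∫ u : ℝ, 284 * X * (32 * (1 + Real.log t)) / Real.sqrt t *
            (Real.sqrt (1 + |u|) / (1 + u ^ 2)) :=
          integral_mono i3.abs (weight_integrable.const_mul _) hpt
      _ = _ := by rw [MeasureTheory.integral_const_mul]
  have e6 : (284 * X * (8 * π) / (4 + t ^ 2)) ≤ 284 * (8 * π) * (X * (1 + Real.log t) / Real.sqrt t) := by
    have h5 : Real.sqrt t ≤ 4 + t ^ 2 := by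
      rw [Real.sqrt_le_left (by positivity)]
      nlinarith [sq_nonneg t, mul_pos ht0 ht0]
    calc (284 * X * (8 * π) / (4 + t ^ 2)) ≤ 284 * X * (8 * π) / Real.sqrt t := by gcongr
      _ = 284 * (8 * π) * (X * 1 / Real.sqrt t) := by ring
      _ ≤ _ := by gcongr; linarith
  have hY : 0 ≤ X * (1 + Real.log t) / Real.sqrt t := by positivity
  calc _ ≤ |∫ u : ℝ, AA lam D u * QQ (t - u)| +
        |(1 / 2) * (∫ u : ℝ, AA lam D u * (Dg (t - u) - Real.log (t / 2)))| := abs_add_le _ _
    _ ≤ 4 * (284 * (8 * π) * (X * (1 + Real.log t) / Real.sqrt t)) +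
        (1 / 2) * (284 * X * (32 * (1 + Real.log t)) / Real.sqrt t * C2) := by
        rw [abs_mul, abs_of_pos (by norm_num : (0:ℝ) < 1 / 2)]
        gcongr
        exact e4.trans (by gcongr)
    _ = (4 * 284 * (8 * π) + 16 * 284 * C2) * (X * (1 + Real.log t) / Real.sqrt t) := by ring
    _ ≤ (4 * 284 * (8 * π) + 16 * 284 * C2 + 1) * (X * (1 + Real.log t) / Real.sqrt t) :=
        mul_le_mul_of_nonneg_right (by linarith) hY
    _ = _ := by ring

/-- **Explicit formula** for the test function, under RH. -/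
theorem exists_explicit (hRH : RiemannHypothesis) : ∃ C : ℝ, 0 < C ∧
    ∀ (lam D : ℝ) (x : ℕ) (t : ℝ), 0 ≤ lam → lam ≤ 1 → 1 / 2 ≤ D → Real.exp D ≤ x + 1 → 1 ≤ t →
    ∃ S : ℝ, HasSum (fun ρ : ntz => (mult ρ : ℝ) * FF lam D (t - (ρ : ℂ).im)) S ∧
      |S - (lam / 2 * Real.log (t / (2 * π)) - (vmPoly (bb lam D) x t).re)| ≤
        C * Real.exp D * (1 + Real.log t) / Real.sqrt t := by
  obtain ⟨C, hC, h⟩ := exists_integral_AA_Zr
  refine ⟨C / π, by positivity, fun lam D x t h0 h1 hD hDx ht => ?_⟩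
  have h2 := (hasSum_FF hRH h0 h1 hD t).mul_left (1 / π)
  have hpi := Real.pi_pos
  refine ⟨1 / π * ∫ u : ℝ, AA lam D u * Zr (t - u), ?_, ?_⟩
  · have e0 : (fun ρ : ntz => (mult ρ : ℝ) * FF lam D (t - (ρ : ℂ).im)) =
        fun ρ : ntz => 1 / π * ((mult ρ : ℝ) * (π * FF lam D (t - (ρ : ℂ).im))) := by
      funext ρ
      field_simp
    rw [e0]
    exact h2
  · have h3 := h lam D x t h0 h1 hD hDx ht
    have e1 : 1 / π * (∫ u : ℝ, AA lam D u * Zr (t - u)) -
        (lam / 2 * Real.log (t / (2 * π)) - (vmPoly (bb lam D) x t).re) =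
        1 / π * ((∫ u : ℝ, AA lam D u * Zr (t - u)) -
      (π * lam / 2 * Real.log (t / (2 * π)) - π * (vmPoly (bb lam D) x t).re)) := by
      field_simp
    rw [e1, abs_mul, abs_of_pos (by positivity : 0 < 1 / π)]
    calc _ ≤ 1 / π * (C * Real.exp D * (1 + Real.log t) / Real.sqrt t) := by gcongr
      _ = _ := by ring

end Pool.Agent.ZGap
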