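import Pool.Agent.ZGap.GapMeasure

/-!
# Measure of the set of heights with few zeros in a long window (under RH)
-/

namespace Pool.Agent.ZGap

open MeasureTheory Real Set ArithmeticFunction Pool.Agent.Hadamard Pool.Agent.DirPoly

lemma abs_FF_le {lam D : ℝ} (h0 : 0 ≤ lam) (h1 : lam ≤ 1) (hD : 0 < D) (x : ℝ) :
    |FF lam D x| ≤ 2 * D := by
  unfold FF
  have h := intervalIntegral.norm_integral_le_of_norm_le_const (a := 0) (b := D) (C := 2)
    (f := fun η => phi lam (η / D) * Real.cos (x * η)) (fun η hη => ?_)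
  · rw [sub_zero, abs_of_pos hD] at h
    exact h
  · rw [Set.uIoc_of_le hD.le] at hη
    rw [norm_mul, Real.norm_eq_abs, Real.norm_eq_abs]
    have h2 := abs_phi_le h0 h1 (div_nonneg hη.1.le hD.le) ((div_le_one hD).mpr hη.2)
    have h3 := Real.abs_cos_le_one (x * η)
    calc |phi lam (η / D)| * |Real.cos (x * η)| ≤ 2 * 1 := by gcongr
      _ = 2 := by norm_num

/-- In a window with few zeros the Dirichlet polynomial is large. -/
theorem exists_vmPoly_large_few (hRH : RiemannHypothesis) : ∃ C : ℝ, 0 < C ∧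
    ∀ (lam D : ℝ) (x : ℕ) (t : ℝ) (j : ℕ), 0 < lam → lam ≤ 1 → 1 / 2 ≤ D →
    Real.exp D ≤ x + 1 → 1 ≤ t →
    (∀ F : Finset ntz, (∀ ρ ∈ F, (D * (t - (ρ : ℂ).im)) ^ 2 < π ^ 2 * (1 + 2 * lam)) →
      ∑ ρ ∈ F, mult ρ ≤ j) →
      lam / 2 * Real.log (t / (2 * π)) - C * Real.exp D * (1 + Real.log t) / Real.sqrt t -
        2 * D * j ≤ ‖vmPoly (bb lam D) x t‖ := by
  classical
  obtain ⟨C, hC, h⟩ := exists_explicit hRH
  refine ⟨C, hC, fun lam D x t j h0 h1 hD hDx ht hz => ?_⟩
  have hD0 : 0 < D := by linarith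
  obtain ⟨S, hS, hSb⟩ := h lam D x t h0.le h1 hD hDx ht
  have hS0 : S ≤ 2 * D * j := by
    refine hasSum_le_of_sum_le hS fun F => ?_
    set F' : Finset ntz := F.filter (fun ρ : ntz =>
      (D * (t - (ρ : ℂ).im)) ^ 2 < π ^ 2 * (1 + 2 * lam)) with hF'
    have e1 : ∑ ρ ∈ F, (mult (ρ : ntz) : ℝ) * FF lam D (t - ((ρ : ntz) : ℂ).im) ≤
        ∑ ρ ∈ F', (mult (ρ : ntz) : ℝ) * (2 * D) := by
      rw [hF', Finset.sum_filter]
      refine Finset.sum_le_sum fun ρ _ => ?_
      split_ifs with hc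
      · exact mul_le_mul_of_nonneg_left ((le_abs_self _).trans (abs_FF_le h0.le h1 hD0 _))
          (Nat.cast_nonneg _)
      · exact mul_nonpos_of_nonneg_of_nonpos (Nat.cast_nonneg _)
          (FF_nonpos h0 hD0 (not_lt.mp hc))
    refine e1.trans ?_
    rw [← Finset.sum_mul]
    have e2 := hz F' (fun ρ hρ => (Finset.mem_filter.mp hρ).2)
    have e3 : (∑ ρ ∈ F', (mult (ρ : ntz) : ℝ)) ≤ j := by
      rw [← Nat.cast_sum]
      exact_mod_cast e2
    calc _ ≤ (j : ℝ) * (2 * D) := by gcongr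
      _ = _ := by ring
  have h2 := (abs_le.mp hSb).1
  have h3 := Complex.re_le_norm (vmPoly (bb lam D) x t)
  linarith

/-- **E2, general form.** Under RH, the set of `t ∈ [T, 3T]` whose window of normalised length
`(1+ε) k` contains at most `j` zeros (with multiplicity), where `A (j+1) ≤ k`, has measure at most
`T (C/k)^k`. -/
theorem exists_few_measure (hRH : RiemannHypothesis) {ε : ℝ} (hε : 0 < ε) :
    ∃ (C A : ℝ) (T0 : ℝ), 0 < C ∧ 1 ≤ T0 ∧ 1 ≤ A ∧ ∀ T : ℝ, T0 ≤ T → ∀ j k : ℕ,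
      A * (j + 1) ≤ k → (2 : ℝ) ^ k ≤ T →
      volume.real {t : ℝ | t ∈ Icc T (3 * T) ∧
        ∀ F : Finset ntz, (∀ ρ ∈ F, |(ρ : ℂ).im - t| < π * (1 + ε) * k / Real.log T) →
          ∑ ρ ∈ F, mult ρ ≤ j} ≤ T * (C / k) ^ k := by
  obtain ⟨C1, hC1, hlarge⟩ := exists_vmPoly_large_few hRH
  obtain ⟨C2, hC2, hpp⟩ := exists_vmPoly_sub_primePoly_le
  set lam := min ε 1 with hlam
  have h0 : 0 < lam := lt_min hε one_pos
  have h1 : lam ≤ 1 := min_le_right _ _
  have hle : lam ≤ ε := min_le_left _ _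
  refine ⟨24 * 1536 / lam ^ 2, max 4 (32 * (C2 + 1) / lam),
    max (Real.exp 8) ((64 * C1 / lam) ^ 4), by positivity,
    ?_, ?_, fun T hT j k hjk h2k => ?_⟩
  · exact le_max_of_le_left (Real.one_le_exp (by norm_num))
  · exact le_max_of_le_left (by norm_num)
  have hj1 : (1 : ℝ) ≤ (j : ℝ) + 1 := by linarith [(Nat.cast_nonneg j : (0:ℝ) ≤ j)]
  have hA0 : (0 : ℝ) ≤ max 4 (32 * (C2 + 1) / lam) := le_max_of_le_left (by norm_num)
  have hT8 : Real.exp 8 ≤ T := (le_max_left _ _).trans hT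
  have hTC : (64 * C1 / lam) ^ 4 ≤ T := (le_max_right _ _).trans hT
  have hT1 : 1 ≤ T := (Real.one_le_exp (by norm_num)).trans hT8
  have hT0 : 0 < T := by linarith
  set L := Real.log T with hL
  have hL8 : 8 ≤ L := by rw [hL, Real.le_log_iff_exp_le hT0]; exact hT8
  have hkr : (4 : ℝ) ≤ k := by
    calc (4 : ℝ) ≤ max 4 (32 * (C2 + 1) / lam) * 1 := by rw [mul_one]; exact le_max_left _ _
      _ ≤ max 4 (32 * (C2 + 1) / lam) * (j + 1) := by gcongr
      _ ≤ k := hjk
  have hk4 : 4 ≤ k := by exact_mod_cast hkr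
  have hk0 : (0 : ℝ) < k := by linarith
  have hkCj : 32 * (C2 + 1) / lam * (j + 1) ≤ k := by
    refine le_trans ?_ hjk
    gcongr
    exact le_max_right _ _
  have hkC : 32 * C2 / lam ≤ k := by
    refine le_trans ?_ hkCj
    calc 32 * C2 / lam ≤ 32 * (C2 + 1) / lam * 1 := by
          rw [mul_one]; gcongr; linarith
      _ ≤ _ := by gcongr
  set D := L / k with hD
  have hD2 : Real.log 2 ≤ D := by
    rw [hD, le_div_iff₀ hk0, mul_comm, ← Real.log_pow]
    exact Real.log_le_log (by positivity) h2k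
  have hl2 := Real.log_two_gt_d9
  have hD12 : 1 / 2 ≤ D := by linarith
  have hD0 : 0 < D := by linarith
  have hexpD : 2 ≤ Real.exp D := by
    rw [← Real.log_le_iff_le_exp (by norm_num)]; exact hD2
  set x := ⌊Real.exp D⌋₊ with hx
  have hx2 : 2 ≤ x := by
    rw [hx]; exact Nat.le_floor (by exact_mod_cast hexpD)
  have hxle : (x : ℝ) ≤ Real.exp D := Nat.floor_le (Real.exp_pos D).le
  have hxlt : Real.exp D ≤ x + 1 := (Nat.lt_floor_add_one _).le
  have hxk : (x : ℝ) ^ k ≤ 3 * T := by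
    calc (x : ℝ) ^ k ≤ (Real.exp D) ^ k := by gcongr
      _ = T := by
        rw [← Real.exp_nat_mul, hD, mul_div_cancel₀ _ hk0.ne', hL, Real.exp_log hT0]
      _ ≤ 3 * T := by linarith
  have hlogx : Real.log x ≤ D := by
    rw [Real.log_le_iff_le_exp (by exact_mod_cast (by omega : 0 < x))]
    exact hxle
  have hlogx0 : 0 ≤ Real.log x := Real.log_natCast_nonneg x
  set V := lam / 8 * L with hV
  have hV0 : 0 < V := by positivity
  have hsub : {t : ℝ | t ∈ Icc T (3 * T) ∧
        ∀ F : Finset ntz, (∀ ρ ∈ F, |(ρ : ℂ).im - t| < π * (1 + ε) * k / L) →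
          ∑ ρ ∈ F, mult ρ ≤ j} ⊆
      {t : ℝ | |t| ≤ 3 * T ∧ V ≤ ‖primePoly (bb lam D) x t‖} := by
    rintro t ⟨⟨ht1, ht3⟩, hz⟩
    have ht0 : 0 < t := by linarith
    refine ⟨by rw [abs_of_pos ht0]; exact ht3, ?_⟩
    have hz' : ∀ F : Finset ntz,
        (∀ ρ ∈ F, (D * (t - (ρ : ℂ).im)) ^ 2 < π ^ 2 * (1 + 2 * lam)) →
        ∑ ρ ∈ F, mult ρ ≤ j := by
      intro F hF
      refine hz F fun ρ hρ => ?_
      have h2 := hF ρ hρ
      by_contra hcon
      push Not at hcon
      rw [abs_sub_comm] at hcon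
      have h3 : π * (1 + ε) ≤ |D * (t - (ρ : ℂ).im)| := by
        rw [abs_mul, abs_of_pos hD0]
        calc π * (1 + ε) = D * (π * (1 + ε) * k / L) := by
              rw [hD]
              field_simp
          _ ≤ _ := by gcongr
      have h4 : π ^ 2 * (1 + 2 * lam) ≤ (D * (t - (ρ : ℂ).im)) ^ 2 := by
        calc π ^ 2 * (1 + 2 * lam) ≤ π ^ 2 * (1 + ε) ^ 2 := by
              gcongr
              nlinarith
          _ = (π * (1 + ε)) ^ 2 := by ring
          _ ≤ |D * (t - (ρ : ℂ).im)| ^ 2 := by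
              gcongr
          _ = _ := sq_abs _
      linarith
    have h4 := hlarge lam D x t j h0 h1 hD12 hxlt (by linarith) hz'
    have h4j : 2 * D * j ≤ lam / 16 * L := by
      rw [hD, mul_div_assoc', div_mul_eq_mul_div, div_le_iff₀ hk0]
      rw [div_mul_eq_mul_div, div_le_iff₀ h0] at hkCj
      have hj0 : (0 : ℝ) ≤ j := Nat.cast_nonneg j
      have h41 : 32 * (j : ℝ) ≤ k * lam := by nlinarith
      nlinarith
    have h5 := hpp x 2 (bb lam D) t hx2 (fun n => norm_bb_le h0.le h1 hD0 n)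
    have h6 : ‖vmPoly (bb lam D) x t‖ ≤ ‖primePoly (bb lam D) x t‖ + C2 * 2 * Real.log x := by
      have := norm_sub_norm_le (vmPoly (bb lam D) x t) (primePoly (bb lam D) x t)
      linarith
    have h7 : C2 * 2 * Real.log x ≤ lam / 16 * L := by
      have : C2 * 2 * Real.log x ≤ C2 * 2 * (L / k) := by gcongr
      refine this.trans ?_
      rw [div_le_iff₀ h0] at hkC
      rw [← mul_div_assoc, div_le_iff₀ hk0]
      nlinarith
    have h8 : lam / 2 * (3 / 4 * L) ≤ lam / 2 * Real.log (t / (2 * π)) := by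
      have h9 : Real.log (2 * π) ≤ 2 := by
        rw [Real.log_le_iff_le_exp (by positivity)]
        have := Real.pi_lt_d2
        have h10 := Real.exp_one_gt_d9
        have h11 : Real.exp 2 = Real.exp 1 * Real.exp 1 := by rw [← Real.exp_add]; norm_num
        rw [h11]
        nlinarith
      have h12 : L ≤ Real.log t := Real.log_le_log hT0 ht1
      rw [Real.log_div ht0.ne' (by positivity)]
      gcongr
      linarith
    have h9 : C1 * Real.exp D * (1 + Real.log t) / Real.sqrt t ≤ lam / 16 * L := by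
      have e1 : Real.log t ≤ 2 + L := by
        have : Real.log t ≤ Real.log (3 * T) := Real.log_le_log ht0 ht3
        rw [Real.log_mul (by norm_num) hT0.ne'] at this
        have h3 : Real.log 3 ≤ 2 := by
          have := Real.log_le_sub_one_of_pos (x := 3) (by norm_num); linarith
        linarith
      have e2 : 1 + Real.log t ≤ 4 * L := by linarith
      have e3 : Real.exp D ≤ Real.exp (L / 4) := by
        apply Real.exp_le_exp.mpr
        rw [hD]
        gcongr
      have e4 : Real.sqrt T = Real.exp (L / 2) := by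
        rw [Real.sqrt_eq_iff_mul_self_eq hT0.le (Real.exp_pos _).le, ← Real.exp_add]
        rw [add_halves, hL, Real.exp_log hT0]
      have e5 : Real.sqrt T ≤ Real.sqrt t := Real.sqrt_le_sqrt ht1
      have e6 : 0 < Real.sqrt T := Real.sqrt_pos.mpr hT0
      have e7 : 64 * C1 / lam ≤ Real.exp (L / 4) := by
        have e8 : Real.exp (L / 4) ^ 4 = T := by
          rw [← Real.exp_nat_mul]
          push_cast
          rw [mul_div_cancel₀ _ (by norm_num : (4:ℝ) ≠ 0), hL, Real.exp_log hT0]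
        rw [← e8] at hTC
        exact le_of_pow_le_pow_left₀ (by norm_num) (Real.exp_pos _).le hTC
      have h1t : 0 ≤ 1 + Real.log t := by
        have := Real.log_nonneg (x := t) (by linarith)
        linarith
      calc C1 * Real.exp D * (1 + Real.log t) / Real.sqrt t
          ≤ C1 * Real.exp (L / 4) * (4 * L) / Real.exp (L / 2) := by
            rw [← e4]
            gcongr
        _ = 4 * C1 * L / Real.exp (L / 4) := by
            have : Real.exp (L / 2) = Real.exp (L / 4) * Real.exp (L / 4) := by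
              rw [← Real.exp_add]; congr 1; ring
            rw [this]
            have hne := (Real.exp_pos (L / 4)).ne'
            field_simp
        _ ≤ lam / 16 * L := by
            rw [div_le_iff₀ (Real.exp_pos _)]
            rw [div_le_iff₀ h0] at e7
            nlinarith
    rw [hV]
    nlinarith
  have hfin : volume {t : ℝ | |t| ≤ 3 * T ∧ V ≤ ‖primePoly (bb lam D) x t‖} ≠ ⊤ := by
    refine ne_top_of_le_ne_top ?_ (measure_mono (t := Set.Icc (-(3 * T)) (3 * T)) ?_)
    · rw [Real.volume_Icc]; exact ENNReal.ofReal_ne_top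
    · intro t ht
      exact abs_le.mp ht.1
  have h3 := primePoly_large (k := k) (x := x) (T := 3 * T) (B := 2) (V := V) (by positivity) hV0
    hx2 hxk (bb lam D) (fun n => norm_bb_le h0.le h1 hD0 n)
  have h4 : volume.real {t : ℝ | t ∈ Icc T (3 * T) ∧
        ∀ F : Finset ntz, (∀ ρ ∈ F, |(ρ : ℂ).im - t| < π * (1 + ε) * k / L) →
          ∑ ρ ∈ F, mult ρ ≤ j} ≤
      8 * (3 * T) * (k.factorial * (6 * 2 ^ 2 * Real.log x ^ 2 / V ^ 2) ^ k) :=
    (measureReal_mono hsub hfin).trans h3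
  refine h4.trans ?_
  have hfact : (k.factorial : ℝ) ≤ (k : ℝ) ^ k := by
    exact_mod_cast Nat.factorial_le_pow k
  have hq : 6 * 2 ^ 2 * Real.log x ^ 2 / V ^ 2 ≤ 1536 / (lam ^ 2 * k ^ 2) := by
    rw [hV, div_le_div_iff₀ (by positivity) (by positivity)]
    have e1 : Real.log x ^ 2 ≤ (L / k) ^ 2 := by gcongr
    calc 6 * 2 ^ 2 * Real.log x ^ 2 * (lam ^ 2 * k ^ 2) ≤
        6 * 2 ^ 2 * (L / k) ^ 2 * (lam ^ 2 * k ^ 2) := by gcongr
      _ = 1536 * (lam / 8 * L) ^ 2 := by field_simp; ring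
  calc 8 * (3 * T) * (k.factorial * (6 * 2 ^ 2 * Real.log x ^ 2 / V ^ 2) ^ k)
      ≤ 8 * (3 * T) * ((k : ℝ) ^ k * (1536 / (lam ^ 2 * k ^ 2)) ^ k) := by gcongr
    _ = T * (24 * (1536 / lam ^ 2 / k) ^ k) := by
        rw [← mul_pow]
        have : (k : ℝ) * (1536 / (lam ^ 2 * k ^ 2)) = 1536 / lam ^ 2 / k := by
          field_simp
        rw [this]; ring
    _ ≤ T * (24 ^ k * (1536 / lam ^ 2 / k) ^ k) := by
        gcongr
        exact le_self_pow₀ (by norm_num) (by omega)
    _ = T * (24 * 1536 / lam ^ 2 / k) ^ k := by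
        rw [← mul_pow]
        congr 2
        ring

end Pool.Agent.ZGap
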