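import Pool.Agent.ZGap.Eval

/-!
# Measure of the set of heights with a long zero-free window (under RH)
-/

namespace Pool.Agent.ZGap

open MeasureTheory Real Set ArithmeticFunction Pool.Agent.Hadamard Pool.Agent.DirPoly

/-- In a zero-free window the Dirichlet polynomial is large. -/
theorem exists_vmPoly_large (hRH : RiemannHypothesis) : ∃ C : ℝ, 0 < C ∧
    ∀ (lam D : ℝ) (x : ℕ) (t : ℝ), 0 < lam → lam ≤ 1 → 1 / 2 ≤ D → Real.exp D ≤ x + 1 → 1 ≤ t →
    (∀ ρ : ntz, π ^ 2 * (1 + 2 * lam) ≤ (D * (t - (ρ : ℂ).im)) ^ 2) →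
      lam / 2 * Real.log (t / (2 * π)) - C * Real.exp D * (1 + Real.log t) / Real.sqrt t ≤
        ‖vmPoly (bb lam D) x t‖ := by
  obtain ⟨C, hC, h⟩ := exists_explicit hRH
  refine ⟨C, hC, fun lam D x t h0 h1 hD hDx ht hz => ?_⟩
  obtain ⟨S, hS, hSb⟩ := h lam D x t h0.le h1 hD hDx ht
  have hS0 : S ≤ 0 := by
    refine hasSum_le (f := fun ρ : ntz => (mult ρ : ℝ) * FF lam D (t - (ρ : ℂ).im))
      (g := fun _ => (0 : ℝ)) (fun ρ => ?_) hS hasSum_zero
    exact mul_nonpos_of_nonneg_of_nonpos (Nat.cast_nonneg _)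
      (FF_nonpos h0 (by linarith) (hz ρ))
  have h2 := (abs_le.mp hSb).1
  have h3 := Complex.re_le_norm (vmPoly (bb lam D) x t)
  linarith

/-- **E2.** Under RH, the set of `t ∈ [T, 3T]` whose window of normalised length `(1+ε) k`
contains no zero has measure at most `T (C/k)^k`. -/
theorem exists_gap_measure (hRH : RiemannHypothesis) {ε : ℝ} (hε : 0 < ε) :
    ∃ (C : ℝ) (k0 : ℕ) (T0 : ℝ), 0 < C ∧ 1 ≤ T0 ∧ 1 ≤ k0 ∧ ∀ T : ℝ, T0 ≤ T → ∀ k : ℕ, k0 ≤ k →
      (2 : ℝ) ^ k ≤ T →
      volume.real {t : ℝ | t ∈ Icc T (3 * T) ∧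
        ∀ ρ : ntz, π * (1 + ε) * k / Real.log T ≤ |(ρ : ℂ).im - t|} ≤ T * (C / k) ^ k := by
  obtain ⟨C1, hC1, hlarge⟩ := exists_vmPoly_large hRH
  obtain ⟨C2, hC2, hpp⟩ := exists_vmPoly_sub_primePoly_le
  set lam := min ε 1 with hlam
  have h0 : 0 < lam := lt_min hε one_pos
  have h1 : lam ≤ 1 := min_le_right _ _
  have hle : lam ≤ ε := min_le_left _ _
  obtain ⟨k1, hk1⟩ := exists_nat_ge (32 * C2 / lam)
  refine ⟨24 * 384 / lam ^ 2, max 4 k1, max (Real.exp 8) ((64 * C1 / lam) ^ 4), by positivity,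
    ?_, ?_, fun T hT k hk h2k => ?_⟩
  · exact le_max_of_le_left (Real.one_le_exp (by norm_num))
  · omega
  have hT8 : Real.exp 8 ≤ T := (le_max_left _ _).trans hT
  have hTC : (64 * C1 / lam) ^ 4 ≤ T := (le_max_right _ _).trans hT
  have hT1 : 1 ≤ T := (Real.one_le_exp (by norm_num)).trans hT8
  have hT0 : 0 < T := by linarith
  set L := Real.log T with hL
  have hL8 : 8 ≤ L := by rw [hL, Real.le_log_iff_exp_le hT0]; exact hT8
  have hk4 : 4 ≤ k := (le_max_left _ _).trans hk
  have hkr : (4 : ℝ) ≤ k := by exact_mod_cast hk4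
  have hk0 : (0 : ℝ) < k := by linarith
  have hkC : 32 * C2 / lam ≤ k := hk1.trans (by exact_mod_cast (le_max_right _ _).trans hk)
  set D := L / k with hD
  have hD2 : Real.log 2 ≤ D := by
    rw [hD, le_div_iff₀ hk0, mul_comm, ← Real.log_pow]
    exact Real.log_le_log (by positivity) h2k
  have hl2 := Real.log_two_gt_d9
  have hD12 : 1 / 2 ≤ D := by linarith
  have hD0 : 0 < D := by linarith
  have hexpD : 2 ≤ Real.exp D := by
    rw [← Real.log_le_iff_le_exp (by norm_num)]; exact hD2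
  set x := ⌊Real.exp D⌋₊ with hx
  have hx2 : 2 ≤ x := by
    rw [hx]; exact Nat.le_floor (by exact_mod_cast hexpD)
  have hxle : (x : ℝ) ≤ Real.exp D := Nat.floor_le (Real.exp_pos D).le
  have hxlt : Real.exp D ≤ x + 1 := (Nat.lt_floor_add_one _).le
  have hxk : (x : ℝ) ^ k ≤ 3 * T := by
    calc (x : ℝ) ^ k ≤ (Real.exp D) ^ k := by gcongr
      _ = T := by
        rw [← Real.exp_nat_mul, hD, mul_div_cancel₀ _ hk0.ne', hL, Real.exp_log hT0]
      _ ≤ 3 * T := by linarith
  have hlogx : Real.log x ≤ D := by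
    rw [Real.log_le_iff_le_exp (by exact_mod_cast (by omega : 0 < x))]
    exact hxle
  have hlogx0 : 0 ≤ Real.log x := Real.log_natCast_nonneg x
  set V := lam / 4 * L with hV
  have hV0 : 0 < V := by positivity
  have hsub : {t : ℝ | t ∈ Icc T (3 * T) ∧
        ∀ ρ : ntz, π * (1 + ε) * k / L ≤ |(ρ : ℂ).im - t|} ⊆
      {t : ℝ | |t| ≤ 3 * T ∧ V ≤ ‖primePoly (bb lam D) x t‖} := by
    rintro t ⟨⟨ht1, ht3⟩, hz⟩
    have ht0 : 0 < t := by linarith
    refine ⟨by rw [abs_of_pos ht0]; exact ht3, ?_⟩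
    have hz' : ∀ ρ : ntz, π ^ 2 * (1 + 2 * lam) ≤ (D * (t - (ρ : ℂ).im)) ^ 2 := by
      intro ρ
      have h2 := hz ρ
      rw [abs_sub_comm] at h2
      have h3 : π * (1 + ε) ≤ |D * (t - (ρ : ℂ).im)| := by
        rw [abs_mul, abs_of_pos hD0]
        calc π * (1 + ε) = D * (π * (1 + ε) * k / L) := by
              rw [hD]
              field_simp
          _ ≤ _ := by gcongr
      calc π ^ 2 * (1 + 2 * lam) ≤ π ^ 2 * (1 + ε) ^ 2 := by
            gcongr
            nlinarith only [hle, sq_nonneg ε]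
        _ = (π * (1 + ε)) ^ 2 := by ring
        _ ≤ |D * (t - (ρ : ℂ).im)| ^ 2 := by
            gcongr
        _ = _ := sq_abs _
    have h4 := hlarge lam D x t h0 h1 hD12 hxlt (by linarith) hz'
    have h5 := hpp x 2 (bb lam D) t hx2 (fun n => norm_bb_le h0.le h1 hD0 n)
    have h6 : ‖vmPoly (bb lam D) x t‖ ≤ ‖primePoly (bb lam D) x t‖ + C2 * 2 * Real.log x := by
      have := norm_sub_norm_le (vmPoly (bb lam D) x t) (primePoly (bb lam D) x t)
      linarith
    have h7 : C2 * 2 * Real.log x ≤ lam / 16 * L := by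
      have : C2 * 2 * Real.log x ≤ C2 * 2 * (L / k) := by gcongr
      refine this.trans ?_
      rw [div_le_iff₀ h0] at hkC
      rw [← mul_div_assoc, div_le_iff₀ hk0]
      linarith only [mul_le_mul_of_nonneg_right hkC (by linarith only [hL8] : 0 ≤ L)]
    have h8 : lam / 2 * (3 / 4 * L) ≤ lam / 2 * Real.log (t / (2 * π)) := by
      have h9 : Real.log (2 * π) ≤ 2 := by
        rw [Real.log_le_iff_le_exp (by positivity)]
        have := Real.pi_lt_d2
        have h10 := Real.exp_one_gt_d9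
        have h11 : Real.exp 2 = Real.exp 1 * Real.exp 1 := by rw [← Real.exp_add]; norm_num
        rw [h11]
        nlinarith only [this, h10]
      have h12 : L ≤ Real.log t := Real.log_le_log hT0 ht1
      rw [Real.log_div ht0.ne' (by positivity)]
      gcongr
      linarith
    have h9 : C1 * Real.exp D * (1 + Real.log t) / Real.sqrt t ≤ lam / 16 * L := by
      have e1 : Real.log t ≤ 2 + L := by
        have : Real.log t ≤ Real.log (3 * T) := Real.log_le_log ht0 ht3
        rw [Real.log_mul (by norm_num) hT0.ne'] at this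
        have h3 : Real.log 3 ≤ 2 := by
          have := Real.log_le_sub_one_of_pos (x := 3) (by norm_num); linarith
        linarith
      have e2 : 1 + Real.log t ≤ 4 * L := by linarith
      have e3 : Real.exp D ≤ Real.exp (L / 4) := by
        apply Real.exp_le_exp.mpr
        rw [hD]
        gcongr
      have e4 : Real.sqrt T = Real.exp (L / 2) := by
        rw [Real.sqrt_eq_iff_mul_self_eq hT0.le (Real.exp_pos _).le, ← Real.exp_add]
        rw [add_halves, hL, Real.exp_log hT0]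
      have e5 : Real.sqrt T ≤ Real.sqrt t := Real.sqrt_le_sqrt ht1
      have e6 : 0 < Real.sqrt T := Real.sqrt_pos.mpr hT0
      have e7 : 64 * C1 / lam ≤ Real.exp (L / 4) := by
        have e8 : Real.exp (L / 4) ^ 4 = T := by
          rw [← Real.exp_nat_mul]
          push_cast
          rw [mul_div_cancel₀ _ (by norm_num : (4:ℝ) ≠ 0), hL, Real.exp_log hT0]
        rw [← e8] at hTC
        exact le_of_pow_le_pow_left₀ (by norm_num) (Real.exp_pos _).le hTC
      have h1t : 0 ≤ 1 + Real.log t := by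
        have := Real.log_nonneg (x := t) (by linarith)
        linarith
      calc C1 * Real.exp D * (1 + Real.log t) / Real.sqrt t
          ≤ C1 * Real.exp (L / 4) * (4 * L) / Real.exp (L / 2) := by
            rw [← e4]
            gcongr
        _ = 4 * C1 * L / Real.exp (L / 4) := by
            have : Real.exp (L / 2) = Real.exp (L / 4) * Real.exp (L / 4) := by
              rw [← Real.exp_add]; congr 1; ring
            rw [this]
            have hne := (Real.exp_pos (L / 4)).ne'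
            field_simp
        _ ≤ lam / 16 * L := by
            rw [div_le_iff₀ (Real.exp_pos _)]
            rw [div_le_iff₀ h0] at e7
            linarith only [mul_le_mul_of_nonneg_right e7 (by linarith only [hL8] : 0 ≤ L)]
    rw [hV]
    linarith only [h4, h6, h7, h8, h9, mul_pos h0 (by linarith only [hL8] : 0 < L)]
  have hfin : volume {t : ℝ | |t| ≤ 3 * T ∧ V ≤ ‖primePoly (bb lam D) x t‖} ≠ ⊤ := by
    refine ne_top_of_le_ne_top ?_ (measure_mono (t := Set.Icc (-(3 * T)) (3 * T)) ?_)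
    · rw [Real.volume_Icc]; exact ENNReal.ofReal_ne_top
    · intro t ht
      exact abs_le.mp ht.1
  have h3 := primePoly_large (k := k) (x := x) (T := 3 * T) (B := 2) (V := V) (by positivity) hV0
    hx2 hxk (bb lam D) (fun n => norm_bb_le h0.le h1 hD0 n)
  have h4 : volume.real {t : ℝ | t ∈ Icc T (3 * T) ∧
        ∀ ρ : ntz, π * (1 + ε) * k / L ≤ |(ρ : ℂ).im - t|} ≤
      8 * (3 * T) * (k.factorial * (6 * 2 ^ 2 * Real.log x ^ 2 / V ^ 2) ^ k) :=
    (measureReal_mono hsub hfin).trans h3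
  refine h4.trans ?_
  have hfact : (k.factorial : ℝ) ≤ (k : ℝ) ^ k := by
    exact_mod_cast Nat.factorial_le_pow k
  have hq : 6 * 2 ^ 2 * Real.log x ^ 2 / V ^ 2 ≤ 384 / (lam ^ 2 * k ^ 2) := by
    rw [hV, div_le_div_iff₀ (by positivity) (by positivity)]
    have e1 : Real.log x ^ 2 ≤ (L / k) ^ 2 := by gcongr
    calc 6 * 2 ^ 2 * Real.log x ^ 2 * (lam ^ 2 * k ^ 2) ≤
        6 * 2 ^ 2 * (L / k) ^ 2 * (lam ^ 2 * k ^ 2) := by gcongr
      _ = 384 * (lam / 4 * L) ^ 2 := by field_simp; ring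
  calc 8 * (3 * T) * (k.factorial * (6 * 2 ^ 2 * Real.log x ^ 2 / V ^ 2) ^ k)
      ≤ 8 * (3 * T) * ((k : ℝ) ^ k * (384 / (lam ^ 2 * k ^ 2)) ^ k) := by gcongr
    _ = T * (24 * (384 / lam ^ 2 / k) ^ k) := by
        rw [← mul_pow]
        have : (k : ℝ) * (384 / (lam ^ 2 * k ^ 2)) = 384 / lam ^ 2 / k := by
          field_simp
        rw [this]; ring
    _ ≤ T * (24 ^ k * (384 / lam ^ 2 / k) ^ k) := by
        gcongr
        exact le_self_pow₀ (by norm_num) (by omega)
    _ = T * (24 * 384 / lam ^ 2 / k) ^ k := by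
        rw [← mul_pow]
        congr 2
        ring

end Pool.Agent.ZGap
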