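import Mathlib

/-!
# The band-limited test function

`phi lam` is the Fourier side of the test function, `gfun lam D` the Fourier side divided by the
Poisson factor, `AA lam D` its cosine transform.
-/

namespace Pool.Agent.ZGap

open MeasureTheory Real Set intervalIntegral

/-- Fourier side of the test function (on `[0,1]`). -/
noncomputable def phi (lam v : ℝ) : ℝ :=
  lam * ((1 - v) * Real.cos (π * v) + Real.sin (π * v) / π) + Real.sin (π * v) / π

lemma phi_zero (lam : ℝ) : phi lam 0 = lam := by simp [phi]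

lemma phi_one (lam : ℝ) : phi lam 1 = 0 := by simp [phi]

@[fun_prop]
lemma phi_continuous (lam : ℝ) : Continuous (phi lam) := by unfold phi; fun_prop

/-- First derivative of `phi`. -/
noncomputable def phi1 (lam v : ℝ) : ℝ :=
  lam * (-(π * (1 - v) * Real.sin (π * v))) + Real.cos (π * v)

/-- Second derivative of `phi`. -/
noncomputable def phi2 (lam v : ℝ) : ℝ :=
  lam * (π * Real.sin (π * v) - π ^ 2 * (1 - v) * Real.cos (π * v)) - π * Real.sin (π * v)

@[fun_prop]
lemma phi1_continuous (lam : ℝ) : Continuous (phi1 lam) := by unfold phi1; fun_prop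

@[fun_prop]
lemma phi2_continuous (lam : ℝ) : Continuous (phi2 lam) := by unfold phi2; fun_prop

lemma hasDerivAt_cos_pi (v : ℝ) : HasDerivAt (fun v => Real.cos (π * v)) (-(π * Real.sin (π * v))) v := by
  have h : HasDerivAt (fun v : ℝ => π * v) π v := by
    simpa using (hasDerivAt_id v).const_mul π
  have := h.cos
  convert this using 1; ring

lemma hasDerivAt_sin_pi (v : ℝ) : HasDerivAt (fun v => Real.sin (π * v)) (π * Real.cos (π * v)) v := by
  have h : HasDerivAt (fun v : ℝ => π * v) π v := by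
    simpa using (hasDerivAt_id v).const_mul π
  have := h.sin
  convert this using 1; ring

lemma hasDerivAt_one_sub (v : ℝ) : HasDerivAt (fun v : ℝ => 1 - v) (-1) v := by
  simpa using (hasDerivAt_id v).const_sub 1

lemma hasDerivAt_phi (lam v : ℝ) : HasDerivAt (phi lam) (phi1 lam v) v := by
  have hpi := Real.pi_ne_zero
  have h1 := ((hasDerivAt_one_sub v).mul (hasDerivAt_cos_pi v)).add ((hasDerivAt_sin_pi v).div_const π)
  have h2 := (h1.const_mul lam).add ((hasDerivAt_sin_pi v).div_const π)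
  refine h2.congr_deriv ?_
  unfold phi1
  field_simp
  ring

lemma hasDerivAt_phi1 (lam v : ℝ) : HasDerivAt (phi1 lam) (phi2 lam v) v := by
  have h1 := (((hasDerivAt_one_sub v).const_mul π).mul (hasDerivAt_sin_pi v)).neg
  have h2 := (h1.const_mul lam).add (hasDerivAt_cos_pi v)
  refine h2.congr_deriv ?_
  unfold phi2
  ring

variable {lam : ℝ}

lemma abs_phi_le (h0 : 0 ≤ lam) (h1 : lam ≤ 1) {v : ℝ} (hv0 : 0 ≤ v) (hv1 : v ≤ 1) :
    |phi lam v| ≤ 2 := by
  have hpi := Real.pi_gt_three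
  have hc := Real.abs_cos_le_one (π * v)
  have hs := Real.abs_sin_le_one (π * v)
  have e1 : |Real.sin (π * v) / π| ≤ 1 / 3 := by
    rw [abs_div, abs_of_pos Real.pi_pos, div_le_iff₀ Real.pi_pos]
    linarith
  have e2 : |(1 - v) * Real.cos (π * v)| ≤ 1 := by
    rw [abs_mul, abs_of_nonneg (by linarith : 0 ≤ 1 - v)]
    nlinarith [abs_nonneg (Real.cos (π * v))]
  unfold phi
  calc _ ≤ |lam * ((1 - v) * Real.cos (π * v) + Real.sin (π * v) / π)| + |Real.sin (π * v) / π| :=
        abs_add_le _ _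
    _ ≤ 1 * (1 + 1 / 3) + 1 / 3 := by
        rw [abs_mul, abs_of_nonneg h0]
        have e3 := abs_add_le ((1 - v) * Real.cos (π * v)) (Real.sin (π * v) / π)
        gcongr
        linarith
    _ ≤ 2 := by norm_num

lemma abs_phi1_le (h0 : 0 ≤ lam) (h1 : lam ≤ 1) {v : ℝ} (hv0 : 0 ≤ v) (hv1 : v ≤ 1) :
    |phi1 lam v| ≤ 5 := by
  have hpi := Real.pi_gt_three
  have hpi2 := Real.pi_lt_d2
  have hc := Real.abs_cos_le_one (π * v)
  have hs := Real.abs_sin_le_one (π * v)
  have e1 : |-(π * (1 - v) * Real.sin (π * v))| ≤ 4 := by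
    rw [abs_neg, abs_mul, abs_mul, abs_of_pos Real.pi_pos, abs_of_nonneg (by linarith : 0 ≤ 1 - v)]
    calc π * (1 - v) * |Real.sin (π * v)| ≤ 4 * 1 * 1 := by
          gcongr <;> linarith
      _ = 4 := by norm_num
  unfold phi1
  calc _ ≤ |lam * (-(π * (1 - v) * Real.sin (π * v)))| + |Real.cos (π * v)| := abs_add_le _ _
    _ ≤ 1 * 4 + 1 := by
        rw [abs_mul, abs_of_nonneg h0]
        gcongr
    _ = 5 := by norm_num

lemma abs_phi2_le (h0 : 0 ≤ lam) (h1 : lam ≤ 1) {v : ℝ} (hv0 : 0 ≤ v) (hv1 : v ≤ 1) :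
    |phi2 lam v| ≤ 24 := by
  have hpi := Real.pi_gt_three
  have hpi2 : π ≤ 4 := by have := Real.pi_lt_d2; linarith
  have hc := Real.abs_cos_le_one (π * v)
  have hs := Real.abs_sin_le_one (π * v)
  have e0 : |π * Real.sin (π * v)| ≤ 4 := by
    rw [abs_mul, abs_of_pos Real.pi_pos]
    calc π * |Real.sin (π * v)| ≤ 4 * 1 := by gcongr
      _ = 4 := by norm_num
  have e1 : |π ^ 2 * (1 - v) * Real.cos (π * v)| ≤ 16 := by
    rw [abs_mul, abs_mul, abs_of_pos (by positivity), abs_of_nonneg (by linarith : 0 ≤ 1 - v)]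
    calc π ^ 2 * (1 - v) * |Real.cos (π * v)| ≤ 4 ^ 2 * 1 * 1 := by
          gcongr; linarith
      _ = 16 := by norm_num
  unfold phi2
  calc _ ≤ |lam * (π * Real.sin (π * v) - π ^ 2 * (1 - v) * Real.cos (π * v))| +
        |π * Real.sin (π * v)| := abs_sub _ _
    _ ≤ 1 * (4 + 16) + 4 := by
        rw [abs_mul, abs_of_nonneg h0]
        have e3 := abs_sub (π * Real.sin (π * v)) (π ^ 2 * (1 - v) * Real.cos (π * v))
        gcongr
        linarith
    _ = 24 := by norm_num

/-- The Fourier side divided by the Poisson factor. -/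
noncomputable def gfun (lam D ξ : ℝ) : ℝ := phi lam (min (|ξ| / D) 1) * Real.exp |ξ|

@[fun_prop]
lemma gfun_continuous (lam D : ℝ) : Continuous (gfun lam D) := by
  unfold gfun; fun_prop

lemma gfun_of_le {D ξ : ℝ} (hD : 0 < D) (h : D ≤ |ξ|) : gfun lam D ξ = 0 := by
  unfold gfun
  rw [min_eq_right ((one_le_div hD).mpr h), phi_one, zero_mul]

lemma gfun_of_nonneg_le {D ξ : ℝ} (hD : 0 < D) (h0 : 0 ≤ ξ) (h : ξ ≤ D) :
    gfun lam D ξ = phi lam (ξ / D) * Real.exp ξ := by
  unfold gfun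
  rw [abs_of_nonneg h0, min_eq_left ((div_le_one hD).mpr h)]

lemma gfun_neg (D ξ : ℝ) : gfun lam D (-ξ) = gfun lam D ξ := by
  unfold gfun; rw [abs_neg]

lemma gfun_hasCompactSupport {D : ℝ} (hD : 0 < D) : HasCompactSupport (gfun lam D) := by
  refine HasCompactSupport.intro (isCompact_Icc (a := -D) (b := D)) fun ξ hξ => ?_
  apply gfun_of_le hD
  by_contra h
  push Not at h
  exact hξ (abs_le.mp h.le)

lemma gfun_integrable {D : ℝ} (hD : 0 < D) : Integrable (gfun lam D) :=
  (gfun_continuous lam D).integrable_of_hasCompactSupport (gfun_hasCompactSupport hD)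

/-- The cosine transform of `gfun` over `[0, D]`. -/
noncomputable def AA (lam D u : ℝ) : ℝ :=
  ∫ ξ in (0:ℝ)..D, phi lam (ξ / D) * Real.exp ξ * Real.cos (u * ξ)

/-- Derivatives of `ξ ↦ phi (ξ/D) e^ξ`. -/
lemma hasDerivAt_f (D ξ : ℝ) :
    HasDerivAt (fun ξ => phi lam (ξ / D) * Real.exp ξ)
      ((phi1 lam (ξ / D) / D + phi lam (ξ / D)) * Real.exp ξ) ξ := by
  have h1 : HasDerivAt (fun ξ : ℝ => ξ / D) (1 / D) ξ := by
    simpa using (hasDerivAt_id ξ).div_const D
  have h2 := ((hasDerivAt_phi lam (ξ / D)).comp ξ h1).mul (Real.hasDerivAt_exp ξ)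
  refine h2.congr_deriv ?_
  simp only [Function.comp_apply]
  ring

lemma hasDerivAt_f1 {D : ℝ} (hD : 0 < D) (ξ : ℝ) :
    HasDerivAt (fun ξ => (phi1 lam (ξ / D) / D + phi lam (ξ / D)) * Real.exp ξ)
      ((phi2 lam (ξ / D) / D ^ 2 + 2 * phi1 lam (ξ / D) / D + phi lam (ξ / D)) * Real.exp ξ) ξ := by
  have h1 : HasDerivAt (fun ξ : ℝ => ξ / D) (1 / D) ξ := by
    simpa using (hasDerivAt_id ξ).div_const D
  have h2 := ((((hasDerivAt_phi1 lam (ξ / D)).comp ξ h1).div_const D).add
    ((hasDerivAt_phi lam (ξ / D)).comp ξ h1)).mul (Real.hasDerivAt_exp ξ)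
  refine h2.congr_deriv ?_
  simp only [Function.comp_apply, Pi.add_apply]
  field_simp
  ring

lemma AA_eq {D u : ℝ} (hD : 0 < D) (hu : u ≠ 0) :
    AA lam D u = ((phi1 lam 1 / D) * Real.exp D * Real.cos (u * D) -
      (phi1 lam 0 / D + lam)) / u ^ 2 -
      (∫ ξ in (0:ℝ)..D, (phi2 lam (ξ / D) / D ^ 2 + 2 * phi1 lam (ξ / D) / D + phi lam (ξ / D)) *
        Real.exp ξ * Real.cos (u * ξ)) / u ^ 2 := by
  have hder : ∀ ξ ∈ Set.uIcc 0 D, HasDerivAt
      (fun ξ => (phi lam (ξ / D) * Real.exp ξ) * Real.sin (u * ξ) / u +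
        ((phi1 lam (ξ / D) / D + phi lam (ξ / D)) * Real.exp ξ) * Real.cos (u * ξ) / u ^ 2)
      (phi lam (ξ / D) * Real.exp ξ * Real.cos (u * ξ) +
        (phi2 lam (ξ / D) / D ^ 2 + 2 * phi1 lam (ξ / D) / D + phi lam (ξ / D)) *
        Real.exp ξ * Real.cos (u * ξ) / u ^ 2) ξ := by
    intro ξ _
    have h1 : HasDerivAt (fun ξ : ℝ => u * ξ) u ξ := by
      simpa using (hasDerivAt_id ξ).const_mul u
    have h2 := ((hasDerivAt_f (lam := lam) D ξ).mul h1.sin).div_const u
    have h3 := ((hasDerivAt_f1 (lam := lam) hD ξ).mul h1.cos).div_const (u ^ 2)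
    refine (h2.add h3).congr_deriv ?_
    field_simp
    ring
  have hint := intervalIntegral.integral_eq_sub_of_hasDerivAt hder
    (Continuous.intervalIntegrable (by fun_prop) _ _)
  rw [intervalIntegral.integral_add (Continuous.intervalIntegrable (by fun_prop) _ _)
    (Continuous.intervalIntegrable (by fun_prop) _ _), intervalIntegral.integral_div] at hint
  have h4 : D / D = 1 := div_self hD.ne'
  simp only [h4, phi_one, zero_div, phi_zero, mul_zero, Real.sin_zero, Real.exp_zero, Real.cos_zero,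
    zero_mul, add_zero, zero_add, mul_one] at hint
  rw [AA, eq_sub_iff_add_eq, hint]
  ring

lemma integral_exp_zero_le {D : ℝ} : ∫ ξ in (0:ℝ)..D, Real.exp ξ ≤ Real.exp D := by
  rw [integral_exp, Real.exp_zero]; linarith

lemma abs_integral_le_of_exp {D C : ℝ} (hD : 0 < D) (f : ℝ → ℝ) (hC : 0 ≤ C)
    (hf : ∀ ξ, 0 ≤ ξ → ξ ≤ D → |f ξ| ≤ C * Real.exp ξ) :
    |∫ ξ in (0:ℝ)..D, f ξ| ≤ C * Real.exp D := by
  have h1 : |∫ ξ in (0:ℝ)..D, f ξ| ≤ ∫ ξ in (0:ℝ)..D, C * Real.exp ξ := by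
    rw [← Real.norm_eq_abs]
    apply intervalIntegral.norm_integral_le_of_norm_le hD.le
    · refine Filter.Eventually.of_forall fun ξ hξ => ?_
      exact hf ξ hξ.1.le hξ.2
    · exact Continuous.intervalIntegrable (by fun_prop) _ _
  rw [intervalIntegral.integral_const_mul] at h1
  exact h1.trans (mul_le_mul_of_nonneg_left integral_exp_zero_le hC)

lemma abs_AA_le {D u : ℝ} (h0 : 0 ≤ lam) (h1 : lam ≤ 1) (hD : 1 / 2 ≤ D) :
    |AA lam D u| ≤ 284 * Real.exp D / (1 + u ^ 2) := by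
  have hD0 : 0 < D := by linarith
  have hDi : 1 / D ≤ 2 := by
    rw [div_le_iff₀ hD0]; linarith
  have hDi0 : 0 < 1 / D := by positivity
  have hexp : 1 ≤ Real.exp D := Real.one_le_exp hD0.le
  have hexp0 : 0 < Real.exp D := Real.exp_pos D
  have hv : ∀ ξ, 0 ≤ ξ → ξ ≤ D → 0 ≤ ξ / D ∧ ξ / D ≤ 1 := fun ξ h2 h3 =>
    ⟨by positivity, (div_le_one hD0).mpr h3⟩
  have triv : |AA lam D u| ≤ 2 * Real.exp D := by
    unfold AA
    apply abs_integral_le_of_exp hD0 _ (by norm_num)
    intro ξ h2 h3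
    rw [abs_mul, abs_mul, abs_of_pos (Real.exp_pos ξ)]
    have h4 := abs_phi_le h0 h1 (hv ξ h2 h3).1 (hv ξ h2 h3).2
    have h5 := Real.abs_cos_le_one (u * ξ)
    calc _ ≤ 2 * Real.exp ξ * 1 := by gcongr
      _ = _ := by ring
  rcases le_or_gt 1 |u| with hu | hu
  · have hu0 : u ≠ 0 := by
      rintro rfl
      rw [abs_zero] at hu
      linarith
    have hu2 : 1 ≤ u ^ 2 := by
      rw [← sq_abs]; nlinarith
    have hu2' : 0 < u ^ 2 := by linarith
    have h6 : |AA lam D u| ≤ 142 * Real.exp D / u ^ 2 := by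
      rw [AA_eq hD0 hu0, ← sub_div, abs_div, abs_of_pos hu2']
      gcongr
      have e1 : |(phi1 lam 1 / D) * Real.exp D * Real.cos (u * D)| ≤ 10 * Real.exp D := by
        rw [abs_mul, abs_mul, abs_div, abs_of_pos hD0, abs_of_pos hexp0]
        have h4 := abs_phi1_le h0 h1 (zero_le_one) (le_refl 1)
        have h5 := Real.abs_cos_le_one (u * D)
        have h6 : |phi1 lam 1| / D ≤ 10 := by
          rw [div_eq_mul_one_div]
          calc |phi1 lam 1| * (1 / D) ≤ 5 * 2 := by gcongr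
            _ = 10 := by norm_num
        calc _ ≤ 10 * Real.exp D * 1 := by gcongr
          _ = _ := by ring
      have e2 : |phi1 lam 0 / D + lam| ≤ 11 * Real.exp D := by
        have h4 := abs_phi1_le h0 h1 (le_refl 0) (zero_le_one)
        have h6 : |phi1 lam 0| / D ≤ 10 := by
          rw [div_eq_mul_one_div]
          calc |phi1 lam 0| * (1 / D) ≤ 5 * 2 := by gcongr
            _ = 10 := by norm_num
        calc _ ≤ |phi1 lam 0 / D| + |lam| := abs_add_le _ _
          _ ≤ 10 + 1 := by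
            rw [abs_div, abs_of_pos hD0, abs_of_nonneg h0]
            gcongr
          _ ≤ 11 * Real.exp D := by linarith
      have e3 : |∫ ξ in (0:ℝ)..D, (phi2 lam (ξ / D) / D ^ 2 + 2 * phi1 lam (ξ / D) / D +
          phi lam (ξ / D)) * Real.exp ξ * Real.cos (u * ξ)| ≤ 118 * Real.exp D := by
        apply abs_integral_le_of_exp hD0 _ (by norm_num)
        intro ξ h2 h3
        rw [abs_mul, abs_mul, abs_of_pos (Real.exp_pos ξ)]
        have h4 := abs_phi_le h0 h1 (hv ξ h2 h3).1 (hv ξ h2 h3).2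
        have h4' := abs_phi1_le h0 h1 (hv ξ h2 h3).1 (hv ξ h2 h3).2
        have h4'' := abs_phi2_le h0 h1 (hv ξ h2 h3).1 (hv ξ h2 h3).2
        have h5 := Real.abs_cos_le_one (u * ξ)
        have h6 : |phi2 lam (ξ / D) / D ^ 2 + 2 * phi1 lam (ξ / D) / D + phi lam (ξ / D)| ≤ 118 := by
          have e4 : |phi2 lam (ξ / D) / D ^ 2| ≤ 96 := by
            rw [abs_div, abs_of_pos (by positivity : 0 < D ^ 2)]
            calc |phi2 lam (ξ / D)| / D ^ 2 = |phi2 lam (ξ / D)| * (1 / D) ^ 2 := by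
                  rw [div_pow, one_pow, div_eq_mul_one_div]
              _ ≤ 24 * 2 ^ 2 := by gcongr
              _ = 96 := by norm_num
          have e5 : |2 * phi1 lam (ξ / D) / D| ≤ 20 := by
            rw [abs_div, abs_of_pos hD0, abs_mul, abs_of_pos (by norm_num : (0:ℝ) < 2)]
            calc 2 * |phi1 lam (ξ / D)| / D = 2 * |phi1 lam (ξ / D)| * (1 / D) := by
                  rw [div_eq_mul_one_div]
              _ ≤ 2 * 5 * 2 := by gcongr
              _ = 20 := by norm_num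
          have e6 := abs_add_le (phi2 lam (ξ / D) / D ^ 2 + 2 * phi1 lam (ξ / D) / D)
            (phi lam (ξ / D))
          have e7 := abs_add_le (phi2 lam (ξ / D) / D ^ 2) (2 * phi1 lam (ξ / D) / D)
          linarith
        calc _ ≤ 118 * Real.exp ξ * 1 := by gcongr
          _ = _ := by ring
      have e8 := abs_sub ((phi1 lam 1 / D) * Real.exp D * Real.cos (u * D))
        (phi1 lam 0 / D + lam)
      have e9 := abs_sub ((phi1 lam 1 / D) * Real.exp D * Real.cos (u * D) -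
        (phi1 lam 0 / D + lam)) (∫ ξ in (0:ℝ)..D, (phi2 lam (ξ / D) / D ^ 2 +
          2 * phi1 lam (ξ / D) / D + phi lam (ξ / D)) * Real.exp ξ * Real.cos (u * ξ))
      linarith
    refine h6.trans ?_
    rw [div_le_div_iff₀ hu2' (by positivity)]
    nlinarith
  · have hu2 : u ^ 2 ≤ 1 := by
      rw [← sq_abs]; nlinarith [abs_nonneg u]
    refine triv.trans ?_
    rw [le_div_iff₀ (by positivity)]
    nlinarith

end Pool.Agent.ZGap
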