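import Pool.Agent.ZGap.Fourier

/-!
# The test function `FF` : Poisson representation, closed form and sign
-/

namespace Pool.Agent.ZGap

open MeasureTheory Real Set

variable {lam : ℝ}

/-- The (unnormalised) test function. -/
noncomputable def FF (lam D x : ℝ) : ℝ :=
  ∫ η in (0:ℝ)..D, phi lam (η / D) * Real.cos (x * η)

lemma poisson_integral (y : ℝ) :
    ∫ η in Ioi (0:ℝ), Real.exp (-η) * Real.cos (y * η) = 1 / (1 + y ^ 2) := by
  have h1 : (-1 + y * Complex.I : ℂ).re < 0 := by simp
  have h2 := integral_exp_mul_complex_Ioi h1 0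
  have h3 : ∀ η : ℝ, Complex.exp ((-1 + y * Complex.I) * η) =
      Complex.exp (((-η : ℝ) : ℂ) + ((y * η : ℝ) : ℂ) * Complex.I) := by
    intro η; congr 1; push_cast; ring
  have h4 : ∀ η : ℝ, (Complex.exp ((-1 + y * Complex.I) * η)).re =
      Real.exp (-η) * Real.cos (y * η) := by
    intro η
    rw [h3, Complex.exp_re]
    simp
  have h5 : IntegrableOn (fun η : ℝ => Complex.exp ((-1 + y * Complex.I) * η)) (Ioi 0) := by
    exact integrableOn_exp_mul_complex_Ioi h1 0
  have h6 := integral_re (𝕜 := ℂ) h5
  simp only [RCLike.re_eq_complex_re] at h6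
  simp_rw [h4] at h6
  rw [h6, h2]
  simp only [Complex.ofReal_zero, mul_zero, Complex.exp_zero]
  rw [Complex.div_re]
  simp [Complex.normSq_apply]
  field_simp

lemma integrableOn_exp_neg_cos (y : ℝ) :
    IntegrableOn (fun η : ℝ => Real.exp (-η) * Real.cos (y * η)) (Ioi 0) := by
  have h1 : IntegrableOn (fun η : ℝ => Real.exp (-η)) (Ioi 0) := integrableOn_exp_neg_Ioi 0
  refine Integrable.mono' h1 (Continuous.aestronglyMeasurable (by fun_prop))
    (Filter.Eventually.of_forall fun η => ?_)
  rw [norm_mul, Real.norm_eq_abs, Real.norm_eq_abs, abs_of_pos (Real.exp_pos _)]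
  exact mul_le_of_le_one_right (Real.exp_pos _).le (Real.abs_cos_le_one _)

/-- Poisson representation of the test function. -/
theorem integral_AA_poisson {D : ℝ} (h0 : 0 ≤ lam) (h1 : lam ≤ 1) (hD : 1 / 2 ≤ D) (x : ℝ) :
    ∫ u : ℝ, AA lam D u * (1 / (1 + (x - u) ^ 2)) = π * FF lam D x := by
  have hD0 : 0 < D := by linarith
  have e1 : ∀ u : ℝ, AA lam D u * (1 / (1 + (x - u) ^ 2)) =
      ∫ η in Ioi (0:ℝ), AA lam D u * (Real.exp (-η) * Real.cos ((x - u) * η)) := by
    intro u
    rw [MeasureTheory.integral_const_mul, poisson_integral]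
  simp_rw [e1]
  rw [integral_integral_swap]
  · have e2 : ∀ η : ℝ, ∫ u : ℝ, AA lam D u * (Real.exp (-η) * Real.cos ((x - u) * η)) =
        π * (Real.exp (-η) * (gfun lam D η * Real.cos (x * η))) := by
      intro η
      have e3 : ∀ u : ℝ, AA lam D u * (Real.exp (-η) * Real.cos ((x - u) * η)) =
          Real.exp (-η) * (AA lam D u * Real.cos ((x - u) * η)) := by intro u; ring
      simp_rw [e3]
      rw [MeasureTheory.integral_const_mul, integral_AA_cos_shift h0 h1 hD]
      ring
    simp_rw [e2]
    rw [MeasureTheory.integral_const_mul]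
    congr 1
    rw [FF, intervalIntegral.integral_of_le hD0.le]
    rw [setIntegral_eq_of_subset_of_forall_sdiff_eq_zero measurableSet_Ioi
      (s := Ioc 0 D) Ioc_subset_Ioi_self]
    · refine setIntegral_congr_fun measurableSet_Ioc fun v hv => ?_
      rw [gfun_of_nonneg_le hD0 hv.1.le hv.2]
      have : Real.exp (-v) * Real.exp v = 1 := by rw [← Real.exp_add]; simp
      calc _ = (Real.exp (-v) * Real.exp v) * (phi lam (v / D) * Real.cos (x * v)) := by ring
        _ = _ := by rw [this, one_mul]
    · intro v hv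
      have h2 : D ≤ |v| := by
        have h3 : 0 < v := hv.1
        rw [abs_of_pos h3]
        by_contra h
        push Not at h
        exact hv.2 ⟨h3, h.le⟩
      rw [gfun_of_le hD0 h2]
      ring
  · have h2 : Integrable (fun η : ℝ => Real.exp (-η)) (volume.restrict (Ioi 0)) :=
      integrableOn_exp_neg_Ioi 0
    have h3 := (AA_integrable h0 h1 hD).mul_prod h2
    refine h3.norm.mono' ?_ (Filter.Eventually.of_forall fun z => ?_)
    · apply Continuous.aestronglyMeasurable
      simp only [Function.uncurry_def]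
      fun_prop
    · simp only [Function.uncurry_def]
      rw [norm_mul, norm_mul, norm_mul, Real.norm_eq_abs (Real.cos _)]
      have := Real.abs_cos_le_one ((x - z.1) * z.2)
      calc ‖AA lam D z.1‖ * (‖Real.exp (-z.2)‖ * |Real.cos ((x - z.1) * z.2)|)
          ≤ ‖AA lam D z.1‖ * (‖Real.exp (-z.2)‖ * 1) := by gcongr
        _ = _ := by rw [mul_one]

/-- Closed form of the cosine integral of `phi`. -/
lemma integral_phi_cos (lam : ℝ) {y : ℝ} (h1 : π + y ≠ 0) (h2 : π - y ≠ 0) :
    ∫ v in (0:ℝ)..1, phi lam v * Real.cos (y * v) =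
      (1 + Real.cos y) * (π ^ 2 * (1 + 2 * lam) - y ^ 2) / ((π + y) ^ 2 * (π - y) ^ 2) := by
  have hpi := Real.pi_ne_zero
  have hder : ∀ v ∈ Set.uIcc (0:ℝ) 1, HasDerivAt
      (fun v : ℝ => lam * (((1 - v) * (Real.sin ((π + y) * v) / (π + y)) -
          Real.cos ((π + y) * v) / (π + y) ^ 2) / 2 +
          ((1 - v) * (Real.sin ((π - y) * v) / (π - y)) -
          Real.cos ((π - y) * v) / (π - y) ^ 2) / 2) +
        (lam + 1) * (-(Real.cos ((π + y) * v) / (π + y) + Real.cos ((π - y) * v) / (π - y)) /
          (2 * π)))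
      (phi lam v * Real.cos (y * v)) v := by
    intro v _
    have ha : HasDerivAt (fun v : ℝ => (π + y) * v) (π + y) v := by
      simpa using (hasDerivAt_id v).const_mul (π + y)
    have hb : HasDerivAt (fun v : ℝ => (π - y) * v) (π - y) v := by
      simpa using (hasDerivAt_id v).const_mul (π - y)
    have e1 := (((hasDerivAt_one_sub v).mul (ha.sin.div_const (π + y))).sub
      (ha.cos.div_const ((π + y) ^ 2))).div_const 2
    have e2 := (((hasDerivAt_one_sub v).mul (hb.sin.div_const (π - y))).sub
      (hb.cos.div_const ((π - y) ^ 2))).div_const 2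
    have e3 := ((((ha.cos.div_const (π + y)).add (hb.cos.div_const (π - y))).neg).div_const
      (2 * π)).const_mul (lam + 1)
    refine (((e1.add e2).const_mul lam).add e3).congr_deriv ?_
    have e4 : Real.cos ((π + y) * v) = Real.cos (π * v) * Real.cos (y * v) -
        Real.sin (π * v) * Real.sin (y * v) := by rw [add_mul, Real.cos_add]
    have e5 : Real.cos ((π - y) * v) = Real.cos (π * v) * Real.cos (y * v) +
        Real.sin (π * v) * Real.sin (y * v) := by rw [sub_mul, Real.cos_sub]
    have e6 : Real.sin ((π + y) * v) = Real.sin (π * v) * Real.cos (y * v) +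
        Real.cos (π * v) * Real.sin (y * v) := by rw [add_mul, Real.sin_add]
    have e7 : Real.sin ((π - y) * v) = Real.sin (π * v) * Real.cos (y * v) -
        Real.cos (π * v) * Real.sin (y * v) := by rw [sub_mul, Real.sin_sub]
    rw [e4, e5, e6, e7]
    unfold phi
    field_simp
    ring
  rw [intervalIntegral.integral_eq_sub_of_hasDerivAt hder
    (Continuous.intervalIntegrable (by fun_prop) _ _)]
  have e8 : Real.cos (π + y) = - Real.cos y := by rw [add_comm, Real.cos_add_pi]
  have e9 : Real.cos (π - y) = - Real.cos y := Real.cos_pi_sub y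
  simp only [mul_one, mul_zero, Real.sin_zero, Real.cos_zero, e8, e9, sub_self, zero_mul, zero_div]
  field_simp
  ring

/-- Sign of the test function. -/
theorem FF_nonpos (h0 : 0 < lam) {D x : ℝ} (hD : 0 < D)
    (hx : π ^ 2 * (1 + 2 * lam) ≤ (D * x) ^ 2) : FF lam D x ≤ 0 := by
  have e1 : FF lam D x = D * ∫ v in (0:ℝ)..1, phi lam v * Real.cos ((D * x) * v) := by
    have e2 := intervalIntegral.integral_comp_div (a := 0) (b := D)
      (fun v => phi lam v * Real.cos ((D * x) * v)) hD.ne'
    rw [zero_div, div_self hD.ne', smul_eq_mul] at e2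
    rw [← e2, FF]
    refine intervalIntegral.integral_congr fun η _ => ?_
    have : x * η = D * x * (η / D) := by field_simp
    rw [this]
  have hpi := Real.pi_pos
  have h3 : π ^ 2 < (D * x) ^ 2 := by
    have : 0 < π ^ 2 * lam := by positivity
    linarith
  have h4 : π + D * x ≠ 0 := by
    intro h
    have : D * x = -π := by linarith
    rw [this] at h3
    nlinarith
  have h5 : π - D * x ≠ 0 := by
    intro h
    have : D * x = π := by linarith
    rw [this] at h3
    exact lt_irrefl _ h3
  rw [e1, integral_phi_cos lam h4 h5]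
  apply mul_nonpos_of_nonneg_of_nonpos hD.le
  apply div_nonpos_of_nonpos_of_nonneg
  · apply mul_nonpos_of_nonneg_of_nonpos
    · linarith [Real.neg_one_le_cos (D * x)]
    · linarith
  · positivity

end Pool.Agent.ZGap
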