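import Pool.Agent.ZGap.TestFun
import Pool.Agent.Lib.Hadamard.Xi
import Pool.Agent.Lib.Hadamard.Digamma

/-!
# The analytic side on the line `Re s = 3/2`
-/

namespace Pool.Agent.ZGap

open MeasureTheory Real Set ArithmeticFunction Pool.Agent.Hadamard

/-- The point `3/2 + iv`. -/
noncomputable def sv (v : ℝ) : ℂ := 3 / 2 + v * Complex.I

lemma sv_re (v : ℝ) : (sv v).re = 3 / 2 := by simp [sv]

lemma sv_im (v : ℝ) : (sv v).im = v := by simp [sv]

lemma sv_continuous : Continuous sv := by unfold sv; fun_prop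

lemma term_re (v : ℝ) (n : ℕ) :
    vonMangoldt n * (n : ℝ) ^ (-(3 / 2) : ℝ) * Real.cos (v * Real.log n) =
      (LSeries.term (fun n => ((vonMangoldt n : ℝ) : ℂ)) (sv v) n).re := by
  rcases Nat.eq_zero_or_pos n with h0 | h0
  · rw [h0]; simp
  · rw [LSeries.term_of_ne_zero (by omega)]
    have hn : (0 : ℝ) < n := by exact_mod_cast h0
    have h6 : (n : ℂ) ^ (sv v) = ((n : ℝ) ^ (3 / 2 : ℝ) : ℝ) *
        Complex.exp ((v * Real.log n : ℝ) * Complex.I) := by
      rw [Complex.cpow_def_of_ne_zero (by exact_mod_cast h0.ne'), sv, mul_add, Complex.exp_add,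
        ← Complex.natCast_log]
      congr 1
      · rw [Real.rpow_def_of_pos hn]
        push_cast
        rfl
      · congr 1
        push_cast
        ring
    have h7 : ((vonMangoldt n : ℝ) : ℂ) / (n : ℂ) ^ (sv v) =
        ((vonMangoldt n * (n : ℝ) ^ (-(3 / 2) : ℝ) : ℝ) : ℂ) *
          Complex.exp ((-(v * Real.log n) : ℝ) * Complex.I) := by
      rw [h6, Real.rpow_neg hn.le, Complex.ofReal_neg, neg_mul, Complex.exp_neg]
      push_cast
      have h8 : (((n : ℝ) ^ (3 / 2 : ℝ) : ℝ) : ℂ) ≠ 0 := by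
        exact_mod_cast (Real.rpow_pos_of_pos hn _).ne'
      have h9 := Complex.exp_ne_zero ((v * Real.log n : ℝ) * Complex.I)
      push_cast at h8 h9
      field_simp
    rw [h7, Complex.re_ofReal_mul, Complex.exp_ofReal_mul_I_re, Real.cos_neg]

/-- The prime side. -/
lemma hasSum_zeta_re (v : ℝ) :
    HasSum (fun n : ℕ => vonMangoldt n * (n : ℝ) ^ (-(3 / 2) : ℝ) * Real.cos (v * Real.log n))
      (-(logDeriv riemannZeta (sv v)).re) := by
  have hs : 1 < (sv v).re := by rw [sv_re]; norm_num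
  have h1 := LSeriesSummable_vonMangoldt hs
  have h2 := h1.hasSum
  have h3 : ∑' n, LSeries.term (fun n => ((vonMangoldt n : ℝ) : ℂ)) (sv v) n =
      - logDeriv riemannZeta (sv v) := by
    have h4 := LSeries_vonMangoldt_eq_deriv_riemannZeta_div hs
    rw [LSeries] at h4
    rw [h4, logDeriv_apply, neg_div]
  rw [h3] at h2
  have h5 := (Complex.hasSum_iff _ _).mp h2 |>.1
  rw [Complex.neg_re] at h5
  have key : (fun n : ℕ => vonMangoldt n * (n : ℝ) ^ (-(3 / 2) : ℝ) * Real.cos (v * Real.log n)) =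
      fun n => (LSeries.term (fun n => ((vonMangoldt n : ℝ) : ℂ)) (sv v) n).re := by
    funext n
    exact term_re v n
  rw [key]
  exact h5

/-- The digamma part. -/
noncomputable def Dg (v : ℝ) : ℝ := (logDeriv Complex.Gamma (sv v / 2)).re

lemma norm_sv_half_sq (v : ℝ) : ‖sv v / 2‖ ^ 2 = (9 / 4 + v ^ 2) / 4 := by
  rw [norm_div, div_pow, Complex.sq_norm, Complex.normSq_apply, sv_re, sv_im]
  norm_num
  ring

lemma norm_sv_half_ge (v : ℝ) : 3 / 4 ≤ ‖sv v / 2‖ := by
  have h := norm_sv_half_sq v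
  nlinarith only [h, norm_nonneg (sv v / 2), sq_nonneg v]

lemma norm_sv_half_ge' (v : ℝ) : |v| / 2 ≤ ‖sv v / 2‖ := by
  have h := norm_sv_half_sq v
  apply le_of_sq_le_sq ?_ (norm_nonneg _) |> fun h => h
  rw [h, div_pow, sq_abs]
  linarith

lemma Dg_sub_log (v : ℝ) :
    |Dg v - Real.log ‖sv v / 2‖| ≤ 2 / ‖sv v / 2‖ ^ 2 + 2 / ‖sv v / 2‖ := by
  have hre : 0 < (sv v / 2).re := by
    have : (sv v / 2).re = 3 / 4 := by simp [sv]; norm_num
    rw [this]; norm_num
  have h1 := norm_digamma_sub_log_le hre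
  refine le_trans ?_ h1
  rw [← Complex.log_re, Dg, ← Complex.sub_re]
  exact Complex.abs_re_le_norm _

lemma Dg_diff {t : ℝ} (ht : 1 ≤ t) (u : ℝ) :
    |Dg (t - u) - Real.log (t / 2)| ≤ 32 * (1 + Real.log t) * Real.sqrt ((1 + |u|) / t) := by
  have ht0 : 0 < t := by linarith
  have hlt : 0 ≤ Real.log t := Real.log_nonneg ht
  set v := t - u with hv
  set r := ‖sv v / 2‖ with hr
  have hr2 : r ^ 2 = (9 / 4 + v ^ 2) / 4 := norm_sv_half_sq v
  have hr34 : 3 / 4 ≤ r := norm_sv_half_ge v
  have hr0 : 0 < r := by linarith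
  have hrv : |v| / 2 ≤ r := norm_sv_half_ge' v
  have h1 : |Dg v - Real.log r| ≤ 2 / r ^ 2 + 2 / r := Dg_sub_log v
  set y := (9 / 4 + v ^ 2) / t ^ 2 with hy
  have hy0 : 0 < y := by positivity
  have h2 : Real.log r - Real.log (t / 2) = Real.log y / 2 := by
    rw [← Real.log_div hr0.ne' (by positivity)]
    have : y = (r / (t / 2)) ^ 2 := by
      rw [div_pow, hr2, hy]
      field_simp
      norm_num
    rw [this, Real.log_pow]
    push_cast
    ring
  have h3 : |Dg v - Real.log (t / 2)| ≤ (2 / r ^ 2 + 2 / r) + |Real.log y| / 2 := by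
    have e : Dg v - Real.log (t / 2) = (Dg v - Real.log r) + (Real.log y / 2) := by
      rw [← h2]; ring
    rw [e]
    refine (abs_add_le _ _).trans ?_
    rw [abs_div, abs_of_pos (by norm_num : (0:ℝ) < 2)]
    linarith
  refine h3.trans ?_
  set X := (1 + |u|) / t with hX
  have hau := abs_nonneg u
  have hX0 : 0 < X := by positivity
  have hsX : Real.sqrt X ^ 2 = X := Real.sq_sqrt hX0.le
  have hsX0 : 0 < Real.sqrt X := Real.sqrt_pos.mpr hX0
  rcases le_or_gt |u| (t / 2) with hu | hu
  · -- near range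
    have hvl : t / 2 ≤ v := by have := (abs_le.mp hu).2; rw [hv]; linarith
    have hrt : t / 4 ≤ r := by
      rw [abs_of_pos (by linarith)] at hrv; linarith
    have e1 : 2 / r ^ 2 + 2 / r ≤ 19 / t := by
      have e2 : 2 / r ≤ 8 / t := by
        rw [div_le_div_iff₀ hr0 ht0]; linarith
      have e3 : 1 / r ≤ 4 / 3 := by
        rw [div_le_div_iff₀ hr0 (by norm_num)]; linarith
      have e4 : 2 / r ^ 2 = (2 / r) * (1 / r) := by field_simp
      rw [e4]
      calc 2 / r * (1 / r) + 2 / r ≤ 8 / t * (4 / 3) + 8 / t := by gcongr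
        _ ≤ 19 / t := by rw [← sub_nonneg]; ring_nf; positivity
    have e5 : |Real.log y| ≤ 4 * |y - 1| := by
      have hy14 : 1 / 4 ≤ y := by
        rw [hy, div_le_div_iff₀ (by norm_num) (by positivity)]
        linarith only [pow_le_pow_left₀ (by positivity : 0 ≤ t / 2) hvl 2]
      have e6 : Real.log y ≤ y - 1 := Real.log_le_sub_one_of_pos hy0
      have e7 : 1 - y⁻¹ ≤ Real.log y := Real.one_sub_inv_le_log_of_pos hy0
      rw [abs_le]
      constructor
      · have e8 : -(4 * |y - 1|) ≤ 1 - y⁻¹ := by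
          have e9 : 1 - y⁻¹ = (y - 1) * y⁻¹ := by field_simp
          have e10 : y⁻¹ ≤ 4 := by
            rw [inv_le_comm₀ hy0 (by norm_num)]; linarith
          have e11 : 0 < y⁻¹ := by positivity
          rw [e9]
          have e12 := neg_abs_le (y - 1)
          linarith only [mul_le_mul_of_nonneg_right e12 e11.le, mul_le_mul_of_nonneg_left e10 (abs_nonneg (y - 1))]
        linarith
      · have := le_abs_self (y - 1)
        linarith [abs_nonneg (y - 1)]
    have e13 : |y - 1| ≤ 5 / 2 * X := by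
      have e14 : y - 1 = (9 / 4 - u * (2 * t - u)) / t ^ 2 := by
        rw [hy, hv]; field_simp; ring
      rw [e14, abs_div, abs_of_pos (by positivity : 0 < t ^ 2), hX, ← mul_div_assoc,
        div_le_div_iff₀ (by positivity) ht0]
      have e15 : |9 / 4 - u * (2 * t - u)| ≤ 9 / 4 + |u| * (5 / 2 * t) := by
        have e16 : |2 * t - u| ≤ 5 / 2 * t := by
          rw [abs_le]
          have := abs_le.mp hu
          constructor <;> linarith
        calc _ ≤ |(9 / 4 : ℝ)| + |u * (2 * t - u)| := abs_sub _ _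
          _ ≤ 9 / 4 + |u| * (5 / 2 * t) := by
            rw [abs_mul, abs_of_pos (by norm_num : (0:ℝ) < 9 / 4)]
            gcongr
      nlinarith only [mul_le_mul_of_nonneg_right e15 ht0.le, mul_le_mul_of_nonneg_right ht ht0.le, mul_nonneg hau ht0.le, ht0]
    have e17 : 19 / t ≤ 19 * X := by
      rw [hX, ← mul_div_assoc]
      gcongr
      linarith
    have hX32 : X ≤ 3 / 2 := by
      rw [hX, div_le_iff₀ ht0]; linarith
    have hs : Real.sqrt X ≤ 1.25 := by
      rw [Real.sqrt_le_left (by norm_num)]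
      norm_num
      linarith
    calc _ ≤ 19 * X + (4 * (5 / 2 * X)) / 2 := by linarith
      _ = 24 * (Real.sqrt X * Real.sqrt X) := by rw [← pow_two, hsX]; ring
      _ ≤ 24 * (1.25 * Real.sqrt X) := by gcongr
      _ ≤ 32 * (1 + Real.log t) * Real.sqrt X := by nlinarith only [mul_nonneg hlt hsX0.le, hsX0]
  · -- far range
    have hX12 : 1 / 2 ≤ X := by
      rw [hX, le_div_iff₀ ht0]; linarith
    have hs : 0.7 ≤ Real.sqrt X := by
      apply Real.le_sqrt_of_sq_le
      norm_num
      linarith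
    have e1 : 2 / r ^ 2 + 2 / r ≤ 7 := by
      have e2 : 2 / r ≤ 8 / 3 := by
        rw [div_le_div_iff₀ hr0 (by norm_num)]; linarith
      have e3 : 1 / r ≤ 4 / 3 := by
        rw [div_le_div_iff₀ hr0 (by norm_num)]; linarith
      have e4 : 2 / r ^ 2 = (2 / r) * (1 / r) := by field_simp
      rw [e4]
      calc 2 / r * (1 / r) + 2 / r ≤ 8 / 3 * (4 / 3) + 8 / 3 := by gcongr
        _ ≤ 7 := by norm_num
    have e5 : Real.log y = Real.log (9 / 4 + v ^ 2) - 2 * Real.log t := by
      rw [hy, Real.log_div (by positivity) (by positivity), Real.log_pow]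
      push_cast; ring
    have e6 : 0 ≤ Real.log (9 / 4 + v ^ 2) := Real.log_nonneg (by linarith [sq_nonneg v])
    have e7 : Real.log (9 / 4 + v ^ 2) ≤ 2 * (Real.log t + 3 * Real.sqrt X) := by
      have e8 : 9 / 4 + v ^ 2 ≤ (t * (1 + 2 * X)) ^ 2 := by
        have e9 : |v| ≤ t + |u| := by
          rw [hv]
          calc |t - u| ≤ |t| + |u| := abs_sub _ _
            _ = t + |u| := by rw [abs_of_pos ht0]
        have e10 : t * (1 + 2 * X) = t + 2 * (1 + |u|) := by
          rw [hX]; field_simp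
        have e101 : |v| ^ 2 ≤ (t + |u|) ^ 2 := by gcongr
        have e102 : t + 2 * (1 + |u|) = (t + |u|) + (2 + |u|) := by ring
        have e103 : 0 ≤ (t + |u|) * (2 + |u|) := by positivity
        rw [e10, ← sq_abs v, e102, add_sq]
        nlinarith only [e101, e103, sq_nonneg |u|, hau]
      have e11 : 1 + 2 * X ≤ (1 + 3 / 2 * Real.sqrt X) ^ 2 := by nlinarith only [hsX, hsX0, hX0]
      have e12 : Real.log (1 + 2 * X) ≤ 3 * Real.sqrt X := by
        calc Real.log (1 + 2 * X) ≤ Real.log ((1 + 3 / 2 * Real.sqrt X) ^ 2) :=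
              Real.log_le_log (by positivity) e11
          _ = 2 * Real.log (1 + 3 / 2 * Real.sqrt X) := by rw [Real.log_pow]; push_cast; ring
          _ ≤ 2 * (3 / 2 * Real.sqrt X) := by
              have := Real.log_le_sub_one_of_pos (x := 1 + 3 / 2 * Real.sqrt X) (by positivity)
              linarith
          _ = _ := by ring
      calc Real.log (9 / 4 + v ^ 2) ≤ Real.log ((t * (1 + 2 * X)) ^ 2) :=
            Real.log_le_log (by positivity) e8
        _ = 2 * (Real.log t + Real.log (1 + 2 * X)) := by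
            rw [Real.log_pow, Real.log_mul ht0.ne' (by positivity)]; push_cast; ring
        _ ≤ _ := by linarith
    have e13 : |Real.log y| ≤ 2 * (2 * Real.log t + 3 * Real.sqrt X) := by
      rw [e5, abs_le]
      constructor <;> linarith
    have e14 : 0.7 * Real.log t ≤ Real.sqrt X * Real.log t := by gcongr
    have e15 : 32 * (1 + Real.log t) * Real.sqrt X =
      32 * Real.sqrt X + 32 * (Real.sqrt X * Real.log t) := by ring
    rw [e15]
    linarith

end Pool.Agent.ZGap
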